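import Pool.Agent.Run7.h208.WT.Chain

/-!
# Directed polymers: moments of small order of the partition function are multiplicative up to
polynomial factors
-/

set_option autoImplicit false

open MeasureTheory ProbabilityTheory Filter Topology
open scoped ENNReal

namespace Pool.Agent.Run7.h981.ME

open TH967.DP
open Pool.Agent.N662.SE
open Pool.Agent.Run7.h208.WT
open Pool.Agent.N50.SE.SUP (wt part_eq part_add wt_pos meas_wt meas_part log_ge)

variable {d : ℕ}

section
variable {Ω : Type} [mΩ : MeasurableSpace Ω] (P : Measure Ω) [IsProbabilityMeasure P]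
  (ω : ℕ → (Fin d → ℤ) → Ω → ℝ)

/-- the moment of order `l` of the partition function -/
noncomputable def MM (β : ℝ) (h : Fin d → ℝ) (l : ℝ) (n : ℕ) : ℝ≥0∞ :=
  ∫⁻ x, EX (l * lw ω β h 0 0 n x) ∂P

variable {P ω}

omit [IsProbabilityMeasure P] in
lemma tauU_le_MM (β : ℝ) (h : Fin d → ℝ) (l s0 : ℝ) (b : ℕ) :
    tauU P ω β h l 0 s0 b ≤ MM P ω β h l b := by
  unfold tauU MM
  refine lintegral_mono fun x => ?_
  simp only [sub_zero]
  split_ifs
  · exact le_rfl
  · exact bot_le

lemma EX_pos (t : ℝ) : 0 < EX t := ENNReal.ofReal_pos.2 (Real.exp_pos t)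

/-- the moments are finite -/
lemma MM_le (hc : S_CONC) (hd : 1 ≤ d) (he : IsEnv P ω)
    (hexp : ∀ b : ℝ, Integrable (fun x => Real.exp (b * ω 1 0 x)) P) (β : ℝ) (h : Fin d → ℝ)
    {l : ℝ} (hl : |l| ≤ 1 / 4) (n : ℕ) :
    MM P ω β h l n ≤ EX (l * free P ω β h n + 16 * mom P ω β * l ^ 2 * n) := by
  obtain ⟨h1, h2, -, h3⟩ := hc d hd Ω P ω he hexp β h 0 0 n
  have h4 := h3 l hl
  unfold MM
  calc ∫⁻ x, EX (l * lw ω β h 0 0 n x) ∂P =
      ∫⁻ x, EX (l * free P ω β h n) * EX (l * (lw ω β h 0 0 n x - free P ω β h n)) ∂P := by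
        refine lintegral_congr fun x => ?_
        rw [← EX_add]; congr 1; ring
    _ = EX (l * free P ω β h n) *
        ∫⁻ x, EX (l * (lw ω β h 0 0 n x - free P ω β h n)) ∂P :=
        lintegral_const_mul _ (measurable_EX.comp ((h1.sub_const _).const_mul _))
    _ ≤ EX (l * free P ω β h n) * EX (16 * mom P ω β * l ^ 2 * n) := by
        gcongr
        exact h4
    _ = _ := by rw [← EX_add]

lemma MM_ne_top (hc : S_CONC) (hd : 1 ≤ d) (he : IsEnv P ω)
    (hexp : ∀ b : ℝ, Integrable (fun x => Real.exp (b * ω 1 0 x)) P) (β : ℝ) (h : Fin d → ℝ)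
    {l : ℝ} (hl : |l| ≤ 1 / 4) (n : ℕ) : MM P ω β h l n ≠ ∞ :=
  ne_top_of_le_ne_top (EX_ne_top _) (MM_le hc hd he hexp β h hl n)

/-- Jensen -/
lemma MM_ge (hc : S_CONC) (hd : 1 ≤ d) (he : IsEnv P ω)
    (hexp : ∀ b : ℝ, Integrable (fun x => Real.exp (b * ω 1 0 x)) P) (β : ℝ) (h : Fin d → ℝ)
    (l : ℝ) (n : ℕ) : EX (l * free P ω β h n) ≤ MM P ω β h l n := by
  obtain ⟨h1, h2, -, -⟩ := hc d hd Ω P ω he hexp β h 0 0 n
  have hm : Measurable fun x => EX (l * (lw ω β h 0 0 n x - free P ω β h n)) :=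
    measurable_EX.comp ((h1.sub_const _).const_mul _)
  have e : MM P ω β h l n = EX (l * free P ω β h n) *
      ∫⁻ x, EX (l * (lw ω β h 0 0 n x - free P ω β h n)) ∂P := by
    rw [← lintegral_const_mul _ hm]
    unfold MM
    refine lintegral_congr fun x => ?_
    rw [← EX_add]; congr 1; ring
  have h3 : (1 : ℝ≥0∞) ≤ ∫⁻ x, EX (l * (lw ω β h 0 0 n x - free P ω β h n)) ∂P := by
    by_cases hf : ∫⁻ x, EX (l * (lw ω β h 0 0 n x - free P ω β h n)) ∂P = ∞
    · rw [hf]; exact le_top
    have hi0 : Integrable (fun x => lw ω β h 0 0 n x - free P ω β h n) P :=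
      h2.sub (integrable_const _)
    have hi : Integrable (fun x => l * (lw ω β h 0 0 n x - free P ω β h n) + 1) P :=
      (hi0.const_mul l).add (integrable_const _)
    have hi2 : Integrable (fun x => Real.exp (l * (lw ω β h 0 0 n x - free P ω β h n))) P := by
      refine ⟨(Real.measurable_exp.comp ((h1.sub_const _).const_mul _)).aestronglyMeasurable, ?_⟩
      rw [hasFiniteIntegral_iff_ofReal (Eventually.of_forall fun x => (Real.exp_pos _).le)]
      exact lt_top_iff_ne_top.2 hf
    have h5 : ∫ x, (l * (lw ω β h 0 0 n x - free P ω β h n) + 1) ∂P = 1 := by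
      have e1 : ∫ x, (l * (lw ω β h 0 0 n x - free P ω β h n) + 1) ∂P =
          (∫ x, l * (lw ω β h 0 0 n x - free P ω β h n) ∂P) + ∫ _x, (1 : ℝ) ∂P :=
        integral_add (hi0.const_mul l) (integrable_const _)
      have e2 : ∫ x, (lw ω β h 0 0 n x - free P ω β h n) ∂P =
          (∫ x, lw ω β h 0 0 n x ∂P) - ∫ _x, free P ω β h n ∂P :=
        integral_sub h2 (integrable_const _)
      rw [e1, integral_const_mul, e2]
      simp [free]
    have h6 : (1 : ℝ) ≤ ∫ x, Real.exp (l * (lw ω β h 0 0 n x - free P ω β h n)) ∂P := by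
      rw [← h5]
      exact integral_mono hi hi2 fun x => Real.add_one_le_exp _
    have h7 := ENNReal.ofReal_le_ofReal h6
    rw [ENNReal.ofReal_one, ofReal_integral_eq_lintegral_ofReal hi2
      (Eventually.of_forall fun x => (Real.exp_pos _).le)] at h7
    exact h7
  rw [e]
  calc EX (l * free P ω β h n) = EX (l * free P ω β h n) * 1 := (mul_one _).symm
    _ ≤ _ := by gcongr

/-- the moments are submultiplicative up to the number of starting points -/
lemma MM_sub (hc : S_CONC) (hi' : S_ID) (hd : 1 ≤ d) (he : IsEnv P ω)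
    (hexp : ∀ b : ℝ, Integrable (fun x => Real.exp (b * ω 1 0 x)) P) (β : ℝ) (h : Fin d → ℝ)
    {l : ℝ} (hl0 : 0 < l) (hl : l ≤ 1 / 4) (a b : ℕ) :
    MM P ω β h l (a + b) ≤ MM P ω β h l a * ((Box d a).card * MM P ω β h l b) := by
  have hla : |l| ≤ 1 / 4 := by rw [abs_of_pos hl0]; exact hl
  have h1 : ∀ s0 : ℝ, MM P ω β h l (a + b) ≤
      MM P ω β h l a * (EX (l * s0) + (Box d a).card * MM P ω β h l b) := by
    intro s0
    refine (up_step hi' hd he β h hl0 0 s0 b le_rfl).trans ?_
    rw [mul_zero, EX_zero, one_mul]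
    unfold MM
    gcongr
    exact tauU_le_MM β h l s0 b
  have h2 : Tendsto (fun s0 : ℝ => MM P ω β h l a * (EX (l * s0) +
      (Box d a).card * MM P ω β h l b)) atBot
      (𝓝 (MM P ω β h l a * (0 + (Box d a).card * MM P ω β h l b))) := by
    refine ENNReal.Tendsto.const_mul ?_ (Or.inr (MM_ne_top hc hd he hexp β h hla a))
    refine Tendsto.add ?_ tendsto_const_nhds
    have h3 : Tendsto (fun s0 : ℝ => Real.exp (l * s0)) atBot (𝓝 0) :=
      Real.tendsto_exp_atBot.comp (tendsto_id.const_mul_atBot hl0)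
    have h4 := (ENNReal.continuous_ofReal.tendsto 0).comp h3
    rw [ENNReal.ofReal_zero] at h4
    exact h4
  rw [zero_add] at h2
  exact ge_of_tendsto' h2 h1

/-- the pointwise lower bound -/
lemma ge_pt (hd : 1 ≤ d) (β : ℝ) (h : Fin d → ℝ) {l : ℝ} (hl : 0 ≤ l) (hl1 : l ≤ 1) (a b : ℕ)
    (x : Ω) :
    ∑ u : Fin a → Step d, (wt β h (fun i y => ω i y x) u /
      part β h (fun i y => ω i y x) a Set.univ * Real.exp (l * lw ω β h 0 0 a x)) *
        Real.exp (l * lw ω β h a (pos u a) b x) ≤ Real.exp (l * lw ω β h 0 0 (a + b) x) := by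
  set p : (Fin a → Step d) → ℝ := fun u =>
    wt β h (fun i y => ω i y x) u / part β h (fun i y => ω i y x) a Set.univ with hp
  have hA := part_univ_pos hd β h (fun i y => ω i y x) a
  have hp0 : ∀ u, 0 ≤ p u := fun u => (div_pos (wt_pos _ _ _ _) hA).le
  have hp1 : ∑ u, p u = 1 := by
    simp only [hp]
    rw [← Finset.sum_div, ← part_eq, div_self hA.ne']
  have e0 : ∀ n, lw ω β h 0 0 n x = Real.log (part β h (fun i y => ω i y x) n Set.univ) := by
    intro n
    unfold lw
    congr 2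
    funext i y
    rw [zero_add, zero_add]
  have eZ : ∀ n, Real.exp (l * lw ω β h 0 0 n x) =
      (part β h (fun i y => ω i y x) n Set.univ) ^ l := by
    intro n
    rw [e0, mul_comm, Real.rpow_def_of_pos (part_univ_pos hd _ _ _ _)]
  have eU : ∀ u : Fin a → Step d, Real.exp (l * lw ω β h a (pos u a) b x) =
      (part β h (fun i y => ω (a + i) (pos u a + y) x) b Set.univ) ^ l := by
    intro u
    unfold lw
    rw [mul_comm, Real.rpow_def_of_pos (part_univ_pos hd _ _ _ _)]
  have hJ := (Real.concaveOn_rpow hl hl1).le_map_sum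
    (t := (Finset.univ : Finset (Fin a → Step d)))
    (w := p) (p := fun u => part β h (fun i y => ω (a + i) (pos u a + y) x) b Set.univ)
    (fun u _ => hp0 u) hp1 (fun u _ => Set.mem_Ici.2 (part_univ_pos hd _ _ _ _).le)
  simp only [smul_eq_mul] at hJ
  have hZ : part β h (fun i y => ω i y x) (a + b) Set.univ =
      part β h (fun i y => ω i y x) a Set.univ *
        ∑ u, p u * part β h (fun i y => ω (a + i) (pos u a + y) x) b Set.univ := by
    rw [part_add, Finset.mul_sum]
    refine Finset.sum_congr rfl fun u _ => ?_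
    simp only [hp]
    field_simp
  have hS : 0 ≤ ∑ u, p u * part β h (fun i y => ω (a + i) (pos u a + y) x) b Set.univ :=
    Finset.sum_nonneg fun u _ => mul_nonneg (hp0 u) (part_univ_pos hd _ _ _ _).le
  rw [eZ (a + b), hZ, Real.mul_rpow hA.le hS, ← eZ a]
  calc ∑ u : Fin a → Step d, (wt β h (fun i y => ω i y x) u /
      part β h (fun i y => ω i y x) a Set.univ * Real.exp (l * lw ω β h 0 0 a x)) *
        Real.exp (l * lw ω β h a (pos u a) b x)
      = Real.exp (l * lw ω β h 0 0 a x) * ∑ u, p u *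
        (part β h (fun i y => ω (a + i) (pos u a + y) x) b Set.univ) ^ l := by
        rw [Finset.mul_sum]
        refine Finset.sum_congr rfl fun u _ => ?_
        rw [eU]
        simp only [hp]
        ring
    _ ≤ _ := mul_le_mul_of_nonneg_left hJ (Real.exp_pos _).le

/-- the moments of order at most one are supermultiplicative -/
lemma MM_sup (hi' : S_ID) (hd : 1 ≤ d) (he : IsEnv P ω) (β : ℝ) (h : Fin d → ℝ)
    {l : ℝ} (hl : 0 ≤ l) (hl1 : l ≤ 1) (a b : ℕ) :
    MM P ω β h l a * MM P ω β h l b ≤ MM P ω β h l (a + b) := by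
  unfold MM
  set p : (Fin a → Step d) → Ω → ℝ := fun u x =>
    wt β h (fun i y => ω i y x) u / part β h (fun i y => ω i y x) a Set.univ with hp
  have hA : ∀ x, 0 < part β h (fun i y => ω i y x) a Set.univ := fun x =>
    part_univ_pos hd β h (fun i y => ω i y x) a
  have hp0 : ∀ u x, 0 ≤ p u x := fun u x => (div_pos (wt_pos _ _ _ _) (hA x)).le
  have hp1 : ∀ x, ∑ u, p u x = 1 := by
    intro x
    simp only [hp]
    rw [← Finset.sum_div, ← part_eq, div_self (hA x).ne']
  have hpm : ∀ u, Measurable[lo ω a] (p u) := fun u =>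
    (meas_wt_lo β h a u).div (meas_part_lo β h a)
  have hf : ∀ u, Measurable[lo ω a] (fun x => ENNReal.ofReal (p u x *
      Real.exp (l * lw ω β h 0 0 a x))) := fun u =>
    ((hpm u).mul (Real.measurable_exp.comp ((meas_lw_lo β h a).const_mul l))).ennreal_ofReal
  have hg : ∀ u : Fin a → Step d, Measurable[hi ω a]
      (fun x => EX (l * lw ω β h a (pos u a) b x)) := fun u =>
    measurable_EX.comp ((meas_lw_hi β h a (pos u a) b).const_mul l)
  have hid : ∀ u : Fin a → Step d, ∫⁻ x, EX (l * lw ω β h a (pos u a) b x) ∂P =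
      ∫⁻ x, EX (l * lw ω β h 0 0 b x) ∂P := fun u =>
    ((hi' d hd Ω P ω he β h a (pos u a) b).comp
      (measurable_EX.comp (measurable_id.const_mul l))).lintegral_eq
  calc (∫⁻ x, EX (l * lw ω β h 0 0 a x) ∂P) * ∫⁻ x, EX (l * lw ω β h 0 0 b x) ∂P
      = (∫⁻ x, ∑ u : Fin a → Step d, ENNReal.ofReal (p u x *
          Real.exp (l * lw ω β h 0 0 a x)) ∂P) * ∫⁻ x, EX (l * lw ω β h 0 0 b x) ∂P := by
        congr 1
        refine lintegral_congr fun x => ?_
        rw [← ENNReal.ofReal_sum_of_nonneg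
          (fun u _ => mul_nonneg (hp0 u x) (Real.exp_pos _).le), ← Finset.sum_mul, hp1, one_mul]
        rfl
    _ = ∑ u : Fin a → Step d, (∫⁻ x, ENNReal.ofReal (p u x *
          Real.exp (l * lw ω β h 0 0 a x)) ∂P) * ∫⁻ x, EX (l * lw ω β h 0 0 b x) ∂P := by
        rw [← Finset.sum_mul, lintegral_finsetSum _ (fun u _ => (hf u).mono (lo_le he a) le_rfl)]
    _ = ∫⁻ x, ∑ u : Fin a → Step d, ENNReal.ofReal (p u x * Real.exp (l * lw ω β h 0 0 a x)) *
          EX (l * lw ω β h a (pos u a) b x) ∂P := by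
        have hfg : ∀ u : Fin a → Step d, Measurable (fun x => ENNReal.ofReal (p u x *
            Real.exp (l * lw ω β h 0 0 a x)) * EX (l * lw ω β h a (pos u a) b x)) := fun u =>
          ((hf u).mono (lo_le he a) le_rfl).mul ((hg u).mono (hi_le he a) le_rfl)
        rw [lintegral_finsetSum _ (fun u _ => hfg u)]
        refine Finset.sum_congr rfl fun u _ => ?_
        rw [lintegral_mul_eq_lintegral_mul_lintegral_of_independent_measurableSpace (lo_le he a)
          (hi_le he a) (indep_lo_hi he a) (hf u) (hg u), hid u]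
    _ ≤ _ := by
        refine lintegral_mono fun x => ?_
        have h1 := ge_pt hd β h hl hl1 a b x (ω := ω)
        refine le_trans (le_of_eq ?_) (ENNReal.ofReal_le_ofReal h1)
        rw [ENNReal.ofReal_sum_of_nonneg]
        · refine Finset.sum_congr rfl fun u _ => ?_
          rw [ENNReal.ofReal_mul (mul_nonneg (hp0 u x) (Real.exp_pos _).le)]
          rfl
        · intro u _
          exact mul_nonneg (mul_nonneg (hp0 u x) (Real.exp_pos _).le) (Real.exp_pos _).le

end

end Pool.Agent.Run7.h981.ME
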