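import Pool.Agent.Run7.h981.ME.Up

/-!
# Directed polymers: the bootstrap and the tails
-/

set_option autoImplicit false

open MeasureTheory ProbabilityTheory Filter Topology
open scoped ENNReal

namespace Pool.Agent.Run7.h981.ME

open TH967.DP
open Pool.Agent.N662.SE
open Pool.Agent.Run7.h208.WT

variable {d : ℕ}

lemma ev_log (C D : ℝ) {e : ℝ} (he : 0 < e) : ∀ᶠ X : ℝ in atTop, C + D * Real.log (9 * X) ≤ X ^ e := by
  have h1 : Tendsto (fun X : ℝ => Real.log X / X ^ e) atTop (𝓝 0) :=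
    (isLittleO_log_rpow_atTop he).tendsto_div_nhds_zero
  have h2 : Tendsto (fun X : ℝ => (C + D * Real.log 9) / X ^ e) atTop (𝓝 0) :=
    tendsto_const_nhds.div_atTop (tendsto_rpow_atTop he)
  have h3 : Tendsto (fun X : ℝ => (C + D * Real.log 9) / X ^ e + D * (Real.log X / X ^ e)) atTop
      (𝓝 (0 + D * 0)) := h2.add (h1.const_mul D)
  rw [mul_zero, add_zero] at h3
  filter_upwards [h3.eventually (ge_mem_nhds one_pos), eventually_gt_atTop 0] with X h4 h0
  have h5 : 0 < X ^ e := Real.rpow_pos_of_pos h0 _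
  rw [Real.log_mul (by norm_num) h0.ne']
  rw [← mul_div_assoc, ← add_div, div_le_one h5] at h4
  linarith

section
variable {Ω : Type} [mΩ : MeasurableSpace Ω] (P : Measure Ω) [IsProbabilityMeasure P]
  (ω : ℕ → (Fin d → ℤ) → Ω → ℝ)

/-- the growth rate of the moments has contact of order `1 / z` with the typical growth -/
def Flat (β : ℝ) (U : Set (Fin d → ℝ)) (φ : (Fin d → ℝ) → ℝ) (z : ℝ) : Prop :=
  ∀ᶠ x : ℝ in atTop, ∀ h ∈ U, gap P ω β h (φ h) (x ^ (-z)) ≤ x⁻¹

variable {P ω} {β : ℝ} {U : Set (Fin d → ℝ)} {φ : (Fin d → ℝ) → ℝ}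

omit [IsProbabilityMeasure P] in
lemma flat_half (R : ∀ h ∈ U, Reg P ω β h (φ h)) {z : ℝ} (hz : 1 / 2 < z) : Flat P ω β U φ z := by
  have h1 : Tendsto (fun x : ℝ => x ^ (-z)) atTop (𝓝 0) := tendsto_rpow_neg_atTop (by linarith)
  have h2 : Tendsto (fun x : ℝ => 16 * mom P ω β * x ^ (-(2 * z - 1))) atTop
      (𝓝 (16 * mom P ω β * 0)) := (tendsto_rpow_neg_atTop (by linarith)).const_mul _
  rw [mul_zero] at h2
  unfold Flat
  filter_upwards [h1.eventually (ge_mem_nhds (show (0 : ℝ) < 1 / 4 by norm_num)),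
    h2.eventually (ge_mem_nhds one_pos), eventually_gt_atTop 0] with x h3 h4 h0
  intro h hh
  have h5 := lam_le (R h hh) (Real.rpow_pos_of_pos h0 (-z)) h3
  unfold gap
  have h6 : (x ^ (-z)) ^ 2 = x ^ (-(2 * z - 1)) * x⁻¹ := by
    rw [← Real.rpow_natCast, ← Real.rpow_mul h0.le, ← Real.rpow_neg_one x, ← Real.rpow_add h0]
    congr 1; push_cast; ring
  rw [h6] at h5
  have h7 : 0 < x⁻¹ := inv_pos.2 h0
  have h8 : 16 * mom P ω β * (x ^ (-(2 * z - 1)) * x⁻¹) ≤ 1 * x⁻¹ := by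
    rw [← mul_assoc]
    exact mul_le_mul_of_nonneg_right h4 h7.le
  linarith

/-- one step of the bootstrap -/
lemma flat_step (hi' : S_ID) (hd : 1 ≤ d) (he : IsEnv P ω) (R : ∀ h ∈ U, Reg P ω β h (φ h))
    {ζ q q' C1 b z0 z1 z2 : ℝ} (hζ0 : 0 ≤ ζ) (hζ1 : ζ ≤ 1) (hC1 : 0 ≤ C1)
    (hW : ∀ h ∈ U, ∀ m : ℕ, 1 ≤ m → P {x | (m : ℝ) ^ ζ < lw ω β h 0 0 m x - m * φ h} ≤
      ENNReal.ofReal (C1 * (m : ℝ) ^ (-q)))
    (hq0 : 0 < q') (hq : q' < q) (hb0 : 0 < b) (hb1 : b < 1) (hA : (1 - b) + d ≤ b * q')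
    (hz0 : 0 < z0) (hz1 : b * z0 ≤ z1) (hz2 : 1 - b * (1 - ζ) ≤ z1) (h12 : z1 < z2)
    (hL : Flat P ω β U φ z0) : Flat P ω β U φ z2 := by
  obtain ⟨C, hC⟩ := raw hi' hd he R hζ0 hζ1 hC1 hW hq0 hq hb0 hb1 hA hz0 hz1 hz2 hL
  have z1p : 0 < z1 := lt_of_lt_of_le (by positivity) hz1
  have z2p : 0 < z2 := z1p.trans h12
  have he : 0 < 1 - z1 / z2 := by
    have : z1 / z2 < 1 := (div_lt_one z2p).2 h12
    linarith
  have hX : Tendsto (fun x : ℝ => x ^ (z2 / z1)) atTop atTop := tendsto_rpow_atTop (by positivity)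
  unfold Flat
  filter_upwards [hX.eventually hC, hX.eventually (ev_log C d he), eventually_ge_atTop (1 : ℝ)]
    with x h1U h2 hx
  intro h hh
  have h1 := h1U h hh
  have x0 : (0 : ℝ) < x := lt_of_lt_of_le one_pos hx
  have e1 : (x ^ (z2 / z1)) ^ (-z1) = x ^ (-z2) := by
    rw [← Real.rpow_mul x0.le]; congr 1; field_simp
  rw [e1] at h1
  refine h1.trans ?_
  rw [div_le_iff₀ (Real.rpow_pos_of_pos x0 _)]
  refine h2.trans (le_of_eq ?_)
  rw [← Real.rpow_mul x0.le, ← Real.rpow_neg_one x, ← Real.rpow_add x0]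
  congr 1
  field_simp
  ring

/-- **the bootstrap** -/
theorem flat_of_weak (hi' : S_ID) (hd : 1 ≤ d) (he : IsEnv P ω) (R : ∀ h ∈ U, Reg P ω β h (φ h))
    {ζ q C1 z : ℝ} (hζ0 : 0 ≤ ζ) (hζ1 : ζ < 1) (hq : (d : ℝ) < q)
    (hW : ∀ h ∈ U, ∀ m : ℕ, 1 ≤ m → P {x | (m : ℝ) ^ ζ < lw ω β h 0 0 m x - m * φ h} ≤
      ENNReal.ofReal (C1 * (m : ℝ) ^ (-q))) (hz : ζ < z) : Flat P ω β U φ z := by
  have hd1 : (1 : ℝ) ≤ d := by exact_mod_cast hd
  have hz0 : 0 < z := lt_of_le_of_lt hζ0 hz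
  set q' : ℝ := (d + q) / 2 with hq'
  have q1 : (d : ℝ) < q' := by linarith
  have q2 : q' < q := by linarith
  set M : ℝ := max ((1 + d) / (1 + q')) ((1 - z) / (1 - ζ)) with hM
  have M1 : M < 1 := max_lt ((div_lt_one (by linarith)).2 (by linarith))
    ((div_lt_one (by linarith)).2 (by linarith))
  have M0 : 0 < M := lt_max_of_lt_left (by apply div_pos <;> linarith)
  set b : ℝ := (1 + M) / 2 with hb
  have b1 : b < 1 := by linarith
  have bM : M < b := by linarith
  have b0 : 0 < b := by linarith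
  have hA : (1 - b) + d ≤ b * q' := by
    have h1 : (1 + d) / (1 + q') < b := (le_max_left _ _).trans_lt bM
    rw [div_lt_iff₀ (by linarith)] at h1
    linarith
  have hB : 1 - b * (1 - ζ) < z := by
    have h1 : (1 - z) / (1 - ζ) < b := (le_max_right _ _).trans_lt bM
    rw [div_lt_iff₀ (by linarith)] at h1
    linarith
  set r : ℝ := (1 + b) / 2 with hr
  have r1 : r < 1 := by linarith
  have rb : b < r := by linarith
  have r0 : 0 < r := by linarith
  have hW' : ∀ h ∈ U, ∀ m : ℕ, 1 ≤ m → P {x | (m : ℝ) ^ ζ < lw ω β h 0 0 m x - m * φ h} ≤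
      ENNReal.ofReal (|C1| * (m : ℝ) ^ (-q)) := fun h hh m hm =>
    (hW h hh m hm).trans (ENNReal.ofReal_le_ofReal
      (mul_le_mul_of_nonneg_right (le_abs_self _) (Real.rpow_nonneg (Nat.cast_nonneg m) _)))
  have key : ∀ k : ℕ, Flat P ω β U φ (max (r ^ k) z) := by
    intro k
    induction k with
    | zero =>
      rw [pow_zero]
      exact flat_half R (lt_of_lt_of_le (by norm_num) (le_max_left _ _))
    | succ k ih =>
      have hpos : 0 < max (r ^ k) z := lt_max_of_lt_right hz0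
      refine flat_step hi' hd he R hζ0 hζ1.le (abs_nonneg C1) hW' (by linarith) q2 b0 b1 hA hpos
        (z1 := max (b * max (r ^ k) z) (1 - b * (1 - ζ))) (le_max_left _ _) (le_max_right _ _)
        ?_ ih
      refine max_lt ?_ (hB.trans_le (le_max_right _ _))
      rcases le_total (r ^ k) z with h1 | h1
      · rw [max_eq_right h1]
        refine lt_of_lt_of_le ?_ (le_max_right _ _)
        nlinarith
      · rw [max_eq_left h1]
        refine lt_of_lt_of_le ?_ (le_max_left _ _)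
        rw [pow_succ, mul_comm b]
        exact mul_lt_mul_of_pos_left rb (pow_pos r0 k)
  obtain ⟨k, hk⟩ := exists_pow_lt_of_lt_one hz0 r1
  have h1 := key k
  rwa [max_eq_right hk.le] at h1

omit [IsProbabilityMeasure P] in
/-- the order of contact in terms of the moments -/
lemma flat_iff {z : ℝ} (hz : 0 < z) : Flat P ω β U φ z ↔
    ∀ᶠ t : ℝ in 𝓝[>] 0, ∀ h ∈ U, gap P ω β h (φ h) t ≤ t ^ (1 / z) := by
  constructor
  · intro H
    have h1 : Tendsto (fun t : ℝ => t ^ (-(1 / z))) (𝓝[>] 0) atTop :=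
      tendsto_rpow_neg_nhdsGT_zero (by
        have : 0 < 1 / z := by positivity
        linarith)
    filter_upwards [h1.eventually H, self_mem_nhdsWithin] with t h2 h3
    have t0 : (0 : ℝ) < t := h3
    have e1 : (t ^ (-(1 / z))) ^ (-z) = t := by
      rw [← Real.rpow_mul t0.le]
      have : -(1 / z) * -z = 1 := by field_simp
      rw [this, Real.rpow_one]
    rw [e1, ← Real.rpow_neg t0.le, neg_neg] at h2
    exact h2
  · intro H
    have h1 : Tendsto (fun x : ℝ => x ^ (-z)) atTop (𝓝[>] 0) := by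
      refine tendsto_nhdsWithin_iff.2 ⟨tendsto_rpow_neg_atTop hz, ?_⟩
      filter_upwards [eventually_gt_atTop 0] with x hx
      exact Real.rpow_pos_of_pos hx _
    unfold Flat
    filter_upwards [h1.eventually H, eventually_gt_atTop 0] with x h2 x0
    intro h hh
    refine (h2 h hh).trans (le_of_eq ?_)
    rw [← Real.rpow_mul x0.le, ← Real.rpow_neg_one x]
    congr 1; field_simp

/-- the optimal upper tail -/
theorem tail_of_flat (R : ∀ h ∈ U, Reg P ω β h (φ h)) {z : ℝ} (hz0 : 0 < z) (hz1 : z < 1)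
    (H : Flat P ω β U φ z) : ∃ A : ℝ, 0 < A ∧ ∀ h ∈ U, ∀ n : ℕ, 1 ≤ n → ∀ y : ℝ, 0 ≤ y →
      P {x | y ≤ lw ω β h 0 0 n x - n * φ h} ≤
        ENNReal.ofReal (A * Real.exp (-(min y ((y / (n : ℝ) ^ z) ^ (1 / (1 - z))) / A))) := by
  rw [flat_iff hz0] at H
  obtain ⟨l1, hl1, H⟩ := mem_nhdsGT_iff_exists_Ioo_subset.1 H
  have hl1' : (0 : ℝ) < l1 := hl1
  set l0 : ℝ := min (l1 / 2) (1 / 4) with hl0
  have l00 : 0 < l0 := lt_min (by linarith) (by norm_num)
  have hgapU : ∀ h ∈ U, ∀ l : ℝ, 0 < l → l ≤ l0 → gap P ω β h (φ h) l ≤ l ^ (1 / z) :=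
    fun h hh l h1 h2 => H ⟨h1, by have := h2.trans (min_le_left _ _); linarith⟩ h hh
  set A : ℝ := max 1 (max (2 / l0) (2 ^ (1 / (1 - z)))) with hA
  have A1 : 1 ≤ A := le_max_left _ _
  have A0 : 0 < A := by linarith
  have A2 : 2 / l0 ≤ A := (le_max_left _ _).trans (le_max_right _ _)
  have A3 : (2 : ℝ) ^ (1 / (1 - z)) ≤ A := (le_max_right _ _).trans (le_max_right _ _)
  have h1z : 0 < 1 - z := by linarith
  refine ⟨A, A0, fun h hh n hn y hy => ?_⟩
  have hgap := hgapU h hh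
  have R := R h hh
  have n0 : (0 : ℝ) < n := by exact_mod_cast hn
  rcases hy.eq_or_lt with rfl | y0
  · rw [zero_div, Real.zero_rpow (by positivity), min_self, zero_div, neg_zero, Real.exp_zero,
      mul_one]
    exact prob_le_one.trans (ENNReal.one_le_ofReal.2 A1)
  set v : ℝ := (y / (2 * n)) ^ (z / (1 - z)) with hv
  have hyn : 0 < y / (2 * n) := by positivity
  have v0 : 0 < v := Real.rpow_pos_of_pos hyn _
  set l : ℝ := min l0 v with hl
  have lp : 0 < l := lt_min l00 v0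
  have l4 : l ≤ 1 / 4 := (min_le_left _ _).trans (min_le_right _ _)
  have g1 := hgap l lp (min_le_left _ _)
  have g2 : l ^ (1 / z) ≤ l * (y / (2 * n)) := by
    have e1 : l ^ (1 / z) = l * l ^ ((1 - z) / z) := by
      nth_rewrite 2 [← Real.rpow_one l]
      rw [← Real.rpow_add lp]
      congr 1; field_simp; ring
    rw [e1]
    refine mul_le_mul_of_nonneg_left ?_ lp.le
    calc l ^ ((1 - z) / z) ≤ v ^ ((1 - z) / z) :=
          Real.rpow_le_rpow lp.le (min_le_right _ _) (by positivity)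
      _ = y / (2 * n) := by
          rw [hv, ← Real.rpow_mul hyn.le]
          have : z / (1 - z) * ((1 - z) / z) = 1 := by field_simp
          rw [this, Real.rpow_one]
  have g3 : -(l * y) + n * (lam P ω β h l - l * φ h) ≤ -(l * y / 2) := by
    have g4 : (n : ℝ) * (lam P ω β h l - l * φ h) ≤ n * (l * (y / (2 * n))) :=
      mul_le_mul_of_nonneg_left (g1.trans g2) n0.le
    have g5 : (n : ℝ) * (l * (y / (2 * n))) = l * y / 2 := by field_simp
    linarith
  have g6 : min y ((y / (n : ℝ) ^ z) ^ (1 / (1 - z))) / A ≤ l * y / 2 := by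
    rw [div_le_iff₀ A0]
    rcases le_total l0 v with h1 | h1
    · rw [hl, min_eq_left h1]
      refine (min_le_left _ _).trans ?_
      have h2 : 1 ≤ l0 / 2 * A := by
        have := mul_le_mul_of_nonneg_left A2 (show 0 ≤ l0 / 2 by positivity)
        have e1 : l0 / 2 * (2 / l0) = 1 := by field_simp
        linarith
      calc y = y * 1 := (mul_one y).symm
        _ ≤ y * (l0 / 2 * A) := by gcongr
        _ = _ := by ring
    · rw [hl, min_eq_right h1]
      refine (min_le_right _ _).trans ?_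
      have e1 : (y / (n : ℝ) ^ z) ^ (1 / (1 - z)) = y * (y / n) ^ (z / (1 - z)) := by
        rw [Real.div_rpow hy (Real.rpow_nonneg n0.le _), ← Real.rpow_mul n0.le,
          Real.div_rpow hy n0.le]
        have e2 : z * (1 / (1 - z)) = z / (1 - z) := by ring
        have e3 : y ^ (1 / (1 - z)) = y * y ^ (z / (1 - z)) := by
          nth_rewrite 2 [← Real.rpow_one y]
          rw [← Real.rpow_add y0]
          congr 1; field_simp; ring
        rw [e2, e3]; ring
      have e4 : (y / n) ^ (z / (1 - z)) = 2 ^ (z / (1 - z)) * v := by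
        rw [hv, ← Real.mul_rpow (by norm_num) hyn.le]
        congr 1; field_simp
      have e5 : (2 : ℝ) ^ (z / (1 - z)) * 2 = 2 ^ (1 / (1 - z)) := by
        nth_rewrite 2 [← Real.rpow_one 2]
        rw [← Real.rpow_add (by norm_num)]
        congr 1; field_simp; ring
      rw [e1, e4]
      calc y * (2 ^ (z / (1 - z)) * v) = (y * v / 2) * (2 ^ (z / (1 - z)) * 2) := by ring
        _ = (y * v / 2) * 2 ^ (1 / (1 - z)) := by rw [e5]
        _ ≤ (y * v / 2) * A := by gcongr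
        _ = _ := by ring
  calc P {x | y ≤ lw ω β h 0 0 n x - n * φ h} ≤ EX (-(l * y) + n * (lam P ω β h l - l * φ h)) :=
        tail R lp l4 n y
    _ ≤ EX (-(min y ((y / (n : ℝ) ^ z) ^ (1 / (1 - z))) / A)) := EX_mono (by linarith)
    _ ≤ _ := by
        unfold EX
        refine ENNReal.ofReal_le_ofReal ?_
        exact le_mul_of_one_le_left (Real.exp_pos _).le A1

end

end Pool.Agent.Run7.h981.ME
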