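import Pool.Agent.Run7.h981.ME.Boot
import Pool.Agent.Run7.h208.WT.Main

/-!
# Directed polymers: consequences of the order of contact
-/

set_option autoImplicit false

open MeasureTheory ProbabilityTheory Filter Topology
open scoped ENNReal

namespace Pool.Agent.Run7.h981.ME

open TH967.DP
open Pool.Agent.N662.SE
open Pool.Agent.Run7.h208.WT

variable {d : ℕ}

section
variable {Ω : Type} [mΩ : MeasurableSpace Ω] {P : Measure Ω} [IsProbabilityMeasure P]
  {ω : ℕ → (Fin d → ℤ) → Ω → ℝ} {β : ℝ} {U : Set (Fin d → ℝ)} {φ : (Fin d → ℝ) → ℝ}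

lemma EX_max_le (t : ℝ) : EX (max t 0) ≤ EX t + 1 := by
  rcases le_total t 0 with h1 | h1
  · rw [max_eq_right h1, EX_zero]; exact le_add_self
  · rw [max_eq_left h1]; exact le_self_add

/-- exponential moments of the positive part -/
theorem expm_of_flat (R : ∀ h ∈ U, Reg P ω β h (φ h)) {z : ℝ} (hz : 0 < z) (H : Flat P ω β U φ z) :
    ∃ C : ℝ, ∀ h ∈ U, ∀ n : ℕ, 1 ≤ n →
      ∫⁻ x, EX (1 / 4 * (n : ℝ) ^ (-z) * max (lw ω β h 0 0 n x - n * φ h) 0) ∂P ≤
        ENNReal.ofReal C := by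
  obtain ⟨x0, H⟩ := eventually_atTop.1 H
  obtain ⟨n0, hn0⟩ := exists_nat_ge x0
  set c : ℝ := max 1 (n0 * (16 * mom P ω β)) with hc
  refine ⟨Real.exp c + 1, fun h hh n hn => ?_⟩
  have R := R h hh
  have H := fun X hX => H X hX h hh
  have np : (0 : ℝ) < n := by exact_mod_cast hn
  have n1 : (1 : ℝ) ≤ n := by exact_mod_cast hn
  set l : ℝ := 1 / 4 * (n : ℝ) ^ (-z) with hl
  have hnz : (n : ℝ) ^ (-z) ≤ 1 := rpow_le_one' n1 (by linarith)
  have l0 : 0 < l := by positivity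
  have l4 : l ≤ 1 / 4 := by rw [hl]; linarith
  have hmul : ∀ x, l * max (lw ω β h 0 0 n x - n * φ h) 0 =
      max (l * (lw ω β h 0 0 n x - n * φ h)) 0 := by
    intro x
    rw [mul_max_of_nonneg _ _ l0.le, mul_zero]
  have hgap : n * (lam P ω β h l - l * φ h) ≤ c := by
    by_cases hle : n0 ≤ n
    · set X : ℝ := (4 : ℝ) ^ (1 / z) * n with hX
      have h4 : (1 : ℝ) ≤ 4 ^ (1 / z) := Real.one_le_rpow (by norm_num) (by positivity)
      have hXn : (n : ℝ) ≤ X := le_mul_of_one_le_left np.le h4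
      have e1 : X ^ (-z) = l := by
        rw [hX, Real.mul_rpow (by positivity) np.le, ← Real.rpow_mul (by norm_num), hl]
        congr 1
        have : 1 / z * -z = -1 := by field_simp
        rw [this, Real.rpow_neg_one]; norm_num
      have h5 := H X (hn0.trans ((Nat.cast_le.2 hle).trans hXn))
      rw [e1] at h5
      have h6 : X⁻¹ ≤ (n : ℝ)⁻¹ := inv_anti₀ np hXn
      calc n * (lam P ω β h l - l * φ h) ≤ n * (n : ℝ)⁻¹ := by
            refine mul_le_mul_of_nonneg_left ?_ np.le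
            exact h5.trans h6
        _ = 1 := mul_inv_cancel₀ np.ne'
        _ ≤ c := le_max_left _ _
    · push Not at hle
      have h5 := lam_le R l0 l4
      have hm := mom_nonneg (P := P) (ω := ω) β
      have h6 : l ^ 2 ≤ 1 := by nlinarith
      have h7 : 16 * mom P ω β * l ^ 2 ≤ 16 * mom P ω β * 1 :=
        mul_le_mul_of_nonneg_left h6 (by positivity)
      have h8 : (n : ℝ) ≤ n0 := by exact_mod_cast hle.le
      calc n * (lam P ω β h l - l * φ h) ≤ n * (16 * mom P ω β) := by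
            refine mul_le_mul_of_nonneg_left ?_ np.le
            linarith
        _ ≤ n0 * (16 * mom P ω β) := by gcongr
        _ ≤ c := le_max_right _ _
  have hm : Measurable fun x => EX (l * (lw ω β h 0 0 n x - n * φ h)) :=
    measurable_EX.comp (((R.meas n).sub_const _).const_mul l)
  calc ∫⁻ x, EX (l * max (lw ω β h 0 0 n x - n * φ h) 0) ∂P
      ≤ ∫⁻ x, (EX (l * (lw ω β h 0 0 n x - n * φ h)) + 1) ∂P := by
        refine lintegral_mono fun x => ?_
        rw [hmul]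
        exact EX_max_le _
    _ = ∫⁻ x, EX (l * (lw ω β h 0 0 n x - n * φ h)) ∂P + 1 := by
        rw [lintegral_add_left hm, lintegral_const, measure_univ, mul_one]
    _ ≤ EX c + 1 := by
        gcongr
        exact (mom_le R l0 l4 n).trans (EX_mono hgap)
    _ = _ := by
        unfold EX
        rw [ENNReal.ofReal_add (Real.exp_pos _).le zero_le_one, ENNReal.ofReal_one]

/-- exponential moments imply moments -/
lemma mom_of_exp {Y : Ω → ℝ} (hY : Measurable Y) (hY0 : ∀ x, 0 ≤ Y x) {α s p : ℝ} (hα : 0 < α)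
    (hs : 0 < s) (hp : 0 < p) {K C : ℝ} (hK0 : 0 ≤ K)
    (hK : ∀ y : ℝ, 0 ≤ y → y ^ p ≤ K * Real.exp y)
    (H : ∫⁻ x, EX (α * s⁻¹ * Y x) ∂P ≤ ENNReal.ofReal C) :
    ∫⁻ x, ENNReal.ofReal (Y x ^ p) ∂P ≤ ENNReal.ofReal ((α⁻¹ * s) ^ p * K * C) := by
  have h1 : ∀ x, ENNReal.ofReal (Y x ^ p) ≤
      ENNReal.ofReal ((α⁻¹ * s) ^ p * K) * EX (α * s⁻¹ * Y x) := by
    intro x
    unfold EX
    rw [← ENNReal.ofReal_mul (by positivity)]
    refine ENNReal.ofReal_le_ofReal ?_
    have e1 : Y x = (α⁻¹ * s) * (α * s⁻¹ * Y x) := by field_simp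
    have h0 : 0 ≤ α * s⁻¹ * Y x := mul_nonneg (by positivity) (hY0 x)
    calc Y x ^ p = ((α⁻¹ * s) * (α * s⁻¹ * Y x)) ^ p := by rw [← e1]
      _ = (α⁻¹ * s) ^ p * (α * s⁻¹ * Y x) ^ p := Real.mul_rpow (by positivity) h0
      _ ≤ (α⁻¹ * s) ^ p * (K * Real.exp (α * s⁻¹ * Y x)) := by
          gcongr
          exact hK _ h0
      _ = _ := by ring
  calc ∫⁻ x, ENNReal.ofReal (Y x ^ p) ∂P
      ≤ ∫⁻ x, ENNReal.ofReal ((α⁻¹ * s) ^ p * K) * EX (α * s⁻¹ * Y x) ∂P := lintegral_mono h1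
    _ = ENNReal.ofReal ((α⁻¹ * s) ^ p * K) * ∫⁻ x, EX (α * s⁻¹ * Y x) ∂P :=
        lintegral_const_mul _ (measurable_EX.comp (hY.const_mul _))
    _ ≤ ENNReal.ofReal ((α⁻¹ * s) ^ p * K) * ENNReal.ofReal C := by gcongr
    _ = _ := by rw [← ENNReal.ofReal_mul (by positivity)]

/-- Markov for a power -/
lemma markov_pow {Y : Ω → ℝ} (hY : Measurable Y) {s p C : ℝ} (hs : 0 < s)
    (hp : 0 < p) (H : ∫⁻ x, ENNReal.ofReal (max (Y x) 0 ^ p) ∂P ≤ ENNReal.ofReal C) :
    P {x | s ≤ Y x} ≤ ENNReal.ofReal (C / s ^ p) := by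
  have hm : Measurable fun x => ENNReal.ofReal (max (Y x) 0 ^ p) :=
    ((hY.max measurable_const).pow_const p).ennreal_ofReal
  have hpos : (0 : ℝ) < s ^ p := Real.rpow_pos_of_pos hs _
  have hsub : {x | s ≤ Y x} ⊆ {x | ENNReal.ofReal (s ^ p) ≤ ENNReal.ofReal (max (Y x) 0 ^ p)} := by
    intro x hx
    have hx' : s ≤ Y x := hx
    exact ENNReal.ofReal_le_ofReal
      (Real.rpow_le_rpow hs.le (hx'.trans (le_max_left _ _)) hp.le)
  refine (measure_mono hsub).trans ?_
  refine (meas_ge_le_lintegral_div hm.aemeasurable (ENNReal.ofReal_pos.2 hpos).ne'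
    ENNReal.ofReal_ne_top).trans ?_
  rw [ENNReal.ofReal_div_of_pos hpos]
  gcongr

/-- polynomial lower bound for the probability of no large negative deviation -/
theorem lower_prob (hd : 1 ≤ d) (R : ∀ h ∈ U, Reg P ω β h (φ h)) {z ζ q : ℝ} (hz : 0 < z) (hζ : z < ζ)
    (hq : (d : ℝ) < q) (H : Flat P ω β U φ z) : ∀ᶠ n : ℕ in atTop, ∀ h ∈ U,
      (n : ℝ) ^ (-q) ≤ P.real {x | -(n : ℝ) ^ ζ ≤ lw ω β h 0 0 n x - n * φ h} := by
  obtain ⟨C, hC⟩ := expm_of_flat R hz H
  set C' : ℝ := max C 1 with hC'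
  have C1 : 1 ≤ C' := le_max_right _ _
  have C0 : 0 < C' := by linarith
  have d0 : (0 : ℝ) < d := by exact_mod_cast hd
  set r : ℝ := (q - d) / (2 * d) with hr
  have r0 : 0 < r := div_pos (by linarith) (by linarith)
  set p : ℝ := 1 + 1 / r with hp
  have hpr : (p - 1) * r = 1 := by rw [hp]; field_simp; ring
  have p1 : 1 < p := by rw [hp]; have : 0 < 1 / r := by positivity
                        linarith
  have p0 : 0 < p := by linarith
  have hqr : d * (1 + r) < q := by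
    have : (d : ℝ) * r = (q - d) / 2 := by rw [hr]; field_simp
    linarith
  have hn1 : ∀ᶠ n : ℕ in atTop, Real.exp (-(1 / (4 * p) * (n : ℝ) ^ (ζ - z))) ≤
      ((3 * (n : ℝ)) ^ d)⁻¹ / 4 := by
    obtain ⟨K, K0, hK⟩ := exp_small (α := 1 / (4 * p)) (c := ζ - z) (q := (d : ℝ) + 1)
      (by positivity) (by linarith)
    have h1 : Tendsto (fun n : ℕ => 4 * K * 3 ^ d * (n : ℝ) ^ (-(1 : ℝ))) atTop
        (𝓝 (4 * K * 3 ^ d * 0)) :=
      ((tendsto_rpow_neg_atTop one_pos).comp tendsto_natCast_atTop_atTop).const_mul _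
    rw [mul_zero] at h1
    filter_upwards [h1.eventually (ge_mem_nhds one_pos), eventually_ge_atTop 1] with n h2 hn
    have np : (0 : ℝ) < n := by exact_mod_cast hn
    have h3 := hK n hn
    have e1 : (n : ℝ) ^ (-((d : ℝ) + 1)) = (n : ℝ) ^ (-(1 : ℝ)) * ((n : ℝ) ^ d)⁻¹ := by
      rw [← Real.rpow_natCast, ← Real.rpow_neg np.le, ← Real.rpow_add np]
      congr 1; ring
    rw [e1] at h3
    refine h3.trans ?_
    rw [mul_pow, mul_inv, div_eq_mul_inv]
    have h5 : 0 < ((n : ℝ) ^ d)⁻¹ := by positivity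
    have h6 : K * (n : ℝ) ^ (-(1 : ℝ)) ≤ (3 ^ d)⁻¹ * 4⁻¹ := by
      rw [← mul_inv, ← one_div, le_div_iff₀ (by positivity)]
      calc K * (n : ℝ) ^ (-(1 : ℝ)) * (3 ^ d * 4) = 4 * K * 3 ^ d * (n : ℝ) ^ (-(1 : ℝ)) := by ring
        _ ≤ 1 := h2
    calc K * ((n : ℝ) ^ (-(1 : ℝ)) * ((n : ℝ) ^ d)⁻¹) =
          (K * (n : ℝ) ^ (-(1 : ℝ))) * ((n : ℝ) ^ d)⁻¹ := by ring
      _ ≤ ((3 ^ d)⁻¹ * 4⁻¹) * ((n : ℝ) ^ d)⁻¹ := by gcongr
      _ = _ := by ring
  set c : ℝ := (4 * C') ^ (-r) * 2⁻¹ * 3 ^ (-(d * (1 + r))) with hc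
  have c0 : 0 < c := by positivity
  have hn3 : ∀ᶠ n : ℕ in atTop, (n : ℝ) ^ (-q) ≤ c * (n : ℝ) ^ (-(d * (1 + r))) := by
    have h1 : Tendsto (fun n : ℕ => (n : ℝ) ^ (-(q - d * (1 + r)))) atTop (𝓝 0) :=
      (tendsto_rpow_neg_atTop (by linarith)).comp tendsto_natCast_atTop_atTop
    filter_upwards [h1.eventually (ge_mem_nhds c0), eventually_ge_atTop 1] with n h2 hn
    have np : (0 : ℝ) < n := by exact_mod_cast hn
    calc (n : ℝ) ^ (-q) = (n : ℝ) ^ (-(q - d * (1 + r))) * (n : ℝ) ^ (-(d * (1 + r))) := by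
          rw [← Real.rpow_add np]; congr 1; ring
      _ ≤ _ := by gcongr
  filter_upwards [hn1, hn3, eventually_ge_atTop 1] with n hn2 hn4 hn
  intro h hh
  have R := R h hh
  have hC := hC h hh
  have np : (0 : ℝ) < n := by exact_mod_cast hn
  have n1 : (1 : ℝ) ≤ n := by exact_mod_cast hn
  set Y : Ω → ℝ := fun x => lw ω β h 0 0 n x - n * φ h with hY
  have hYm : Measurable Y := (R.meas n).sub_const _
  set l : ℝ := 1 / (4 * p) * (n : ℝ) ^ (-z) with hl
  have hnz : (n : ℝ) ^ (-z) ≤ 1 := rpow_le_one' n1 (by linarith)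
  have l0 : 0 < l := by positivity
  have hpl : p * l = 1 / 4 * (n : ℝ) ^ (-z) := by rw [hl]; field_simp
  have l4 : l ≤ 1 / 4 := by
    have : l ≤ p * l := le_mul_of_one_le_left l0.le p1.le
    rw [hpl] at this
    linarith
  set g : ℝ := ((3 * (n : ℝ)) ^ d)⁻¹ with hg
  have g0 : 0 < g := by positivity
  have hE1 : ENNReal.ofReal g ≤ ∫⁻ x, EX (l * Y x) ∂P := by
    refine le_trans ?_ (mom_ge R l0 l4 n)
    unfold EX
    refine ENNReal.ofReal_le_ofReal ?_
    rw [Real.exp_neg, Real.exp_nat_mul, Real.exp_log (by positivity), hg]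
    gcongr
    linarith
  have hE2 : ∫⁻ x, EX (p * l * Y x) ∂P ≤ ENNReal.ofReal C' := by
    refine le_trans (lintegral_mono fun x => EX_mono ?_) ((hC n hn).trans
      (ENNReal.ofReal_le_ofReal (le_max_left _ _)))
    rw [hpl]
    exact mul_le_mul_of_nonneg_left (le_max_left _ _) (by positivity)
  have hC0 : 0 < 4 * C' / g := by positivity
  set s : ℝ := r * Real.log (4 * C' / g) / l with hs
  have hls : l * s = r * Real.log (4 * C' / g) := by rw [hs]; field_simp
  have hls2 : (p - 1) * (l * s) = Real.log (4 * C' / g) := by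
    rw [hls, ← mul_assoc, hpr, one_mul]
  set A : Set Ω := {x | -(n : ℝ) ^ ζ ≤ Y x} with hA
  have hAm : MeasurableSet A := measurableSet_le measurable_const hYm
  have hpt : ∀ x, EX (l * Y x) ≤ EX (-(l * (n : ℝ) ^ ζ)) +
      (A.indicator (fun _ => EX (l * s)) x + EX (-((p - 1) * (l * s))) * EX (p * l * Y x)) := by
    intro x
    by_cases hx : x ∈ A
    · refine le_trans ?_ le_add_self
      rw [Set.indicator_of_mem hx]
      rcases le_total (Y x) s with h1 | h1
      · exact (EX_mono (mul_le_mul_of_nonneg_left h1 l0.le)).trans le_self_add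
      · refine le_trans ?_ le_add_self
        rw [← EX_add]
        refine EX_mono ?_
        have h2 : 0 ≤ (p - 1) * l * (Y x - s) :=
          mul_nonneg (mul_nonneg (by linarith) l0.le) (by linarith)
        linarith
    · refine le_trans (EX_mono ?_) le_self_add
      have h1 : Y x < -(n : ℝ) ^ ζ := not_le.1 hx
      have := mul_le_mul_of_nonneg_left h1.le l0.le
      linarith
  have hint : ∫⁻ x, EX (l * Y x) ∂P ≤ EX (-(l * (n : ℝ) ^ ζ)) +
      (EX (l * s) * P A + EX (-((p - 1) * (l * s))) * ∫⁻ x, EX (p * l * Y x) ∂P) := by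
    refine (lintegral_mono hpt).trans (le_of_eq ?_)
    have hm2 : Measurable fun x => EX (p * l * Y x) := measurable_EX.comp (hYm.const_mul _)
    rw [lintegral_add_left measurable_const, lintegral_const, measure_univ, mul_one,
      lintegral_add_left (measurable_const.indicator hAm), lintegral_indicator_const hAm,
      lintegral_const_mul _ hm2]
  have e1 : EX (l * s) = ENNReal.ofReal ((4 * C' / g) ^ r) := by
    unfold EX
    rw [hls, Real.rpow_def_of_pos hC0, mul_comm]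
  have e2 : EX (-((p - 1) * (l * s))) = ENNReal.ofReal (g / (4 * C')) := by
    unfold EX
    rw [hls2, Real.exp_neg, Real.exp_log hC0, inv_div]
  have e3 : EX (-(l * (n : ℝ) ^ ζ)) ≤ ENNReal.ofReal (g / 4) := by
    unfold EX
    refine ENNReal.ofReal_le_ofReal (le_trans (le_of_eq ?_) hn2)
    rw [hl, mul_assoc, ← Real.rpow_add np]
    congr 4; ring
  have h3 : ENNReal.ofReal g ≤ ENNReal.ofReal (g / 4) + (ENNReal.ofReal ((4 * C' / g) ^ r) * P A +
      ENNReal.ofReal (g / (4 * C')) * ENNReal.ofReal C') := by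
    refine hE1.trans (hint.trans ?_)
    rw [e1, e2]
    gcongr
  rw [← ENNReal.ofReal_mul (by positivity), ← ofReal_measureReal (μ := P) (s := A),
    ← ENNReal.ofReal_mul (by positivity), ← ENNReal.ofReal_add (by positivity) (by positivity),
    ← ENNReal.ofReal_add (by positivity) (by positivity),
    ENNReal.ofReal_le_ofReal_iff (by positivity)] at h3
  have e4 : g / (4 * C') * C' = g / 4 := by field_simp
  rw [e4] at h3
  have h4 : g * 2⁻¹ ≤ (4 * C' / g) ^ r * P.real A := by linarith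
  have e6 : (4 * C' / g) ^ r = (4 * C') ^ r * g ^ (-r) := by
    rw [Real.div_rpow (by positivity) g0.le, Real.rpow_neg g0.le, div_eq_mul_inv]
  have h5 : (4 * C') ^ (-r) * 2⁻¹ * g ^ (1 + r) ≤ P.real A := by
    have h6 : 0 < (4 * C') ^ (-r) * g ^ r := by positivity
    have h7 := mul_le_mul_of_nonneg_left h4 h6.le
    have e7 : (4 * C') ^ (-r) * g ^ r * ((4 * C' / g) ^ r * P.real A) = P.real A := by
      rw [e6]
      have a1 : (4 * C') ^ (-r) * (4 * C') ^ r = 1 := by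
        rw [← Real.rpow_add (by positivity)]; simp
      have a2 : g ^ r * g ^ (-r) = 1 := by rw [← Real.rpow_add g0]; simp
      calc (4 * C') ^ (-r) * g ^ r * ((4 * C') ^ r * g ^ (-r) * P.real A)
          = ((4 * C') ^ (-r) * (4 * C') ^ r) * (g ^ r * g ^ (-r)) * P.real A := by ring
        _ = _ := by rw [a1, a2]; ring
    rw [e7] at h7
    refine le_trans (le_of_eq ?_) h7
    rw [Real.rpow_add g0, Real.rpow_one]
    ring
  refine hn4.trans (le_trans (le_of_eq ?_) h5)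
  have e5 : g ^ (1 + r) = 3 ^ (-(d * (1 + r))) * (n : ℝ) ^ (-(d * (1 + r))) := by
    rw [← Real.mul_rpow (by norm_num) np.le, hg, ← Real.rpow_natCast, ← Real.rpow_neg (by positivity),
      ← Real.rpow_mul (by positivity)]
    congr 1; ring
  rw [e5, hc]
  ring

end

end Pool.Agent.Run7.h981.ME
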