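import Mathlib

/-!
# Bounds for the tails and the moments of sequences of random variables on the scale `n^ζ`

Here `X h` is a sequence of random variables for every index `h`, and the bounds are uniform for
the indices `h` of a set `U`.
-/

set_option autoImplicit false

open MeasureTheory ProbabilityTheory Filter Topology

namespace Pool.Agent.Run7.h981.ME

variable {Ω : Type} [MeasurableSpace Ω] {ι : Type}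

/-- Polynomial upper tail on the scale `n^ζ`: for some `q > q₀` and some `C` one has
`P (X_n ≥ n^ζ) ≤ C n^(-q)` for all `n ≥ 1`, `h ∈ U`. -/
def PolyUp (P : Measure Ω) (q₀ : ℝ) (U : Set ι) (X : ι → ℕ → Ω → ℝ) (ζ : ℝ) : Prop :=
  ∃ q C : ℝ, q₀ < q ∧ ∀ h ∈ U, ∀ n : ℕ, 1 ≤ n →
    P {x | (n : ℝ) ^ ζ ≤ X h n x} ≤ ENNReal.ofReal (C * (n : ℝ) ^ (-q))

/-- Stretched exponential upper tail with the exponent which belongs to the scale `n^ζ`: for some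
`A > 0`, `P (X_n ≥ y) ≤ A exp (-min (y, (y / n^ζ)^(1/(1-ζ))) / A)` for all `n ≥ 1`, `y ≥ 0`,
`h ∈ U`. -/
def OptUp (P : Measure Ω) (U : Set ι) (X : ι → ℕ → Ω → ℝ) (ζ : ℝ) : Prop :=
  ∃ A : ℝ, 0 < A ∧ ∀ h ∈ U, ∀ n : ℕ, 1 ≤ n → ∀ y : ℝ, 0 ≤ y → P {x | y ≤ X h n x} ≤
    ENNReal.ofReal (A * Real.exp (-(min y ((y / (n : ℝ) ^ ζ) ^ (1 / (1 - ζ))) / A)))

/-- Large deviations: for every small `δ > 0`, `P (X_n ≥ n δ) ≤ exp (-n δ^(1/(1-ζ)))` for all large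
`n` and all `h ∈ U`. -/
def LDUp (P : Measure Ω) (U : Set ι) (X : ι → ℕ → Ω → ℝ) (ζ : ℝ) : Prop :=
  ∀ᶠ δ : ℝ in 𝓝[>] 0, ∀ᶠ n : ℕ in atTop, ∀ h ∈ U,
    P {x | n * δ ≤ X h n x} ≤ ENNReal.ofReal (Real.exp (-(n * δ ^ (1 / (1 - ζ)))))

/-- `E |X_n|^p ≤ C n^(p ζ)` for all `n ≥ 1`, `h ∈ U`. -/
def MomBd (P : Measure Ω) (U : Set ι) (X : ι → ℕ → Ω → ℝ) (p ζ : ℝ) : Prop :=
  ∃ C : ℝ, ∀ h ∈ U, ∀ n : ℕ, 1 ≤ n →
    ∫⁻ x, ENNReal.ofReal (|X h n x| ^ p) ∂P ≤ ENNReal.ofReal (C * (n : ℝ) ^ (p * ζ))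

/-- An exponential moment on the scale `n^ζ`: for some `α > 0` and some `C`,
`E exp (α n^(-ζ) |X_n|) ≤ C` for all `n ≥ 1`, `h ∈ U`. -/
def ExpBd (P : Measure Ω) (U : Set ι) (X : ι → ℕ → Ω → ℝ) (ζ : ℝ) : Prop :=
  ∃ α C : ℝ, 0 < α ∧ ∀ h ∈ U, ∀ n : ℕ, 1 ≤ n →
    ∫⁻ x, ENNReal.ofReal (Real.exp (α * (n : ℝ) ^ (-ζ) * |X h n x|)) ∂P ≤ ENNReal.ofReal C

/-- The logarithmic growth rate `Λ h` of the moments has contact of order `1/ζ` at `0` with the line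
of slope `φ h`: `Λ h t ≤ t φ(h) + t^(1/ζ)` for all small `t > 0`, uniformly for `h ∈ U`. -/
def Contact (U : Set ι) (Λ : ι → ℝ → ℝ) (φ : ι → ℝ) (ζ : ℝ) : Prop :=
  ∀ᶠ t : ℝ in 𝓝[>] 0, ∀ h ∈ U, Λ h t ≤ t * φ h + t ^ (1 / ζ)

/-- The mean converges with the rate `n^ζ`: `n φ(h) - E X_n ≤ n^ζ` for all large `n` and all
`h ∈ U`. -/
def MeanRate (P : Measure Ω) (U : Set ι) (X : ι → ℕ → Ω → ℝ) (φ : ι → ℝ) (ζ : ℝ) : Prop :=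
  ∀ᶠ n : ℕ in atTop, ∀ h ∈ U, n * φ h - ∫ x, X h n x ∂P ≤ (n : ℝ) ^ ζ

/-- The maximum over the starting points `z` within distance `n^A` of the origin: the probability
that `X_n(z) ≥ n^ζ` for some `z` with `|z_k| ≤ n^A` tends to `0`, uniformly for `h ∈ U`. -/
def MaxUp {d : ℕ} (P : Measure Ω) (U : Set ι) (A : ℝ) (X : ι → (Fin d → ℤ) → ℕ → Ω → ℝ) (ζ : ℝ) :
    Prop :=
  ∀ ε : ℝ, 0 < ε → ∃ N : ℕ, ∀ n : ℕ, N ≤ n → ∀ h ∈ U,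
    P {x | ∃ z : Fin d → ℤ, (∀ k, |(z k : ℝ)| ≤ (n : ℝ) ^ A) ∧ (n : ℝ) ^ ζ ≤ X h z n x} ≤
      ENNReal.ofReal ε

/-- The exponent at `h` of a property `Q U ζ` of sets `U` and numbers `ζ`: the infimum of the
`ζ > 0` such that `Q U ζ` holds for some neighbourhood `U` of `h`. -/
noncomputable def locExp {d : ℕ} (h : Fin d → ℝ) (Q : Set (Fin d → ℝ) → ℝ → Prop) : ℝ :=
  sInf {ζ : ℝ | 0 < ζ ∧ ∃ U : Set (Fin d → ℝ), IsOpen U ∧ h ∈ U ∧ Q U ζ}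

end Pool.Agent.Run7.h981.ME
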