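import Pool.Agent.Run7.h981.ME.Fin

/-!
# Directed polymers: the exponents
-/

set_option autoImplicit false

open MeasureTheory ProbabilityTheory Filter Topology
open scoped ENNReal

namespace Pool.Agent.Run7.h981.ME

open TH967.DP
open Pool.Agent.N662.SE
open Pool.Agent.Run7.h208.WT

variable {d : ℕ}

section gen
variable {Ω : Type} [mΩ : MeasurableSpace Ω] {P : Measure Ω} {ι : Type} {U U' : Set ι}
  {X : ι → ℕ → Ω → ℝ}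

lemma ExpBd.mono {ζ ζ' : ℝ} (h : ζ ≤ ζ') (H : ExpBd P U X ζ) : ExpBd P U X ζ' := by
  obtain ⟨α, C, hα, H⟩ := H
  refine ⟨α, C, hα, fun i hi n hn => le_trans (lintegral_mono fun x => ?_) (H i hi n hn)⟩
  refine ENNReal.ofReal_le_ofReal (Real.exp_le_exp.2 ?_)
  have n1 : (1 : ℝ) ≤ n := by exact_mod_cast hn
  have h1 : (n : ℝ) ^ (-ζ') ≤ (n : ℝ) ^ (-ζ) :=
    Real.rpow_le_rpow_of_exponent_le n1 (by linarith)
  gcongr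

lemma PolyUp.mono {q₀ ζ ζ' : ℝ} (h : ζ ≤ ζ') (H : PolyUp P q₀ U X ζ) : PolyUp P q₀ U X ζ' := by
  obtain ⟨q, C, hq, H⟩ := H
  refine ⟨q, C, hq, fun i hi n hn => le_trans (measure_mono fun x hx => ?_) (H i hi n hn)⟩
  have n1 : (1 : ℝ) ≤ n := by exact_mod_cast hn
  exact (Real.rpow_le_rpow_of_exponent_le n1 h).trans hx

lemma Contact.mono {Λ : ι → ℝ → ℝ} {φ : ι → ℝ} {ζ ζ' : ℝ} (h0 : 0 < ζ) (h : ζ ≤ ζ')
    (hU : U' ⊆ U) (H : Contact U Λ φ ζ) : Contact U' Λ φ ζ' := by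
  unfold Contact at *
  filter_upwards [H, Ioo_mem_nhdsGT one_pos] with t h1 h2 i hi
  have h3 : t ^ (1 / ζ) ≤ t ^ (1 / ζ') :=
    Real.rpow_le_rpow_of_exponent_ge h2.1 h2.2.le (one_div_le_one_div_of_le h0 h)
  linarith [h1 i (hU hi)]

lemma MeanRate.mono {φ : ι → ℝ} {ζ ζ' : ℝ} (h : ζ ≤ ζ') (hU : U' ⊆ U)
    (H : MeanRate P U X φ ζ) : MeanRate P U' X φ ζ' := by
  unfold MeanRate at *
  filter_upwards [H, eventually_ge_atTop 1] with n h1 hn i hi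
  have n1 : (1 : ℝ) ≤ n := by exact_mod_cast hn
  exact (h1 i (hU hi)).trans (Real.rpow_le_rpow_of_exponent_le n1 h)

lemma MaxUp.mono {A : ℝ} {Z : ι → (Fin d → ℤ) → ℕ → Ω → ℝ} {ζ ζ' : ℝ} (h : ζ ≤ ζ')
    (H : MaxUp P U A Z ζ) : MaxUp P U A Z ζ' := by
  intro ε hε
  obtain ⟨N, hN⟩ := H ε hε
  refine ⟨max N 1, fun n hn i hi => le_trans (measure_mono ?_)
    (hN n ((le_max_left _ _).trans hn) i hi)⟩
  rintro x ⟨z, hz, hx⟩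
  have n1 : (1 : ℝ) ≤ n := by exact_mod_cast (le_max_right N 1).trans hn
  exact ⟨z, hz, (Real.rpow_le_rpow_of_exponent_le n1 h).trans hx⟩

lemma LowTail.mono {ω : ℕ → (Fin d → ℤ) → Ω → ℝ} {β : ℝ} [IsFiniteMeasure P]
    {φ : (Fin d → ℝ) → ℝ} {V V' : Set (Fin d → ℝ)} {ζ ζ' : ℝ} (h : ζ ≤ ζ') (hV : V' ⊆ V)
    (H : LowTail P ω β φ V ζ) : LowTail P ω β φ V' ζ' := by
  intro ε hε
  obtain ⟨N, hN⟩ := H ε hε
  refine ⟨max N 1, fun n hn i hi => le_trans (measureReal_mono fun x hx => ?_)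
    (hN n ((le_max_left _ _).trans hn) i (hV hi))⟩
  have n1 : (1 : ℝ) ≤ n := by exact_mod_cast (le_max_right N 1).trans hn
  have h1 := Real.rpow_le_rpow_of_exponent_le n1 h
  have h2 : logZ β i (fun i y => ω i y x) n ≤ n * φ i - (n : ℝ) ^ ζ' := hx
  show logZ β i (fun i y => ω i y x) n ≤ n * φ i - (n : ℝ) ^ ζ
  linarith

end gen

section
variable {Ω : Type} [mΩ : MeasurableSpace Ω] {P : Measure Ω} [IsProbabilityMeasure P]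
  {ω : ℕ → (Fin d → ℤ) → Ω → ℝ}

/-- the exponent of a property which is equivalent to concentration -/
theorem expo_one (mgf : S_MGF) (hd : 1 ≤ d) (he : IsEnv P ω)
    (hexp : ∀ b : ℝ, Integrable (fun x => Real.exp (b * ω 1 0 x)) P) {β : ℝ}
    (X0 : (Fin d → ℝ) → ℕ → Ω → ℝ)
    (hX0 : X0 = fun h n x => logZ β h (fun i y => ω i y x) n -
      ∫ x', logZ β h (fun i y => ω i y x') n ∂P)
    (Q : Set (Fin d → ℝ) → ℝ → Prop) (hmono : ∀ U ζ ζ', ζ ≤ ζ' → Q U ζ → Q U ζ')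
    (hT : ∀ (U : Set (Fin d → ℝ)) (K : ℝ), 0 ≤ K → ((∀ ζ ∈ Set.Ioo K 1, Q U ζ) ↔
      ∀ ζ ∈ Set.Ioo K 1, ExpBd P U X0 ζ)) (h : Fin d → ℝ) :
    chiUp P ω β h = locExp h Q := by
  have hc : S_CONC := Pool.Agent.N523.SE.CONC.main mgf
  unfold locExp
  set S1 : Set ℝ := {ζ : ℝ | 0 < ζ ∧ ∃ U : Set (Fin d → ℝ), IsOpen U ∧ h ∈ U ∧ Q U ζ} with hS1
  have b1 : BddBelow S1 := ⟨0, fun _ hξ => hξ.1.le⟩
  have b0 : BddBelow {ξ : ℝ | 0 < ξ ∧ Concentrated P ω β h ξ} := ⟨0, fun _ hξ => hξ.1.le⟩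
  have hcon : ∀ ξ : ℝ, Concentrated P ω β h ξ ↔ ∃ U : Set (Fin d → ℝ), IsOpen U ∧ h ∈ U ∧
      ExpBd P U X0 ξ := by
    intro ξ
    rw [hX0]
    exact Iff.rfl
  have hhalf : chiUp P ω β h ≤ 1 / 2 := chiUp_le_half hc hd he hexp β h
  have hup : ∀ ξ : ℝ, 0 < ξ → Concentrated P ω β h ξ → ∀ ζ ∈ Set.Ioo ξ 1, ζ ∈ S1 := by
    intro ξ h0 H ζ hζ
    obtain ⟨U, hU, hhU, H⟩ := (hcon ξ).1 H
    exact ⟨h0.trans hζ.1, U, hU, hhU, (hT U ξ h0.le).2 (fun z hz => H.mono hz.1.le) ζ hζ⟩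
  have h34 : (3 / 4 : ℝ) ∈ S1 := hup (1 / 2) (by norm_num)
    (concentrated_half hc hd he hexp β h) (3 / 4) ⟨by norm_num, by norm_num⟩
  refine le_antisymm ?_ ?_
  · refine le_csInf ⟨_, h34⟩ ?_
    rintro ξ ⟨h0, U, hU, hhU, H⟩
    by_contra hcon2
    push Not at hcon2
    obtain ⟨ζ, h5, h6⟩ := exists_between hcon2
    have h7 := (hT U ξ h0.le).1 (fun z hz => hmono U ξ z hz.1.le H) ζ ⟨h5, by linarith⟩
    have h8 : chiUp P ω β h ≤ ζ :=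
      csInf_le b0 ⟨h0.trans h5, (hcon ζ).2 ⟨U, hU, hhU, h7⟩⟩
    linarith
  · refine le_csInf ⟨1 / 2, by norm_num, concentrated_half hc hd he hexp β h⟩ ?_
    rintro ξ ⟨h0, hξ⟩
    by_contra hcon2
    push Not at hcon2
    have h4 : sInf S1 ≤ 3 / 4 := csInf_le b1 h34
    obtain ⟨ζ, h5, h6⟩ := exists_between hcon2
    have h7 := csInf_le b1 (hup ξ h0 hξ ζ ⟨h5, by linarith⟩)
    linarith

/-- the exponents -/
theorem expo (mgf : S_MGF) (hd : 1 ≤ d) (he : IsEnv P ω)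
    (hexp : ∀ b : ℝ, Integrable (fun x => Real.exp (b * ω 1 0 x)) P) {β : ℝ}
    {φ : (Fin d → ℝ) → ℝ} {Λ : (Fin d → ℝ) → ℝ → ℝ} (X0 : (Fin d → ℝ) → ℕ → Ω → ℝ)
    (hX0 : X0 = fun h n x => logZ β h (fun i y => ω i y x) n -
      ∫ x', logZ β h (fun i y => ω i y x') n ∂P)
    (hT1 : ∀ (U : Set (Fin d → ℝ)) (K : ℝ), 0 ≤ K → ((∀ ζ ∈ Set.Ioo K 1, PolyUp P d U X0 ζ) ↔
      ∀ ζ ∈ Set.Ioo K 1, ExpBd P U X0 ζ))
    (hT2 : ∀ (U : Set (Fin d → ℝ)) (K : ℝ), 0 ≤ K →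
      ((∀ ζ ∈ Set.Ioo K 1, Contact U Λ φ ζ ∧ LowTail P ω β φ U ζ) ↔
      ∀ ζ ∈ Set.Ioo K 1, ExpBd P U X0 ζ))
    (X : (Fin d → ℝ) → ℕ → Ω → ℝ)
    (hT3 : ∀ (U : Set (Fin d → ℝ)) (K : ℝ), 0 ≤ K →
      ((∀ ζ ∈ Set.Ioo K 1, Contact U Λ φ ζ ∧ MeanRate P U X φ ζ) ↔
      ∀ ζ ∈ Set.Ioo K 1, ExpBd P U X0 ζ)) (h : Fin d → ℝ) :
    chiUp P ω β h = locExp h (fun U ζ => PolyUp P d U X0 ζ) ∧
    chiUp P ω β h = max (locExp h fun U ζ => Contact U Λ φ ζ)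
      (locExp h fun U ζ => LowTail P ω β φ U ζ) ∧
    chiUp P ω β h = max (locExp h fun U ζ => Contact U Λ φ ζ)
      (locExp h fun U ζ => MeanRate P U X φ ζ) := by
  unfold locExp
  have hc : S_CONC := Pool.Agent.N523.SE.CONC.main mgf
  set S1 : Set ℝ := {ζ : ℝ | 0 < ζ ∧ ∃ U : Set (Fin d → ℝ), IsOpen U ∧ h ∈ U ∧
      PolyUp P d U X0 ζ} with hS1
  set S2 : Set ℝ := {ζ : ℝ | 0 < ζ ∧ ∃ U : Set (Fin d → ℝ), IsOpen U ∧ h ∈ U ∧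
    Contact U Λ φ ζ} with hS2
  set S3 : Set ℝ := {ζ : ℝ | 0 < ζ ∧ ∃ U : Set (Fin d → ℝ), IsOpen U ∧ h ∈ U ∧
    LowTail P ω β φ U ζ} with hS3
  set S4 : Set ℝ := {ζ : ℝ | 0 < ζ ∧ ∃ U : Set (Fin d → ℝ), IsOpen U ∧ h ∈ U ∧
    MeanRate P U X φ ζ} with hS4
  have b4 : BddBelow S4 := ⟨0, fun _ hξ => hξ.1.le⟩
  have b1 : BddBelow S1 := ⟨0, fun _ hξ => hξ.1.le⟩
  have b2 : BddBelow S2 := ⟨0, fun _ hξ => hξ.1.le⟩
  have b3 : BddBelow S3 := ⟨0, fun _ hξ => hξ.1.le⟩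
  have b0 : BddBelow {ξ : ℝ | 0 < ξ ∧ Concentrated P ω β h ξ} := ⟨0, fun _ hξ => hξ.1.le⟩
  have hcon : ∀ ξ : ℝ, Concentrated P ω β h ξ ↔ ∃ U : Set (Fin d → ℝ), IsOpen U ∧ h ∈ U ∧
      ExpBd P U X0 ξ := by
    intro ξ
    rw [hX0]
    exact Iff.rfl
  have hhalf : chiUp P ω β h ≤ 1 / 2 := chiUp_le_half hc hd he hexp β h
  have hle : ∀ ξ : ℝ, 0 < ξ → (∃ U : Set (Fin d → ℝ), IsOpen U ∧ h ∈ U ∧ ExpBd P U X0 ξ) →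
      chiUp P ω β h ≤ ξ := fun ξ h0 H => csInf_le b0 ⟨h0, (hcon ξ).2 H⟩
  -- everything above an exponent of concentration
  have hup : ∀ ξ : ℝ, 0 < ξ → Concentrated P ω β h ξ → ∀ ζ ∈ Set.Ioo ξ 1,
      ζ ∈ S1 ∧ ζ ∈ S2 ∧ ζ ∈ S3 ∧ ζ ∈ S4 := by
    intro ξ h0 H ζ hζ
    obtain ⟨U, hU, hhU, H⟩ := (hcon ξ).1 H
    have h1 : ∀ z ∈ Set.Ioo ξ 1, ExpBd P U X0 z := fun z hz => H.mono hz.1.le
    have h2 := (hT1 U ξ h0.le).2 h1 ζ hζ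
    have h3 := (hT2 U ξ h0.le).2 h1 ζ hζ
    have h4 := (hT3 U ξ h0.le).2 h1 ζ hζ
    have hζ0 : 0 < ζ := h0.trans hζ.1
    exact ⟨⟨hζ0, U, hU, hhU, h2⟩, ⟨hζ0, U, hU, hhU, h3.1⟩, ⟨hζ0, U, hU, hhU, h3.2⟩,
      ⟨hζ0, U, hU, hhU, h4.2⟩⟩
  have h34 := hup (1 / 2) (by norm_num) (concentrated_half hc hd he hexp β h) (3 / 4)
    ⟨by norm_num, by norm_num⟩
  have n0 : {ξ : ℝ | 0 < ξ ∧ Concentrated P ω β h ξ}.Nonempty :=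
    ⟨1 / 2, by norm_num, concentrated_half hc hd he hexp β h⟩
  have hge : sInf S1 ≤ chiUp P ω β h ∧ sInf S2 ≤ chiUp P ω β h ∧ sInf S3 ≤ chiUp P ω β h ∧
      sInf S4 ≤ chiUp P ω β h := by
    have key : ∀ S : Set ℝ, BddBelow S → (3 / 4 : ℝ) ∈ S →
        (∀ ξ : ℝ, 0 < ξ → Concentrated P ω β h ξ → ∀ ζ ∈ Set.Ioo ξ 1, ζ ∈ S) →
        sInf S ≤ chiUp P ω β h := by
      intro S hb h3 H
      refine le_csInf n0 ?_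
      rintro ξ ⟨h0, hξ⟩
      by_contra hcon2
      push Not at hcon2
      have h4 : sInf S ≤ 3 / 4 := csInf_le hb h3
      obtain ⟨ζ, h5, h6⟩ := exists_between hcon2
      have h7 := csInf_le hb (H ξ h0 hξ ζ ⟨h5, by linarith⟩)
      linarith
    exact ⟨key S1 b1 h34.1 fun ξ h0 hξ ζ hζ => (hup ξ h0 hξ ζ hζ).1,
      key S2 b2 h34.2.1 fun ξ h0 hξ ζ hζ => (hup ξ h0 hξ ζ hζ).2.1,
      key S3 b3 h34.2.2.1 fun ξ h0 hξ ζ hζ => (hup ξ h0 hξ ζ hζ).2.2.1,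
      key S4 b4 h34.2.2.2 fun ξ h0 hξ ζ hζ => (hup ξ h0 hξ ζ hζ).2.2.2⟩
  refine ⟨le_antisymm ?_ hge.1, le_antisymm ?_ (max_le hge.2.1 hge.2.2.1),
    le_antisymm ?_ (max_le hge.2.1 hge.2.2.2)⟩
  · refine le_csInf ⟨_, h34.1⟩ ?_
    rintro ξ ⟨h0, U, hU, hhU, H⟩
    by_contra hcon2
    push Not at hcon2
    obtain ⟨ζ, h5, h6⟩ := exists_between hcon2
    have h7 := (hT1 U ξ h0.le).1 (fun z hz => H.mono hz.1.le) ζ ⟨h5, by linarith⟩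
    have h8 := hle ζ (h0.trans h5) ⟨U, hU, hhU, h7⟩
    linarith
  · by_contra hcon2
    push Not at hcon2
    obtain ⟨ζ, h5, h6⟩ := exists_between hcon2
    obtain ⟨ζ1, ⟨h10, U1, hU1, hhU1, H1⟩, h11⟩ := exists_lt_of_csInf_lt ⟨_, h34.2.1⟩
      ((le_max_left _ _).trans_lt h5)
    obtain ⟨ζ2, ⟨h20, U2, hU2, hhU2, H2⟩, h21⟩ := exists_lt_of_csInf_lt ⟨_, h34.2.2.1⟩
      ((le_max_right _ _).trans_lt h5)
    have hK0 : 0 < max ζ1 ζ2 := lt_max_of_lt_left h10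
    have hKζ : max ζ1 ζ2 < ζ := max_lt h11 h21
    have h7 := (hT2 (U1 ∩ U2) (max ζ1 ζ2) hK0.le).1 (fun z hz =>
      ⟨H1.mono h10 ((le_max_left _ _).trans hz.1.le) Set.inter_subset_left,
        LowTail.mono ((le_max_right _ _).trans hz.1.le) Set.inter_subset_right H2⟩) ζ
      ⟨hKζ, by linarith⟩
    have h8 := hle ζ (hK0.trans hKζ) ⟨U1 ∩ U2, hU1.inter hU2, ⟨hhU1, hhU2⟩, h7⟩
    linarith
  · by_contra hcon2
    push Not at hcon2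
    obtain ⟨ζ, h5, h6⟩ := exists_between hcon2
    obtain ⟨ζ1, ⟨h10, U1, hU1, hhU1, H1⟩, h11⟩ := exists_lt_of_csInf_lt ⟨_, h34.2.1⟩
      ((le_max_left _ _).trans_lt h5)
    obtain ⟨ζ2, ⟨h20, U2, hU2, hhU2, H2⟩, h21⟩ := exists_lt_of_csInf_lt ⟨_, h34.2.2.2⟩
      ((le_max_right _ _).trans_lt h5)
    have hK0 : 0 < max ζ1 ζ2 := lt_max_of_lt_left h10
    have hKζ : max ζ1 ζ2 < ζ := max_lt h11 h21
    have h7 := (hT3 (U1 ∩ U2) (max ζ1 ζ2) hK0.le).1 (fun z hz =>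
      ⟨H1.mono h10 ((le_max_left _ _).trans hz.1.le) Set.inter_subset_left,
        MeanRate.mono ((le_max_right _ _).trans hz.1.le) Set.inter_subset_right H2⟩) ζ
      ⟨hKζ, by linarith⟩
    have h8 := hle ζ (hK0.trans hKζ) ⟨U1 ∩ U2, hU1.inter hU2, ⟨hhU1, hhU2⟩, h7⟩
    linarith

end

end Pool.Agent.Run7.h981.ME
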