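import Pool.Agent.Run7.h981.ME.Cons
import Pool.Agent.Run7.h981.ME.Defs

/-!
# Directed polymers: large deviations of macroscopic size and the order of contact
-/

set_option autoImplicit false

open MeasureTheory ProbabilityTheory Filter Topology
open scoped ENNReal

namespace Pool.Agent.Run7.h981.ME

open TH967.DP
open Pool.Agent.N662.SE
open Pool.Agent.Run7.h208.WT

variable {d : ℕ}

section gen
variable {Ω : Type} [mΩ : MeasurableSpace Ω] {P : Measure Ω}

lemma ldUp_of_optUp {ι : Type} {U : Set ι} {X : ι → ℕ → Ω → ℝ} {z ζ : ℝ} (hz : 0 < z)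
    (hzζ : z < ζ) (hζ : ζ < 1) (H : OptUp P U X z) : LDUp P U X ζ := by
  obtain ⟨A, hA, H⟩ := H
  have h1z : 0 < 1 - z := by linarith
  have h1ζ : 0 < 1 - ζ := by linarith
  set a : ℝ := 1 / (1 - ζ) with ha
  set b : ℝ := 1 / (1 - z) with hb
  have hab : b < a := one_div_lt_one_div_of_lt h1ζ (by linarith)
  have hb1 : 1 ≤ b := by rw [hb, le_div_iff₀ h1z]; linarith
  have h1 : Tendsto (fun δ : ℝ => δ ^ (a - b)) (𝓝[>] 0) (𝓝 0) := by
    have h2 := (Real.continuousAt_rpow_const 0 (a - b) (Or.inr (by linarith))).tendsto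
    rw [Real.zero_rpow (by linarith)] at h2
    exact h2.mono_left nhdsWithin_le_nhds
  unfold LDUp
  filter_upwards [h1.eventually (ge_mem_nhds (show (0 : ℝ) < 1 / (2 * A) by positivity)),
    Ioo_mem_nhdsGT one_pos] with δ h2 h3
  have d0 : 0 < δ := h3.1
  have hda : 0 < δ ^ a := Real.rpow_pos_of_pos d0 _
  have h4 : 2 * δ ^ a * A ≤ δ ^ b := by
    have e1 : δ ^ a = δ ^ (a - b) * δ ^ b := by rw [← Real.rpow_add d0]; congr 1; ring
    rw [e1]
    have h5 : 0 ≤ δ ^ b := (Real.rpow_pos_of_pos d0 _).le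
    have h6 : δ ^ (a - b) * (2 * A) ≤ 1 := by rwa [le_div_iff₀ (by positivity)] at h2
    calc 2 * (δ ^ (a - b) * δ ^ b) * A = (δ ^ (a - b) * (2 * A)) * δ ^ b := by ring
      _ ≤ 1 * δ ^ b := by gcongr
      _ = _ := one_mul _
  have h5 : Tendsto (fun n : ℕ => (n : ℝ) * δ ^ a) atTop atTop :=
    tendsto_natCast_atTop_atTop.atTop_mul_const hda
  filter_upwards [h5.eventually (eventually_ge_atTop (Real.log A)), eventually_ge_atTop 1]
    with n h6 hn
  intro h hh
  have n0 : (0 : ℝ) < n := by exact_mod_cast hn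
  refine (H h hh n hn (n * δ) (by positivity)).trans (ENNReal.ofReal_le_ofReal ?_)
  have e1 : ((n : ℝ) * δ / (n : ℝ) ^ z) ^ b = n * δ ^ b := by
    have e2 : (n : ℝ) * δ / (n : ℝ) ^ z = (n : ℝ) ^ (1 - z) * δ := by
      rw [Real.rpow_sub n0, Real.rpow_one]; ring
    rw [e2, Real.mul_rpow (by positivity) d0.le, ← Real.rpow_mul n0.le]
    have e3 : (1 - z) * b = 1 := by rw [hb]; field_simp
    rw [e3, Real.rpow_one]
  have h7 : δ ^ b ≤ δ := by
    calc δ ^ b ≤ δ ^ (1 : ℝ) := Real.rpow_le_rpow_of_exponent_ge d0 h3.2.le hb1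
      _ = δ := Real.rpow_one _
  have h8 : 2 * (n * δ ^ a) ≤ min (n * δ) (((n : ℝ) * δ / (n : ℝ) ^ z) ^ b) / A := by
    rw [e1, le_div_iff₀ hA]
    have h9 : 2 * (n * δ ^ a) * A ≤ n * δ ^ b := by
      calc 2 * (n * δ ^ a) * A = n * (2 * δ ^ a * A) := by ring
        _ ≤ n * δ ^ b := by gcongr
    exact le_min (h9.trans (by gcongr)) h9
  calc A * Real.exp (-(min (n * δ) (((n : ℝ) * δ / (n : ℝ) ^ z) ^ b) / A))
      ≤ Real.exp (Real.log A) * Real.exp (-(2 * (n * δ ^ a))) := by
        rw [Real.exp_log hA]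
        gcongr
    _ = Real.exp (Real.log A - 2 * (n * δ ^ a)) := by rw [← Real.exp_add]; ring_nf
    _ ≤ _ := Real.exp_le_exp.2 (by linarith)

/-- the part of the exponential moment above the level `s` -/
noncomputable def TT (P : Measure Ω) (Y : Ω → ℝ) (t s : ℝ) : ℝ≥0∞ :=
  ∫⁻ x, (if s ≤ Y x then EX (t * Y x) else 0) ∂P

lemma TT_step {Y : Ω → ℝ} (hY : Measurable Y) {t : ℝ} (ht : 0 ≤ t) (s s' : ℝ) :
    TT P Y t s ≤ EX (t * s') * P {x | s ≤ Y x} + TT P Y t s' := by
  have hm : MeasurableSet {x | s ≤ Y x} := measurableSet_le measurable_const hY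
  unfold TT
  rw [← lintegral_indicator_const hm, ← lintegral_add_left (measurable_const.indicator hm)]
  refine lintegral_mono fun x => ?_
  by_cases h1 : s ≤ Y x
  · rw [if_pos h1, Set.indicator_of_mem (show x ∈ {x | s ≤ Y x} from h1)]
    by_cases h2 : s' ≤ Y x
    · rw [if_pos h2]; exact le_add_self
    · rw [if_neg h2, add_zero]
      exact EX_mono (mul_le_mul_of_nonneg_left (not_le.1 h2).le ht)
  · rw [if_neg h1]; exact bot_le

lemma TT_start [IsProbabilityMeasure P] {Y : Ω → ℝ} {t : ℝ} (ht : 0 ≤ t)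
    (s : ℝ) : ∫⁻ x, EX (t * Y x) ∂P ≤ EX (t * s) + TT P Y t s := by
  have e1 : EX (t * s) = ∫⁻ _x, EX (t * s) ∂P := by simp
  unfold TT
  rw [e1, ← lintegral_add_left measurable_const]
  refine lintegral_mono fun x => ?_
  by_cases h2 : s ≤ Y x
  · rw [if_pos h2]; exact le_add_self
  · rw [if_neg h2, add_zero]
    exact EX_mono (mul_le_mul_of_nonneg_left (not_le.1 h2).le ht)

lemma TT_end {Y : Ω → ℝ} (hY : Measurable Y) {t l : ℝ} (htl : t ≤ l) (s : ℝ) :
    TT P Y t s ≤ EX (-((l - t) * s)) * ∫⁻ x, EX (l * Y x) ∂P := by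
  unfold TT
  have hm : Measurable fun x => EX (l * Y x) := measurable_EX.comp (hY.const_mul _)
  rw [← lintegral_const_mul _ hm]
  refine lintegral_mono fun x => ?_
  by_cases h2 : s ≤ Y x
  · rw [if_pos h2, ← EX_add]
    refine EX_mono ?_
    have := mul_le_mul_of_nonneg_left h2 (show 0 ≤ l - t by linarith)
    linarith
  · rw [if_neg h2]; exact bot_le

end gen

section
variable {Ω : Type} [mΩ : MeasurableSpace Ω] {P : Measure Ω} [IsProbabilityMeasure P]
  {ω : ℕ → (Fin d → ℤ) → Ω → ℝ} {β : ℝ} {U : Set (Fin d → ℝ)} {φ : (Fin d → ℝ) → ℝ}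

/-- large deviations determine the order of contact -/
theorem flat_of_ld (R : ∀ h ∈ U, Reg P ω β h (φ h)) {ζ : ℝ} (hζ0 : 0 < ζ) (hζ1 : ζ < 1)
    (H : LDUp P U (fun h n x => lw ω β h 0 0 n x - n * φ h) ζ) : Flat P ω β U φ ζ := by
  rw [flat_iff hζ0]
  obtain ⟨D, hD, H⟩ := mem_nhdsGT_iff_exists_Ioo_subset.1 H
  have D0 : (0 : ℝ) < D := hD
  have h1ζ : 0 < 1 - ζ := by linarith
  set a : ℝ := 1 / (1 - ζ) with ha
  have a1 : 1 ≤ a := by rw [ha, le_div_iff₀ h1ζ]; linarith
  have a0 : 0 < a := by linarith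
  set G : ℝ := |16 * mom P ω β * (1 / 4) ^ 2| with hG
  set S : ℝ := 8 * G + 1 with hS
  have G0 : 0 ≤ G := abs_nonneg _
  have S0 : 0 < S := by positivity
  set e : ℝ := (1 - ζ) / ζ with he
  have e0 : 0 < e := by positivity
  have ht1 : Tendsto (fun t : ℝ => t ^ e) (𝓝[>] 0) (𝓝 0) := by
    have h2 := (Real.continuousAt_rpow_const 0 e (Or.inr e0.le)).tendsto
    rw [Real.zero_rpow e0.ne'] at h2
    exact h2.mono_left nhdsWithin_le_nhds
  have hc0 : 0 < min (1 / 8) ((D / 4) ^ a / S) := lt_min (by norm_num) (by positivity)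
  filter_upwards [ht1.eventually (ge_mem_nhds (show (0 : ℝ) < D / 4 by positivity)),
    Ioo_mem_nhdsGT hc0] with t ht2 ht3
  have t0 : 0 < t := ht3.1
  have t8 : t ≤ 1 / 8 := ht3.2.le.trans (min_le_left _ _)
  have tS : t * S ≤ (D / 4) ^ a := by
    have := ht3.2.le.trans (min_le_right _ _)
    rwa [le_div_iff₀ S0] at this
  set δ : ℝ := t ^ e with hδ
  have δ0 : 0 < δ := Real.rpow_pos_of_pos t0 _
  have e1 : t * δ = t ^ (1 / ζ) := by
    rw [hδ]
    nth_rewrite 1 [← Real.rpow_one t]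
    rw [← Real.rpow_add t0]
    congr 1
    rw [he]; field_simp; ring
  have e2 : δ ^ a = t ^ (1 / ζ) := by
    rw [hδ, ← Real.rpow_mul t0.le]
    congr 1
    rw [he, ha]; field_simp
  set K : ℕ := ⌊D / (2 * δ)⌋₊ with hK
  have hD2 : 2 ≤ D / (2 * δ) := by rw [le_div_iff₀ (by positivity)]; linarith
  have hK1 : (K : ℝ) ≤ D / (2 * δ) := Nat.floor_le (by positivity)
  have hK2 : D / (2 * δ) < K + 1 := Nat.lt_floor_add_one _
  have hKD : K * δ ≤ D / 2 := by
    rw [le_div_iff₀ (by positivity)] at hK1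
    linarith
  have hKD' : D / 4 ≤ K * δ := by
    rw [div_lt_iff₀ (by positivity)] at hK2
    linarith
  have hKp : 1 ≤ K := by
    have h1 : (1 : ℝ) < K := by linarith
    have h2 : 1 < K := by exact_mod_cast h1
    exact h2.le
  have hevU : ∀ᶠ n : ℕ in atTop, ∀ k ∈ Finset.Icc 1 K, ∀ h ∈ U,
      P {x | n * (k * δ) ≤ lw ω β h 0 0 n x - n * φ h} ≤ EX (-(n * (k * δ) ^ a)) := by
    rw [Finset.eventually_all]
    intro k hk
    have hk1 := (Finset.mem_Icc.1 hk).1
    have hk2 := (Finset.mem_Icc.1 hk).2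
    have hk0 : (0 : ℝ) < k := by exact_mod_cast hk1
    have h1 : k * δ ∈ Set.Ioo 0 D := by
      refine ⟨by positivity, ?_⟩
      have h2 : (k : ℝ) * δ ≤ K * δ := by gcongr
      linarith
    exact H h1
  intro h hh
  have R := R h hh
  have hev : ∀ᶠ n : ℕ in atTop, ∀ k ∈ Finset.Icc 1 K,
      P {x | n * (k * δ) ≤ lw ω β h 0 0 n x - n * φ h} ≤ EX (-(n * (k * δ) ^ a)) := by
    filter_upwards [hevU] with n h1 k hk
    exact h1 k hk h hh
  have main : ∀ᶠ n : ℕ in atTop, gap P ω β h (φ h) t ≤ t ^ (1 / ζ) + (n : ℝ) ^ (-(1 / 2 : ℝ)) := by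
    filter_upwards [hev, (tendsto_natCast_atTop_atTop (R := ℝ)).eventually
      (ev_log (Real.log (K + 2)) d (show (0 : ℝ) < 1 / 2 by norm_num)), eventually_ge_atTop 1]
      with n h1 h2 hn
    have n0 : (0 : ℝ) < n := by exact_mod_cast hn
    have n1 : (1 : ℝ) ≤ n := by exact_mod_cast hn
    set Y : Ω → ℝ := fun x => lw ω β h 0 0 n x - n * φ h with hY
    have hYm : Measurable Y := (R.meas n).sub_const _
    set B : ℝ≥0∞ := EX (n * t ^ (1 / ζ)) with hB
    have hB1 : 1 ≤ B := by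
      rw [← EX_zero]; exact EX_mono (by positivity)
    have hterm : ∀ k : ℕ, 1 ≤ k → k ≤ K →
        EX (t * (n * ((k + 1 : ℕ) * δ))) * P {x | n * (k * δ) ≤ Y x} ≤ B := by
      intro k hk1 hk2
      have hk0 : (0 : ℝ) < k := by exact_mod_cast hk1
      have hk1' : (1 : ℝ) ≤ k := by exact_mod_cast hk1
      calc EX (t * (n * ((k + 1 : ℕ) * δ))) * P {x | n * (k * δ) ≤ Y x}
          ≤ EX (t * (n * ((k + 1 : ℕ) * δ))) * EX (-(n * (k * δ) ^ a)) := by
            gcongr
            exact h1 k (Finset.mem_Icc.2 ⟨hk1, hk2⟩)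
        _ ≤ B := by
            rw [← EX_add]
            refine EX_mono ?_
            rw [Real.mul_rpow hk0.le δ0.le, e2]
            push_cast
            have h3 : (k : ℝ) ≤ (k : ℝ) ^ a := by
              calc (k : ℝ) = (k : ℝ) ^ (1 : ℝ) := (Real.rpow_one _).symm
                _ ≤ _ := Real.rpow_le_rpow_of_exponent_le hk1' a1
            have h4 : t * (n * (((k : ℝ) + 1) * δ)) = n * ((k + 1) * (t * δ)) := by ring
            rw [h4, e1]
            have h5 : 0 ≤ (n : ℝ) * t ^ (1 / ζ) := by positivity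
            have h6 := mul_le_mul_of_nonneg_left h3 h5
            linarith
    have hchain : ∀ k : ℕ, k + 1 ≤ K → TT P Y t (n * ((1 : ℕ) * δ)) ≤
        k * B + TT P Y t (n * ((k + 1 : ℕ) * δ)) := by
      intro k
      induction k with
      | zero => intro _; simp
      | succ k ih =>
        intro hk
        refine (ih (by omega)).trans ?_
        have h3 := TT_step (P := P) hYm t0.le (n * ((k + 1 : ℕ) * δ)) (n * ((k + 1 + 1 : ℕ) * δ))
        have h4 := hterm (k + 1) (by omega) (by omega)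
        calc (k : ℝ≥0∞) * B + TT P Y t (n * ((k + 1 : ℕ) * δ))
            ≤ k * B + (B + TT P Y t (n * ((k + 1 + 1 : ℕ) * δ))) := by
              gcongr
              exact h3.trans (by gcongr)
          _ = _ := by push_cast; ring
    have hlast : TT P Y t (n * (K * δ)) ≤ 1 + 1 := by
      refine (TT_step (P := P) hYm t0.le (n * (K * δ)) (n * S)).trans (add_le_add ?_ ?_)
      · calc EX (t * (n * S)) * P {x | n * (K * δ) ≤ Y x}
            ≤ EX (t * (n * S)) * EX (-(n * (K * δ) ^ a)) := by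
              gcongr
              exact h1 K (Finset.mem_Icc.2 ⟨hKp, le_rfl⟩)
          _ ≤ EX 0 := by
              rw [← EX_add]
              refine EX_mono ?_
              have h3 : (D / 4) ^ a ≤ (K * δ) ^ a := Real.rpow_le_rpow (by positivity) hKD' a0.le
              have h4 := mul_le_mul_of_nonneg_left (tS.trans h3) n0.le
              linarith
          _ = 1 := EX_zero
      · refine (TT_end (P := P) hYm (show t ≤ 1 / 4 by linarith) (n * S)).trans ?_
        calc EX (-((1 / 4 - t) * (n * S))) * ∫⁻ x, EX (1 / 4 * Y x) ∂P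
            ≤ EX (-((1 / 4 - t) * (n * S))) * EX (n * (lam P ω β h (1 / 4) - 1 / 4 * φ h)) := by
              gcongr
              exact mom_le R (by norm_num) le_rfl n
          _ ≤ EX 0 := by
              rw [← EX_add]
              refine EX_mono ?_
              have h3 : lam P ω β h (1 / 4) - 1 / 4 * φ h ≤ G := by
                have h7 := lam_le R (show (0 : ℝ) < 1 / 4 by norm_num) le_rfl
                have h8 : 16 * mom P ω β * (1 / 4) ^ 2 ≤ G := le_abs_self _
                linarith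
              have h4 := mul_le_mul_of_nonneg_left h3 n0.le
              have h5 : 1 / 8 * (n * S) ≤ (1 / 4 - t) * (n * S) := by gcongr; linarith
              have h6 : 1 / 8 * (n * S) = n * G + n / 8 := by rw [hS]; ring
              linarith
          _ = 1 := EX_zero
    have htot : EX (LL P ω β h t n - t * (n * φ h)) ≤ ((K : ℝ≥0∞) + 2) * B := by
      rw [← mom_eq R t0 (by linarith) n]
      refine (TT_start (P := P) t0.le (n * ((1 : ℕ) * δ))).trans ?_
      have h3 := hchain (K - 1) (by omega)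
      have h4 : K - 1 + 1 = K := by omega
      rw [h4] at h3
      have h5 : EX (t * (n * ((1 : ℕ) * δ))) = B := by
        rw [hB, ← e1]; congr 1; push_cast; ring
      calc EX (t * (n * ((1 : ℕ) * δ))) + TT P Y t (n * ((1 : ℕ) * δ))
          ≤ B + (((K - 1 : ℕ) : ℝ≥0∞) * B + (1 + 1)) := by
            rw [h5]
            gcongr
            exact h3.trans (by gcongr)
        _ ≤ B + (((K - 1 : ℕ) : ℝ≥0∞) * B + (B + B)) := by gcongr
        _ = (((K - 1 : ℕ) : ℝ≥0∞) + 1 + 2) * B := by ring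
        _ = _ := by
            congr 2
            have h6 : (((K - 1 : ℕ) : ℝ≥0∞) + 1) = ((K - 1 + 1 : ℕ) : ℝ≥0∞) := by push_cast; rfl
            rw [h6, h4]
    have e3 : ((K : ℝ≥0∞) + 2) = EX (Real.log (K + 2)) := by
      unfold EX
      rw [Real.exp_log (by positivity), ENNReal.ofReal_add (by positivity) (by norm_num),
        ENNReal.ofReal_natCast]
      norm_num
    rw [e3, hB, ← EX_add, EX_le_iff] at htot
    have h3 := (lam_spec R t0 (show t ≤ 1 / 4 by linarith)).2.2 n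
    have h4 : (d : ℝ) * Real.log (2 * n + 1) ≤ d * Real.log (9 * n) := by
      gcongr
      linarith
    have h5 : n * gap P ω β h (φ h) t ≤ n * t ^ (1 / ζ) + (n : ℝ) ^ (1 / 2 : ℝ) := by
      unfold gap
      have : (n : ℝ) * (lam P ω β h t - t * φ h) = n * lam P ω β h t - t * (n * φ h) := by ring
      rw [this]
      linarith
    have e4 : (n : ℝ) * (t ^ (1 / ζ) + (n : ℝ) ^ (-(1 / 2 : ℝ))) =
        n * t ^ (1 / ζ) + (n : ℝ) ^ (1 / 2 : ℝ) := by
      rw [mul_add]
      congr 1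
      nth_rewrite 1 [← Real.rpow_one (n : ℝ)]
      rw [← Real.rpow_add n0]; norm_num
    rw [← e4] at h5
    exact le_of_mul_le_mul_left h5 n0
  have hlim : Tendsto (fun n : ℕ => t ^ (1 / ζ) + (n : ℝ) ^ (-(1 / 2 : ℝ))) atTop
      (𝓝 (t ^ (1 / ζ) + 0)) :=
    ((tendsto_rpow_neg_atTop (by norm_num)).comp tendsto_natCast_atTop_atTop).const_add _
  rw [add_zero] at hlim
  exact ge_of_tendsto hlim main

end

end Pool.Agent.Run7.h981.ME
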