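import Pool.Agent.Run7.h981.ME.Two

/-!
# Directed polymers: the maximum over many starting points
-/

set_option autoImplicit false

open MeasureTheory ProbabilityTheory Filter Topology
open scoped ENNReal

namespace Pool.Agent.Run7.h981.ME

open TH967.DP
open Pool.Agent.N662.SE
open Pool.Agent.Run7.h208.WT
open Pool.Agent.N50.SE.SUP (meas_part)

variable {d : ℕ}

section
variable {Ω : Type} [mΩ : MeasurableSpace Ω] (P : Measure Ω) [IsProbabilityMeasure P]
  (ω : ℕ → (Fin d → ℤ) → Ω → ℝ)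

/-- the sigma-algebra of a set of sites -/
def sg (S : Set (ℕ × (Fin d → ℤ))) : MeasurableSpace Ω :=
  ⨆ s ∈ S, MeasurableSpace.comap (ω s.1 s.2) inferInstance

variable {P ω}

omit [IsProbabilityMeasure P] in
lemma sg_le (he : IsEnv P ω) (S : Set (ℕ × (Fin d → ℤ))) : sg ω S ≤ mΩ :=
  iSup₂_le fun s _ => (he.meas s.1 s.2).comap_le

lemma sg_mono {S T : Set (ℕ × (Fin d → ℤ))} (h : S ⊆ T) : sg ω S ≤ sg ω T :=
  iSup₂_le fun s hs => le_iSup₂_of_le (f := fun (s : ℕ × (Fin d → ℤ)) (_ : s ∈ T) =>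
    MeasurableSpace.comap (ω s.1 s.2) inferInstance) s (h hs) le_rfl

lemma indep_sg (he : IsEnv P ω) {S T : Set (ℕ × (Fin d → ℤ))} (h : Disjoint S T) :
    Indep (sg ω S) (sg ω T) P := by
  have hle : ∀ s : ℕ × (Fin d → ℤ), MeasurableSpace.comap (ω s.1 s.2) inferInstance ≤ mΩ :=
    fun s => (he.meas s.1 s.2).comap_le
  have hI := indep_iSup_of_disjoint hle he.indep h
  exact hI

/-- the sites within distance `n` of `z` -/
def nb (z : Fin d → ℤ) (n : ℕ) : Set (ℕ × (Fin d → ℤ)) := {s | ∀ k, |s.2 k - z k| ≤ n}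

lemma meas_lw_nb (β : ℝ) (h : Fin d → ℝ) (z : Fin d → ℤ) (n : ℕ) :
    Measurable[sg ω (nb z n)] (lw ω β h 0 z n) := by
  classical
  set ω' : ℕ → (Fin d → ℤ) → Ω → ℝ := fun i y =>
    if ∀ k, |y k| ≤ (n : ℤ) then ω (0 + i) (z + y) else fun _ => 0 with hω'
  have h1 : ∀ x, part β h (fun i y => ω (0 + i) (z + y) x) n Set.univ =
      part β h (fun i y => ω' i y x) n Set.univ := by
    intro x
    unfold part
    refine Finset.sum_congr rfl fun w _ => ?_
    simp only [Set.indicator_univ]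
    congr 2
    unfold energy
    refine congrArg _ (Finset.sum_congr rfl fun i _ => ?_)
    simp only [hω']
    rw [if_pos fun k => abs_pos_le w _ k]
  have h2 := @meas_part d Ω (sg ω (nb z n)) ω' β h n (fun i _ _ y => by
    simp only [hω']
    split_ifs with h3
    · have h4 : MeasurableSpace.comap (ω (0 + i) (z + y)) inferInstance ≤ sg ω (nb z n) :=
        le_iSup₂_of_le (f := fun (s : ℕ × (Fin d → ℤ)) (_ : s ∈ nb z n) =>
          MeasurableSpace.comap (ω s.1 s.2) inferInstance) (0 + i, z + y)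
          (by
            intro k
            show |z k + y k - z k| ≤ n
            have := h3 k
            rwa [add_sub_cancel_left]) le_rfl
      exact (comap_measurable (ω (0 + i) (z + y))).mono h4 le_rfl
    · exact @measurable_const _ _ _ (sg ω (nb z n)) _)
  have h3 : lw ω β h 0 z n = fun x => Real.log (part β h (fun i y => ω' i y x) n Set.univ) := by
    funext x
    unfold lw
    rw [h1]
  rw [h3]
  exact Real.measurable_log.comp h2

/-- independence of the free energies of distant starting points -/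
lemma prob_inter (hi' : S_ID) (hd : 1 ≤ d) (he : IsEnv P ω) (β : ℝ) (h : Fin d → ℝ) (n : ℕ)
    (c : ℝ) {κ : Type} [DecidableEq κ] (z : κ → Fin d → ℤ) (F : Finset κ)
    (hdis : ∀ i j, i ≠ j → Disjoint (nb (z i) n) (nb (z j) n)) :
    P (⋂ j ∈ F, {x | lw ω β h 0 (z j) n x < c}) = P {x | lw ω β h 0 0 n x < c} ^ F.card := by
  have hm : ∀ j, MeasurableSet[sg ω (nb (z j) n)] {x | lw ω β h 0 (z j) n x < c} := fun j =>
    (meas_lw_nb β h (z j) n) measurableSet_Iio
  induction F using Finset.induction_on with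
  | empty => simp
  | insert a F ha ih =>
    have h1 : ⋂ j ∈ insert a F, {x | lw ω β h 0 (z j) n x < c} =
        {x | lw ω β h 0 (z a) n x < c} ∩ ⋂ j ∈ F, {x | lw ω β h 0 (z j) n x < c} :=
      Finset.set_biInter_insert a F _
    have h2 : MeasurableSet[sg ω (⋃ j ∈ F, nb (z j) n)]
        (⋂ j ∈ F, {x | lw ω β h 0 (z j) n x < c}) := by
      refine @Finset.measurableSet_biInter _ _ (sg ω (⋃ j ∈ F, nb (z j) n)) _ F fun j hj => ?_
      exact sg_mono (Set.subset_biUnion_of_mem (u := fun j => nb (z j) n) hj) _ (hm j)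
    have h3 : Disjoint (nb (z a) n) (⋃ j ∈ F, nb (z j) n) := by
      rw [Set.disjoint_iUnion₂_right]
      intro j hj
      exact hdis a j (by rintro rfl; exact ha hj)
    rw [h1, (Indep_iff _ _ P).1 (indep_sg he h3) _ _ (hm a) h2, ih, Finset.card_insert_of_notMem ha,
      pow_succ, mul_comm]
    congr 1
    exact (hi' d hd Ω P ω he β h 0 (z a) n).measure_mem_eq measurableSet_Iio

lemma nb_disjoint (n : ℕ) (i j : Fin d → ℤ) (hij : i ≠ j) :
    Disjoint (nb (fun k => (2 * n + 1 : ℤ) * i k) n) (nb (fun k => (2 * n + 1 : ℤ) * j k) n) := by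
  rw [Set.disjoint_left]
  intro s h1 h2
  apply hij
  funext k
  have h3 := abs_le.1 (h1 k)
  have h4 := abs_le.1 (h2 k)
  have h5 : (2 * n + 1 : ℤ) * (i k - j k) < 2 * n + 1 := by nlinarith
  have h6 : -(2 * n + 1 : ℤ) < (2 * n + 1 : ℤ) * (i k - j k) := by nlinarith
  have h7 : (0 : ℤ) < 2 * n + 1 := by positivity
  have h8 : i k - j k < 1 := by
    by_contra hcon
    push Not at hcon
    nlinarith
  have h9 : -1 < i k - j k := by
    by_contra hcon
    push Not at hcon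
    nlinarith
  omega

omit mΩ [IsProbabilityMeasure P] in
/-- the free energy with the starting point `z` -/
lemma lw_shift (β : ℝ) (h : Fin d → ℝ) (z : Fin d → ℤ) (n : ℕ) (x : Ω) :
    lw (fun i y => ω i (z + y)) β h 0 0 n x = lw ω β h 0 z n x := by
  unfold lw
  simp only [zero_add]

variable {β : ℝ} {U : Set (Fin d → ℝ)}

omit mΩ [IsProbabilityMeasure P] in
lemma pg_le {p : ℝ} (hp1 : p ≤ 1) {G : ℕ} (h : (1 / 2 : ℝ) ≤ (1 - p) ^ G) :
    p * G ≤ 1 := by
  have h5 : (1 / 2 : ℝ) ≤ Real.exp (-(p * G)) := by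
    calc (1 / 2 : ℝ) ≤ (1 - p) ^ G := h
      _ ≤ (Real.exp (-p)) ^ G := by
          have h6 : 1 - p ≤ Real.exp (-p) := by
            have := Real.add_one_le_exp (-p)
            linarith
          exact pow_le_pow_left₀ (by linarith) h6 _
      _ = _ := by rw [← Real.exp_nat_mul]; congr 1; ring
  by_contra hcon
  push Not at hcon
  have h7 : Real.exp (-(p * G)) < Real.exp (-1) := Real.exp_lt_exp.2 (by linarith)
  have h8 : Real.exp (-1) < 1 / 2 := by
    rw [Real.exp_neg, inv_eq_one_div]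
    have h9 : (2 : ℝ) < Real.exp 1 := by
      have := Real.exp_one_gt_d9
      linarith
    exact one_div_lt_one_div_of_lt (by norm_num) h9
  linarith

omit mΩ [IsProbabilityMeasure P] in
lemma grid_le {n M : ℕ} {B : ℝ} (hn : 1 ≤ n) (hM : (M : ℝ) ≤ B / (3 * n)) {j : Fin d → ℤ}
    (hj : j ∈ Box d M) (k : Fin d) : |(((2 * n + 1 : ℤ) * j k : ℤ) : ℝ)| ≤ B := by
  have n0 : (0 : ℝ) < n := by exact_mod_cast hn
  have n1 : (1 : ℝ) ≤ n := by exact_mod_cast hn
  have hjk : |j k| ≤ (M : ℤ) := by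
    have h7 : j ∈ Fintype.piFinset (fun _ => Finset.Icc (-(M : ℤ)) M) := hj
    have h8 := Finset.mem_Icc.1 (Fintype.mem_piFinset.1 h7 k)
    exact abs_le.2 h8
  have hjk' : |(j k : ℝ)| ≤ M := by exact_mod_cast hjk
  push_cast
  rw [abs_mul, abs_of_pos (show (0 : ℝ) < 2 * n + 1 by positivity)]
  calc (2 * (n : ℝ) + 1) * |(j k : ℝ)| ≤ (3 * n) * (B / (3 * n)) := by
        refine mul_le_mul (by linarith) (hjk'.trans hM) (abs_nonneg _) (by positivity)
    _ = B := by field_simp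

/-- the bound for one `n` -/
lemma max_one (hi' : S_ID) (hd : 1 ≤ d) (he : IsEnv P ω) {A s0 c0 : ℝ} {h : Fin d → ℝ} {n : ℕ}
    (hn : 1 ≤ n)
    (H : P.real {x | ∃ z : Fin d → ℤ, (∀ k, |(z k : ℝ)| ≤ (n : ℝ) ^ A) ∧
        s0 ≤ lw ω β h 0 z n x - c0} ≤ 1 / 2) (M : ℕ)
    (hM : (M : ℝ) ≤ (n : ℝ) ^ A / (3 * n)) :
    P.real {x | s0 ≤ lw ω β h 0 0 n x - c0} * (Box d M).card ≤ 1 := by
  classical
  have hmz : ∀ z, Measurable (lw ω β h 0 z n) := fun z =>
    (meas_lw_nb β h z n).mono (sg_le he _) le_rfl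
  have hinter := prob_inter hi' hd he β h n (s0 + c0)
    (fun (i : Fin d → ℤ) k => (2 * n + 1 : ℤ) * i k) (Box d M)
    (fun i j hij => nb_disjoint n i j hij)
  set I : Set Ω := ⋂ j ∈ Box d M,
    {x | lw ω β h 0 (fun k => (2 * n + 1 : ℤ) * j k) n x < s0 + c0} with hI
  have hmI : MeasurableSet I := Finset.measurableSet_biInter _ fun j _ => (hmz _) measurableSet_Iio
  have e0 : {x | s0 ≤ lw ω β h 0 0 n x - c0} = {x | lw ω β h 0 0 n x < s0 + c0}ᶜ := by
    ext x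
    simp only [Set.mem_setOf_eq, Set.mem_compl_iff, not_lt]
    constructor <;> intro h1 <;> linarith
  have e1 : P.real {x | s0 ≤ lw ω β h 0 0 n x - c0} =
      1 - P.real {x | lw ω β h 0 0 n x < s0 + c0} := by
    have hm0 : MeasurableSet {x | lw ω β h 0 0 n x < s0 + c0} :=
      measurableSet_lt (hmz 0) measurable_const
    rw [e0, probReal_compl_eq_one_sub hm0]
  have h3 : P.real I = (P.real {x | lw ω β h 0 0 n x < s0 + c0}) ^ (Box d M).card := by
    rw [measureReal_def, hinter, ENNReal.toReal_pow, ← measureReal_def]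
  have h6 : Iᶜ ⊆ {x | ∃ z : Fin d → ℤ, (∀ k, |(z k : ℝ)| ≤ (n : ℝ) ^ A) ∧
      s0 ≤ lw ω β h 0 z n x - c0} := by
    intro x hx
    rw [hI] at hx
    simp only [Set.mem_compl_iff, Set.mem_iInter, Set.mem_setOf_eq, not_forall, not_lt] at hx
    obtain ⟨j, hj, hx⟩ := hx
    exact ⟨fun k => (2 * n + 1 : ℤ) * j k, fun k => grid_le hn hM hj k, by linarith⟩
  have h4 : P.real Iᶜ ≤ 1 / 2 := (measureReal_mono h6).trans H
  rw [probReal_compl_eq_one_sub hmI, h3] at h4
  refine pg_le measureReal_le_one ?_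
  rw [e1]
  have e5 : 1 - (1 - P.real {x | lw ω β h 0 0 n x < s0 + c0}) =
      P.real {x | lw ω β h 0 0 n x < s0 + c0} := by ring
  rw [e5]
  linarith

/-- the maximum over the starting points in probability controls the upper tail -/
theorem polyUp_of_max (hi' : S_ID) (hd : 1 ≤ d) (he : IsEnv P ω) {A ζ : ℝ} (hA : 2 < A)
    (c : (Fin d → ℝ) → ℕ → ℝ)
    (H : MaxUp P U A (fun h z n x => lw ω β h 0 z n x - c h n) ζ) :
    PolyUp P d U (fun h n x => lw ω β h 0 0 n x - c h n) ζ := by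
  classical
  obtain ⟨N, hN⟩ := H (1 / 2) (by norm_num)
  have d0 : (0 : ℝ) < d := by exact_mod_cast hd
  set q : ℝ := (A - 1) * d with hq
  have hqd : (d : ℝ) < q := by rw [hq]; nlinarith
  have q0 : 0 < q := d0.trans hqd
  refine ⟨q, max (3 ^ d) ((N : ℝ) ^ q), hqd, fun h hh n hn => ?_⟩
  have n0 : (0 : ℝ) < n := by exact_mod_cast hn
  have n1 : (1 : ℝ) ≤ n := by exact_mod_cast hn
  have hnq : 0 < (n : ℝ) ^ (-q) := Real.rpow_pos_of_pos n0 _
  rcases lt_or_ge n N with h1 | h1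
  · refine prob_le_one.trans (ENNReal.one_le_ofReal.2 ?_)
    have h2 : (1 : ℝ) ≤ (N : ℝ) ^ q * (n : ℝ) ^ (-q) := by
      have h3 : (n : ℝ) ^ q ≤ (N : ℝ) ^ q :=
        Real.rpow_le_rpow n0.le (by exact_mod_cast h1.le) q0.le
      calc (1 : ℝ) = (n : ℝ) ^ q * (n : ℝ) ^ (-q) := by rw [← Real.rpow_add n0]; simp
        _ ≤ _ := by gcongr
    exact h2.trans (mul_le_mul_of_nonneg_right (le_max_right _ _) hnq.le)
  -- the grid
  obtain ⟨M, hM1, hM2⟩ : ∃ M : ℕ, (M : ℝ) ≤ (n : ℝ) ^ A / (3 * n) ∧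
      (n : ℝ) ^ A / (3 * n) < M + 1 :=
    ⟨⌊(n : ℝ) ^ A / (3 * n)⌋₊, Nat.floor_le (by positivity), Nat.lt_floor_add_one _⟩
  have hN' : P.real {x | ∃ z : Fin d → ℤ, (∀ k, |(z k : ℝ)| ≤ (n : ℝ) ^ A) ∧
      (n : ℝ) ^ ζ ≤ lw ω β h 0 z n x - c h n} ≤ 1 / 2 :=
    ENNReal.toReal_le_of_le_ofReal (by norm_num) (hN n h1 h hh)
  have h6 := max_one hi' hd he hn hN' M hM1
  set p : ℝ := P.real {x | (n : ℝ) ^ ζ ≤ lw ω β h 0 0 n x - c h n} with hp
  have hp0 : 0 ≤ p := measureReal_nonneg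
  have h7 : (n : ℝ) ^ q / 3 ^ d ≤ (Box d M).card := by
    rw [card_Box]
    have e2 : (n : ℝ) ^ q / 3 ^ d = ((n : ℝ) ^ A / (3 * n)) ^ d := by
      have e3 : (n : ℝ) ^ A / (3 * n) = (n : ℝ) ^ (A - 1) / 3 := by
        rw [Real.rpow_sub n0, Real.rpow_one]; field_simp
      rw [e3, div_pow, ← Real.rpow_natCast ((n : ℝ) ^ (A - 1)), ← Real.rpow_mul n0.le]
    rw [e2]
    have h12 : (n : ℝ) ^ A / (3 * n) ≤ 2 * M + 1 := by
      have : (0 : ℝ) ≤ M := Nat.cast_nonneg M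
      linarith
    exact pow_le_pow_left₀ (by positivity) h12 d
  have h8 : p * ((n : ℝ) ^ q / 3 ^ d) ≤ 1 := (mul_le_mul_of_nonneg_left h7 hp0).trans h6
  have h9 : p ≤ 3 ^ d * (n : ℝ) ^ (-q) := by
    rw [Real.rpow_neg n0.le]
    have h10 : 0 < (n : ℝ) ^ q := Real.rpow_pos_of_pos n0 _
    rw [← div_eq_mul_inv, le_div_iff₀ h10]
    rw [← mul_div_assoc, div_le_one (by positivity)] at h8
    exact h8
  have h10 : P {x | (n : ℝ) ^ ζ ≤ lw ω β h 0 0 n x - c h n} = ENNReal.ofReal p := by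
    rw [hp, ofReal_measureReal]
  refine h10.le.trans (ENNReal.ofReal_le_ofReal (h9.trans ?_))
  exact mul_le_mul_of_nonneg_right (le_max_left _ _) hnq.le

/-- all powers control the maximum over the starting points -/
theorem max_of_polyUp (hi' : S_ID) (hd : 1 ≤ d) (he : IsEnv P ω) {A ζ : ℝ} (hA : 0 < A)
    (c : (Fin d → ℝ) → ℕ → ℝ)
    (H : PolyUp P (A * d) U (fun h n x => lw ω β h 0 0 n x - c h n) ζ) :
    MaxUp P U A (fun h z n x => lw ω β h 0 z n x - c h n) ζ := by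
  obtain ⟨q, C, hq, H⟩ := H
  intro ε hε
  have h1 : Tendsto (fun n : ℕ => 3 ^ d * |C| * (n : ℝ) ^ (-(q - A * d))) atTop
      (𝓝 (3 ^ d * |C| * 0)) :=
    ((tendsto_rpow_neg_atTop (by linarith)).comp tendsto_natCast_atTop_atTop).const_mul _
  rw [mul_zero] at h1
  obtain ⟨N, hN⟩ := eventually_atTop.1 (h1.eventually (ge_mem_nhds hε))
  refine ⟨max N 1, fun n hn h hh => ?_⟩
  have hn1 : 1 ≤ n := (le_max_right _ _).trans hn
  have n0 : (0 : ℝ) < n := by exact_mod_cast hn1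
  have n1 : (1 : ℝ) ≤ n := by exact_mod_cast hn1
  have h2 := hN n ((le_max_left _ _).trans hn)
  set M : ℕ := ⌊(n : ℝ) ^ A⌋₊ with hM
  have hnA : 1 ≤ (n : ℝ) ^ A := Real.one_le_rpow n1 hA.le
  have hM1 : (M : ℝ) ≤ (n : ℝ) ^ A := Nat.floor_le (by linarith)
  have hsub : {x | ∃ z : Fin d → ℤ, (∀ k, |(z k : ℝ)| ≤ (n : ℝ) ^ A) ∧
      (n : ℝ) ^ ζ ≤ lw ω β h 0 z n x - c h n} ⊆
      ⋃ z ∈ Box d M, {x | (n : ℝ) ^ ζ ≤ lw ω β h 0 z n x - c h n} := by
    rintro x ⟨z, hz, hx⟩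
    refine Set.mem_iUnion₂.2 ⟨z, ?_, hx⟩
    show z ∈ Fintype.piFinset (fun _ => Finset.Icc (-(M : ℤ)) M)
    refine Fintype.mem_piFinset.2 fun k => Finset.mem_Icc.2 ?_
    have h3 : (z k).natAbs ≤ M := by
      refine Nat.le_floor ?_
      have h4 := hz k
      rw [Nat.cast_natAbs]
      push_cast
      exact h4
    omega
  have hid : ∀ z : Fin d → ℤ, P {x | (n : ℝ) ^ ζ ≤ lw ω β h 0 z n x - c h n} =
      P {x | (n : ℝ) ^ ζ ≤ lw ω β h 0 0 n x - c h n} := fun z =>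
    ((hi' d hd Ω P ω he β h 0 z n).comp (measurable_id.sub_const (c h n))).measure_mem_eq
      measurableSet_Ici
  calc P {x | ∃ z : Fin d → ℤ, (∀ k, |(z k : ℝ)| ≤ (n : ℝ) ^ A) ∧
        (n : ℝ) ^ ζ ≤ lw ω β h 0 z n x - c h n}
      ≤ ∑ z ∈ Box d M, P {x | (n : ℝ) ^ ζ ≤ lw ω β h 0 z n x - c h n} :=
        (measure_mono hsub).trans (measure_biUnion_finset_le _ _)
    _ = (Box d M).card * P {x | (n : ℝ) ^ ζ ≤ lw ω β h 0 0 n x - c h n} := by
        rw [Finset.sum_congr rfl fun z _ => hid z, Finset.sum_const, nsmul_eq_mul]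
    _ ≤ ENNReal.ofReal ((3 * (n : ℝ) ^ A) ^ d) * ENNReal.ofReal (|C| * (n : ℝ) ^ (-q)) := by
        gcongr
        · rw [← ENNReal.ofReal_natCast, card_Box]
          refine ENNReal.ofReal_le_ofReal ?_
          gcongr
          linarith
        · refine (H h hh n hn1).trans (ENNReal.ofReal_le_ofReal ?_)
          exact mul_le_mul_of_nonneg_right (le_abs_self _) (Real.rpow_nonneg n0.le _)
    _ ≤ ENNReal.ofReal ε := by
        rw [← ENNReal.ofReal_mul (by positivity)]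
        refine ENNReal.ofReal_le_ofReal (le_trans (le_of_eq ?_) h2)
        rw [mul_pow, ← Real.rpow_natCast ((n : ℝ) ^ A), ← Real.rpow_mul n0.le]
        have e1 : (n : ℝ) ^ (-(q - A * d)) = (n : ℝ) ^ (A * d) * (n : ℝ) ^ (-q) := by
          rw [← Real.rpow_add n0]; congr 1; ring
        rw [e1]; ring

end

end Pool.Agent.Run7.h981.ME
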