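import Pool.Agent.Run7.h981.ME.Two
import Pool.Agent.Run7.h981.ME.LD
import Pool.Agent.Run7.h981.ME.Max

/-!
# Directed polymers: assembly
-/

set_option autoImplicit false

open MeasureTheory ProbabilityTheory Filter Topology
open scoped ENNReal

namespace Pool.Agent.Run7.h981.ME

open TH967.DP
open Pool.Agent.N662.SE
open Pool.Agent.Run7.h208.WT

variable {d : ℕ}

section
variable {Ω : Type} [mΩ : MeasurableSpace Ω] {P : Measure Ω} [IsProbabilityMeasure P]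
  {ω : ℕ → (Fin d → ℤ) → Ω → ℝ}

/-- the equivalences for the upper tail -/
theorem up_tfae (hi' : S_ID) (hd : 1 ≤ d) (he : IsEnv P ω) {β : ℝ} {U : Set (Fin d → ℝ)}
    {φ : (Fin d → ℝ) → ℝ} (R : ∀ h ∈ U, Reg P ω β h (φ h)) (Y : (Fin d → ℝ) → ℕ → Ω → ℝ)
    (hY : Y = fun h n x => lw ω β h 0 0 n x - n * φ h) {K : ℝ}
    (hK : 0 ≤ K) {A : ℝ} (hA : 2 < A) : List.TFAE [
      ∀ ζ ∈ Set.Ioo K 1, PolyUp P d U Y ζ,
      ∀ ζ ∈ Set.Ioo K 1, Contact U (fun h => lam P ω β h) φ ζ,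
      ∀ ζ ∈ Set.Ioo K 1, OptUp P U Y ζ,
      ∀ ζ ∈ Set.Ioo K 1, LDUp P U Y ζ,
      ∀ ζ ∈ Set.Ioo K 1, ∀ p : ℝ, 0 < p → MomBd P U (fun h n x => max (Y h n x) 0) p ζ,
      ∀ ζ ∈ Set.Ioo K 1, ExpBd P U (fun h n x => max (Y h n x) 0) ζ,
      ∀ ζ ∈ Set.Ioo K 1, MaxUp P U A (fun h z n x => lw ω β h 0 z n x - n * φ h) ζ] := by
  subst hY
  have hXm : ∀ h ∈ U, ∀ n : ℕ, Measurable fun x => lw ω β h 0 0 n x - n * φ h := fun h hh n =>
    ((R h hh).meas n).sub_const _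
  have pos : ∀ ζ ∈ Set.Ioo K 1, 0 < ζ := fun ζ hζ => hK.trans_lt hζ.1
  have mid : ∀ ζ ∈ Set.Ioo K 1, ∃ z ∈ Set.Ioo K 1, z < ζ := fun ζ hζ => by
    obtain ⟨z, h1, h2⟩ := exists_between hζ.1
    exact ⟨z, ⟨h1, h2.trans hζ.2⟩, h2⟩
  tfae_have 1 → 2 := fun H ζ hζ => by
    obtain ⟨z, hz, hzζ⟩ := mid ζ hζ
    rw [contact_iff (pos ζ hζ)]
    exact flat_of_polyUp hi' hd he R (pos z hz).le hz.2 hzζ (H z hz)
  tfae_have 2 → 3 := fun H ζ hζ =>
    tail_of_flat R (pos ζ hζ) hζ.2 ((contact_iff (pos ζ hζ)).1 (H ζ hζ))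
  tfae_have 3 → 1 := fun H ζ hζ => by
    obtain ⟨z, hz, hzζ⟩ := mid ζ hζ
    exact polyUp_of_optUp (pos z hz) hz.2 hzζ (H z hz)
  tfae_have 3 → 4 := fun H ζ hζ => by
    obtain ⟨z, hz, hzζ⟩ := mid ζ hζ
    exact ldUp_of_optUp (pos z hz) hzζ hζ.2 (H z hz)
  tfae_have 4 → 2 := fun H ζ hζ => by
    rw [contact_iff (pos ζ hζ)]
    exact flat_of_ld R (pos ζ hζ) hζ.2 (H ζ hζ)
  tfae_have 2 → 6 := fun H ζ hζ =>
    expBd_of_flat R (pos ζ hζ) ((contact_iff (pos ζ hζ)).1 (H ζ hζ))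
  tfae_have 6 → 5 := fun H ζ hζ p hp =>
    momBd_of_expBd (fun h hh n => (hXm h hh n).max measurable_const) hp (H ζ hζ)
  tfae_have 5 → 1 := fun H ζ hζ => by
    obtain ⟨z, hz, hzζ⟩ := mid ζ hζ
    exact polyUp_of_momBd hXm hzζ (H z hz)
  tfae_have 7 → 1 := fun H ζ hζ =>
    polyUp_of_max hi' hd he hA (fun h n => n * φ h) (H ζ hζ)
  tfae_have 3 → 7 := fun H ζ hζ => by
    obtain ⟨z, hz, hzζ⟩ := mid ζ hζ
    exact max_of_polyUp hi' hd he (by linarith) (fun h n => n * φ h)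
      (polyUp_of_optUp (pos z hz) hz.2 hzζ (H z hz))
  tfae_finish

/-- the equivalences for both tails -/
theorem two_tfae (mgf : S_MGF) (hi' : S_ID) (hd : 1 ≤ d) (he : IsEnv P ω)
    (hexp : ∀ b : ℝ, Integrable (fun x => Real.exp (b * ω 1 0 x)) P) {β : ℝ}
    {U : Set (Fin d → ℝ)} {φ : (Fin d → ℝ) → ℝ} (R : ∀ h ∈ U, Reg P ω β h (φ h))
    (Y Y0 : (Fin d → ℝ) → ℕ → Ω → ℝ)
    (hY : Y = fun h n x => lw ω β h 0 0 n x - n * φ h)
    (hY0 : Y0 = fun h n x => lw ω β h 0 0 n x - free P ω β h n) {K : ℝ}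
    (hK : 0 ≤ K) {A : ℝ} (hA : 2 < A) : List.TFAE [
      ∀ ζ ∈ Set.Ioo K 1, PolyUp P d U Y0 ζ,
      ∀ ζ ∈ Set.Ioo K 1, OptUp P U Y0 ζ,
      ∀ ζ ∈ Set.Ioo K 1, Contact U (fun h => lam P ω β h) φ ζ ∧
        ∀ᶠ n : ℕ in atTop, ∀ h ∈ U, n * φ h - free P ω β h n ≤ (n : ℝ) ^ ζ,
      ∀ ζ ∈ Set.Ioo K 1, Contact U (fun h => lam P ω β h) φ ζ ∧
        ∀ ε : ℝ, 0 < ε → ∃ N : ℕ, ∀ n : ℕ, N ≤ n → ∀ h ∈ U,
          P.real {x | Y h n x ≤ -(n : ℝ) ^ ζ} ≤ ε,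
      ∀ ζ ∈ Set.Ioo K 1, ExpBd P U Y ζ,
      ∀ ζ ∈ Set.Ioo K 1, ∀ p : ℝ, 0 < p → MomBd P U Y p ζ,
      ∀ ζ ∈ Set.Ioo K 1, ExpBd P U Y0 ζ,
      ∀ ζ ∈ Set.Ioo K 1, ∀ p : ℝ, 0 < p → MomBd P U Y0 p ζ,
      ∀ ζ ∈ Set.Ioo K 1, MaxUp P U A (fun h z n x => lw ω β h 0 z n x - free P ω β h n) ζ] := by
  subst hY hY0
  have hXm : ∀ h ∈ U, ∀ n : ℕ, Measurable fun x => lw ω β h 0 0 n x - n * φ h := fun h hh n =>
    ((R h hh).meas n).sub_const _
  have hXm0 : ∀ h ∈ U, ∀ n : ℕ, Measurable fun x => lw ω β h 0 0 n x - free P ω β h n :=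
    fun h hh n => ((R h hh).meas n).sub_const _
  have pos : ∀ ζ ∈ Set.Ioo K 1, 0 < ζ := fun ζ hζ => hK.trans_lt hζ.1
  have mid : ∀ ζ ∈ Set.Ioo K 1, ∃ z ∈ Set.Ioo K 1, z < ζ := fun ζ hζ => by
    obtain ⟨z, h1, h2⟩ := exists_between hζ.1
    exact ⟨z, ⟨h1, h2.trans hζ.2⟩, h2⟩
  tfae_have 1 → 3 := fun H ζ hζ => by
    obtain ⟨z, hz, hzζ⟩ := mid ζ hζ
    have h1 := mean_rate hi' hd he R (pos z hz).le hz.2 hzζ (H z hz)
    refine ⟨?_, h1⟩
    rw [contact_iff (pos ζ hζ)]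
    obtain ⟨q, C, hq, hC⟩ := H z hz
    refine flat_of_polyUp hi' hd he R (pos z hz).le hz.2 hzζ ⟨q, C, hq, fun h hh n hn => ?_⟩
    refine (measure_mono fun x hx => ?_).trans (hC h hh n hn)
    have h1 : (n : ℝ) ^ z ≤ lw ω β h 0 0 n x - n * φ h := hx
    have h2 := (R h hh).free_le n
    show (n : ℝ) ^ z ≤ lw ω β h 0 0 n x - free P ω β h n
    linarith
  tfae_have 3 → 4 := fun H ζ hζ => by
    obtain ⟨z, hz, hzζ⟩ := mid ζ hζ
    exact ⟨(H ζ hζ).1, fun ε hε => eventually_atTop.1 (low_of_mean R (pos z hz) hzζ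
      ((contact_iff (pos z hz)).1 (H z hz).1) (H z hz).2 ε hε)⟩
  tfae_have 4 → 5 := fun H ζ hζ => by
    obtain ⟨z, hz, hzζ⟩ := mid ζ hζ
    exact expBd_of_low mgf hd he hexp R (pos z hz) hzζ ((contact_iff (pos ζ hζ)).1 (H ζ hζ).1)
      fun ε hε => eventually_atTop.2 ((H z hz).2 ε hε)
  tfae_have 5 → 6 := fun H ζ hζ p hp => momBd_of_expBd hXm hp (H ζ hζ)
  tfae_have 6 → 8 := fun H ζ hζ p hp => central_of_mom R hp (H ζ hζ 1 one_pos) (H ζ hζ p hp)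
  tfae_have 5 → 7 := fun H ζ hζ =>
    central_of_exp R (momBd_of_expBd hXm one_pos (H ζ hζ)) (H ζ hζ)
  tfae_have 7 → 8 := fun H ζ hζ p hp => momBd_of_expBd hXm0 hp (H ζ hζ)
  tfae_have 6 → 2 := fun H ζ hζ => by
    have hpos : ∀ z ∈ Set.Ioo K 1, ∀ p : ℝ, 0 < p →
        MomBd P U (fun h n x => max (lw ω β h 0 0 n x - n * φ h) 0) p z :=
      fun z hz p hp => momBd_pos_of hp (H z hz p hp)
    have h9 := (up_tfae hi' hd he R _ rfl hK hA).out 4 2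
    have h10 := h9.1 hpos
    exact optUp_central R (pos ζ hζ) hζ.2 (h10 ζ hζ) (H ζ hζ 1 one_pos)
  tfae_have 2 → 1 := fun H ζ hζ => by
    obtain ⟨z, hz, hzζ⟩ := mid ζ hζ
    exact polyUp_of_optUp (pos z hz) hz.2 hzζ (H z hz)
  tfae_have 8 → 1 := fun H ζ hζ => by
    obtain ⟨z, hz, hzζ⟩ := mid ζ hζ
    exact polyUp_of_momBd hXm0 hzζ (fun p hp => momBd_pos_of hp (H z hz p hp))
  tfae_have 9 → 1 := fun H ζ hζ =>
    polyUp_of_max hi' hd he hA (fun h n => free P ω β h n) (H ζ hζ)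
  tfae_have 2 → 9 := fun H ζ hζ => by
    obtain ⟨z, hz, hzζ⟩ := mid ζ hζ
    exact max_of_polyUp hi' hd he (by linarith) (fun h n => free P ω β h n)
      (polyUp_of_optUp (pos z hz) hz.2 hzζ (H z hz))
  tfae_finish

/-- the limit and the regularity -/
theorem exists_reg (mgf : S_MGF) (hd : 1 ≤ d) (he : IsEnv P ω)
    (hexp : ∀ b : ℝ, Integrable (fun x => Real.exp (b * ω 1 0 x)) P) (β : ℝ) :
    ∃ φ : (Fin d → ℝ) → ℝ, ∀ h, Reg P ω β h (φ h) := by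
  have hc : S_CONC := Pool.Agent.N523.SE.CONC.main mgf
  have hs : S_SUP := Pool.Agent.N50.SE.SUP.main hc
  have hv : S_CVX := Pool.Agent.N50.SE.CVX.main hc
  have hdb : S_DBL := Pool.Agent.N97.SE.DBL.main hc
  have hr : S_RATE := Pool.Agent.N353.SE.Rate.main hs hdb hv
  have hi' : S_ID := Pool.Agent.N951.SE.t
  obtain ⟨φ', C1, hconv, hφ'⟩ := hr d hd Ω P ω he hexp β
  refine ⟨φ', fun h => reg hc hi' hd he hexp β h (fun n => (hφ' h n).1) ?_⟩
  have h3 : Tendsto (fun n : ℕ => φ' h - C1 * (Real.sqrt n * Real.log (n + 1) / n)) atTop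
      (𝓝 (φ' h - C1 * 0)) := (sqrt_log_div.const_mul C1).const_sub _
  rw [mul_zero, sub_zero] at h3
  refine tendsto_of_tendsto_of_tendsto_of_le_of_le' h3 tendsto_const_nhds ?_ ?_
  · filter_upwards [eventually_ge_atTop 1] with n hn
    have hn0 : (0 : ℝ) < n := by exact_mod_cast hn
    rw [le_div_iff₀ hn0]
    have h4 := (hφ' h n).2
    have h5 : (φ' h - C1 * (Real.sqrt n * Real.log (n + 1) / n)) * n =
        n * φ' h - C1 * Real.sqrt n * Real.log (n + 1) := by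
      field_simp
    rw [h5]
    linarith
  · filter_upwards [eventually_ge_atTop 1] with n hn
    have hn0 : (0 : ℝ) < n := by exact_mod_cast hn
    rw [div_le_iff₀ hn0, mul_comm]
    exact (hφ' h n).1

/-- the moments of the partition function -/
theorem moments (hd : 1 ≤ d) {β : ℝ} {h : Fin d → ℝ} {φ : ℝ} (R : Reg P ω β h φ) {t : ℝ}
    (h0 : 0 < t) (h4 : t ≤ 1 / 4) (n : ℕ) :
    Integrable (fun x => Real.exp (t * logZ β h (fun i y => ω i y x) n)) P ∧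
    Real.exp (n * (lam P ω β h t - t * Real.log (2 * (d : ℝ)))) ≤
      (2 * n + 1) ^ d * ∫ x, Real.exp (t * logZ β h (fun i y => ω i y x) n) ∂P ∧
    ∫ x, Real.exp (t * logZ β h (fun i y => ω i y x) n) ∂P ≤
      Real.exp (n * (lam P ω β h t - t * Real.log (2 * (d : ℝ)))) := by
  have hm : Measurable fun x => Real.exp (t * lw ω β h 0 0 n x) :=
    Real.measurable_exp.comp ((R.meas n).const_mul t)
  have hint : Integrable (fun x => Real.exp (t * lw ω β h 0 0 n x)) P := by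
    refine ⟨hm.aestronglyMeasurable, ?_⟩
    rw [hasFiniteIntegral_iff_ofReal (Eventually.of_forall fun x => (Real.exp_pos _).le)]
    exact lt_top_iff_ne_top.2 (R.top t h0 h4 n)
  have hval : ∫ x, Real.exp (t * lw ω β h 0 0 n x) ∂P = Real.exp (LL P ω β h t n) := by
    have h1 : ENNReal.ofReal (∫ x, Real.exp (t * lw ω β h 0 0 n x) ∂P) =
        EX (LL P ω β h t n) := by
      rw [ofReal_integral_eq_lintegral_ofReal hint
        (Eventually.of_forall fun x => (Real.exp_pos _).le), EX_LL R h0 h4]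
      rfl
    unfold EX at h1
    rwa [ENNReal.ofReal_eq_ofReal_iff (integral_nonneg fun x => (Real.exp_pos _).le)
      (Real.exp_pos _).le] at h1
  have e1 : ∀ x, Real.exp (t * logZ β h (fun i y => ω i y x) n) =
      Real.exp (-(t * (n * Real.log (2 * (d : ℝ))))) * Real.exp (t * lw ω β h 0 0 n x) := by
    intro x
    rw [logZ_eq hd, ← Real.exp_add]; congr 1; ring
  simp_rw [e1]
  rw [integral_const_mul, hval, ← Real.exp_add]
  obtain ⟨-, h5, h6⟩ := lam_spec R h0 h4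
  refine ⟨hint.const_mul _, ?_, Real.exp_le_exp.2 ?_⟩
  · have h7 : (2 * (n : ℝ) + 1) ^ d = Real.exp (d * Real.log (2 * n + 1)) := by
      rw [Real.exp_nat_mul, Real.exp_log (by positivity)]
    rw [h7, ← Real.exp_add]
    refine Real.exp_le_exp.2 ?_
    have := h6 n
    linarith
  · have := h5 n
    linarith

/-- everything in terms of `logZ` -/
theorem all (mgf : S_MGF) (hd : 1 ≤ d) (he : IsEnv P ω)
    (hexp : ∀ b : ℝ, Integrable (fun x => Real.exp (b * ω 1 0 x)) P) (β : ℝ) :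
    ∃ (φ : (Fin d → ℝ) → ℝ) (Λ : (Fin d → ℝ) → ℝ → ℝ),
    (∀ h, Tendsto (fun n : ℕ => (∫ x, logZ β h (fun i y => ω i y x) n ∂P) / n) atTop
      (𝓝 (φ h))) ∧
    (∀ (h : Fin d → ℝ) (t : ℝ), 0 < t → t ≤ 1 / 4 → ∀ n : ℕ,
      Integrable (fun x => Real.exp (t * logZ β h (fun i y => ω i y x) n)) P ∧
      Real.exp (n * Λ h t) ≤
        (2 * n + 1) ^ d * ∫ x, Real.exp (t * logZ β h (fun i y => ω i y x) n) ∂P ∧
      ∫ x, Real.exp (t * logZ β h (fun i y => ω i y x) n) ∂P ≤ Real.exp (n * Λ h t)) ∧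
    (∀ U : Set (Fin d → ℝ), ∀ ζ : ℝ, 1 / 2 < ζ → Contact U Λ φ ζ) ∧
    ∀ (U : Set (Fin d → ℝ)) (K A : ℝ), 0 ≤ K → 2 < A →
      List.TFAE [
        ∀ ζ ∈ Set.Ioo K 1, PolyUp P d U
          (fun h n x => logZ β h (fun i y => ω i y x) n - n * φ h) ζ,
        ∀ ζ ∈ Set.Ioo K 1, Contact U Λ φ ζ,
        ∀ ζ ∈ Set.Ioo K 1, OptUp P U
          (fun h n x => logZ β h (fun i y => ω i y x) n - n * φ h) ζ,
        ∀ ζ ∈ Set.Ioo K 1, LDUp P U
          (fun h n x => logZ β h (fun i y => ω i y x) n - n * φ h) ζ,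
        ∀ ζ ∈ Set.Ioo K 1, ∀ p : ℝ, 0 < p → MomBd P U
          (fun h n x => max (logZ β h (fun i y => ω i y x) n - n * φ h) 0) p ζ,
        ∀ ζ ∈ Set.Ioo K 1, ExpBd P U
          (fun h n x => max (logZ β h (fun i y => ω i y x) n - n * φ h) 0) ζ,
        ∀ ζ ∈ Set.Ioo K 1, MaxUp P U A
          (fun h z n x => logZ β h (fun i y => ω i (z + y) x) n - n * φ h) ζ] ∧
      ((∀ ζ ∈ Set.Ioo K 1, Contact U Λ φ ζ) → ∀ ζ ∈ Set.Ioo K 1, ∀ q : ℝ, (d : ℝ) < q →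
        ∀ᶠ n : ℕ in atTop, ∀ h ∈ U, (n : ℝ) ^ (-q) ≤
          P.real {x | n * φ h - (n : ℝ) ^ ζ ≤ logZ β h (fun i y => ω i y x) n}) ∧
      List.TFAE [
        ∀ ζ ∈ Set.Ioo K 1, PolyUp P d U (fun h n x => logZ β h (fun i y => ω i y x) n -
          ∫ x', logZ β h (fun i y => ω i y x') n ∂P) ζ,
        ∀ ζ ∈ Set.Ioo K 1, OptUp P U (fun h n x => logZ β h (fun i y => ω i y x) n -
          ∫ x', logZ β h (fun i y => ω i y x') n ∂P) ζ,
        ∀ ζ ∈ Set.Ioo K 1, Contact U Λ φ ζ ∧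
          MeanRate P U (fun h n x => logZ β h (fun i y => ω i y x) n) φ ζ,
        ∀ ζ ∈ Set.Ioo K 1, Contact U Λ φ ζ ∧ LowTail P ω β φ U ζ,
        ∀ ζ ∈ Set.Ioo K 1, ExpBd P U
          (fun h n x => logZ β h (fun i y => ω i y x) n - n * φ h) ζ,
        ∀ ζ ∈ Set.Ioo K 1, ∀ p : ℝ, 0 < p → MomBd P U
          (fun h n x => logZ β h (fun i y => ω i y x) n - n * φ h) p ζ,
        ∀ ζ ∈ Set.Ioo K 1, ExpBd P U (fun h n x => logZ β h (fun i y => ω i y x) n -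
          ∫ x', logZ β h (fun i y => ω i y x') n ∂P) ζ,
        ∀ ζ ∈ Set.Ioo K 1, ∀ p : ℝ, 0 < p → MomBd P U
          (fun h n x => logZ β h (fun i y => ω i y x) n -
            ∫ x', logZ β h (fun i y => ω i y x') n ∂P) p ζ,
        ∀ ζ ∈ Set.Ioo K 1, MaxUp P U A
          (fun h z n x => logZ β h (fun i y => ω i (z + y) x) n -
            ∫ x', logZ β h (fun i y => ω i y x') n ∂P) ζ] := by
  have hi' : S_ID := Pool.Agent.N951.SE.t
  obtain ⟨φ', R⟩ := exists_reg mgf hd he hexp β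
  set c0 : ℝ := Real.log (2 * (d : ℝ)) with hc0
  have eX : (fun (h : Fin d → ℝ) (n : ℕ) (x : Ω) => logZ β h (fun i y => ω i y x) n -
      n * (φ' h - c0)) = fun h n x => lw ω β h 0 0 n x - n * φ' h := by
    funext h n x
    rw [logZ_eq hd]; ring
  have eX' : (fun (h : Fin d → ℝ) (n : ℕ) (x : Ω) => max (logZ β h (fun i y => ω i y x) n -
      n * (φ' h - c0)) 0) = fun h n x => max (lw ω β h 0 0 n x - n * φ' h) 0 := by
    funext h n x
    rw [logZ_eq hd]; congr 1; ring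
  have eX0 : (fun (h : Fin d → ℝ) (n : ℕ) (x : Ω) => logZ β h (fun i y => ω i y x) n -
      ∫ x', logZ β h (fun i y => ω i y x') n ∂P) =
      fun h n x => lw ω β h 0 0 n x - free P ω β h n := by
    funext h n x
    rw [logZ_sub hd ((R h).int n)]
  have eXz : (fun (h : Fin d → ℝ) (z : Fin d → ℤ) (n : ℕ) (x : Ω) =>
      logZ β h (fun i y => ω i (z + y) x) n - n * (φ' h - c0)) =
      fun h z n x => lw ω β h 0 z n x - n * φ' h := by
    funext h z n x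
    rw [logZ_eq hd (fun i y => ω i (z + y)), lw_shift]; ring
  have eXz0 : (fun (h : Fin d → ℝ) (z : Fin d → ℤ) (n : ℕ) (x : Ω) =>
      logZ β h (fun i y => ω i (z + y) x) n - ∫ x', logZ β h (fun i y => ω i y x') n ∂P) =
      fun h z n x => lw ω β h 0 z n x - free P ω β h n := by
    funext h z n x
    rw [logZ_eq hd (fun i y => ω i (z + y)), lw_shift, integral_logZ hd ((R h).int n)]; ring
  have eC : ∀ (U : Set (Fin d → ℝ)) (ζ : ℝ),
      Contact U (fun h t => lam P ω β h t - t * c0) (fun h => φ' h - c0) ζ =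
        Contact U (fun h => lam P ω β h) φ' ζ := by
    intro U ζ
    unfold Contact
    apply propext
    refine eventually_congr (Eventually.of_forall fun t => ?_)
    constructor <;> intro h1 h hh <;> linarith [h1 h hh]
  have eM : ∀ (h : Fin d → ℝ) (n : ℕ), n * (φ' h - c0) -
      ∫ x, logZ β h (fun i y => ω i y x) n ∂P = n * φ' h - free P ω β h n := by
    intro h n
    rw [integral_logZ hd ((R h).int n)]; ring
  have eL : ∀ (U : Set (Fin d → ℝ)) (ζ : ℝ), LowTail P ω β (fun h => φ' h - c0) U ζ =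
      ∀ ε : ℝ, 0 < ε → ∃ N : ℕ, ∀ n : ℕ, N ≤ n → ∀ h ∈ U,
          P.real {x | lw ω β h 0 0 n x - n * φ' h ≤ -(n : ℝ) ^ ζ} ≤ ε := by
    intro U ζ
    have e1 : ∀ (h : Fin d → ℝ) (n : ℕ), {x | logZ β h (fun i y => ω i y x) n ≤
        n * (φ' h - c0) - (n : ℝ) ^ ζ} =
        {x | lw ω β h 0 0 n x - n * φ' h ≤ -(n : ℝ) ^ ζ} := by
      intro h n
      ext x
      show logZ β h (fun i y => ω i y x) n ≤ n * (φ' h - c0) - (n : ℝ) ^ ζ ↔
        lw ω β h 0 0 n x - n * φ' h ≤ -(n : ℝ) ^ ζ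
      rw [logZ_eq hd]
      constructor <;> intro h1 <;> linarith
    unfold LowTail
    simp_rw [e1]
  refine ⟨fun h => φ' h - c0, fun h t => lam P ω β h t - t * c0, fun h => ?_,
    fun h t h0 h4 n => moments hd (R h) h0 h4 n, fun U ζ hζ => ?_,
    fun U K A hK hA => ⟨?_, ?_, ?_⟩⟩
  · refine ((R h).lim.sub_const c0).congr' ?_
    filter_upwards [eventually_ge_atTop 1] with n hn
    have n0 : (0 : ℝ) < n := by exact_mod_cast hn
    rw [integral_logZ hd ((R h).int n), sub_div, mul_comm (n : ℝ), mul_div_assoc, div_self n0.ne',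
      mul_one]
  · rw [eC, contact_iff (by linarith)]
    exact flat_half (fun h _ => R h) hζ
  · simp only [eC, eX, eX', eXz]
    exact up_tfae hi' hd he (fun h _ => R h) _ rfl hK hA
  · simp only [eC]
    intro H ζ hζ q hq
    obtain ⟨z, hz1, hz2⟩ := exists_between hζ.1
    have hz0 : 0 < z := hK.trans_lt hz1
    have h1 := lower_prob hd (fun h _ => R h) hz0 hz2 hq
      ((contact_iff hz0).1 (H z ⟨hz1, hz2.trans hζ.2⟩))
    filter_upwards [h1] with n h2 h hh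
    refine (h2 h hh).trans (le_of_eq ?_)
    congr 1
    ext x
    show -(n : ℝ) ^ ζ ≤ lw ω β h 0 0 n x - n * φ' h ↔
      n * (φ' h - c0) - (n : ℝ) ^ ζ ≤ logZ β h (fun i y => ω i y x) n
    rw [logZ_eq hd]
    constructor <;> intro h1 <;> linarith
  · simp only [MeanRate, eC, eX, eX0, eXz0, eM, eL]
    exact two_tfae mgf hi' hd he hexp (fun h _ => R h) _ _ rfl rfl hK hA

end

end Pool.Agent.Run7.h981.ME
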