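import Pool.Agent.Run7.h981.ME.Basic

/-!
# Directed polymers: the growth rate of the moments
-/

set_option autoImplicit false

open MeasureTheory ProbabilityTheory Filter Topology
open scoped ENNReal

namespace Pool.Agent.Run7.h981.ME

open TH967.DP
open Pool.Agent.N662.SE
open Pool.Agent.Run7.h208.WT

variable {d : ℕ}

section
variable {Ω : Type} [mΩ : MeasurableSpace Ω] (P : Measure Ω) [IsProbabilityMeasure P]
  (ω : ℕ → (Fin d → ℤ) → Ω → ℝ)

/-- the logarithm of the moment of order `l` -/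
noncomputable def LL (β : ℝ) (h : Fin d → ℝ) (l : ℝ) (n : ℕ) : ℝ :=
  Real.log (MM P ω β h l n).toReal

/-- the growth rate of the moment of order `l` -/
noncomputable def lam (β : ℝ) (h : Fin d → ℝ) (l : ℝ) : ℝ :=
  limUnder atTop fun n : ℕ => LL P ω β h l n / n

variable {P ω}

/-- the facts about the moments of small order which are used below -/
structure Reg (P : Measure Ω) (ω : ℕ → (Fin d → ℤ) → Ω → ℝ) (β : ℝ) (h : Fin d → ℝ) (φ : ℝ) :
    Prop where
  meas : ∀ n, Measurable (lw ω β h 0 0 n)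
  int : ∀ n, Integrable (lw ω β h 0 0 n) P
  top : ∀ l : ℝ, 0 < l → l ≤ 1 / 4 → ∀ n, MM P ω β h l n ≠ ∞
  ge : ∀ l : ℝ, ∀ n, EX (l * free P ω β h n) ≤ MM P ω β h l n
  le : ∀ l : ℝ, 0 < l → l ≤ 1 / 4 → ∀ n,
    MM P ω β h l n ≤ EX (l * free P ω β h n + 16 * mom P ω β * l ^ 2 * n)
  sub : ∀ l : ℝ, 0 < l → l ≤ 1 / 4 → ∀ a b,
    MM P ω β h l (a + b) ≤ MM P ω β h l a * ((Box d a).card * MM P ω β h l b)
  sup : ∀ l : ℝ, 0 < l → l ≤ 1 / 4 → ∀ a b,
    MM P ω β h l a * MM P ω β h l b ≤ MM P ω β h l (a + b)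
  free_le : ∀ n : ℕ, free P ω β h n ≤ n * φ
  lim : Tendsto (fun n : ℕ => free P ω β h n / n) atTop (𝓝 φ)

lemma reg (hc : S_CONC) (hi' : S_ID) (hd : 1 ≤ d) (he : IsEnv P ω)
    (hexp : ∀ b : ℝ, Integrable (fun x => Real.exp (b * ω 1 0 x)) P) (β : ℝ) (h : Fin d → ℝ)
    {φ : ℝ} (h1 : ∀ n : ℕ, free P ω β h n ≤ n * φ)
    (h2 : Tendsto (fun n : ℕ => free P ω β h n / n) atTop (𝓝 φ)) : Reg P ω β h φ where
  meas n := (hc d hd Ω P ω he hexp β h 0 0 n).1
  int n := (hc d hd Ω P ω he hexp β h 0 0 n).2.1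
  top l h0 hl n := MM_ne_top hc hd he hexp β h (by rw [abs_of_pos h0]; exact hl) n
  ge l n := MM_ge hc hd he hexp β h l n
  le l h0 hl n := MM_le hc hd he hexp β h (by rw [abs_of_pos h0]; exact hl) n
  sub l h0 hl a b := MM_sub hc hi' hd he hexp β h h0 hl a b
  sup l h0 hl a b := MM_sup hi' hd he β h h0.le (by linarith) a b
  free_le := h1
  lim := h2

variable {β : ℝ} {h : Fin d → ℝ} {φ : ℝ}

omit [IsProbabilityMeasure P] in
lemma EX_LL (R : Reg P ω β h φ) {l : ℝ} (h0 : 0 < l) (hl : l ≤ 1 / 4) (n : ℕ) :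
    EX (LL P ω β h l n) = MM P ω β h l n := by
  have h1 : MM P ω β h l n ≠ 0 := ((EX_pos _).trans_le (R.ge l n)).ne'
  have h2 : 0 < (MM P ω β h l n).toReal := ENNReal.toReal_pos h1 (R.top l h0 hl n)
  unfold LL EX
  rw [Real.exp_log h2, ENNReal.ofReal_toReal (R.top l h0 hl n)]

lemma EX_le_iff {s t : ℝ} : EX s ≤ EX t ↔ s ≤ t := by
  unfold EX
  rw [ENNReal.ofReal_le_ofReal_iff (Real.exp_pos _).le, Real.exp_le_exp]

lemma card_EX (d n : ℕ) : ((Box d n).card : ℝ≥0∞) = EX (d * Real.log (2 * n + 1)) := by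
  have h0 : (0 : ℝ) < 2 * n + 1 := by positivity
  have h1 : Real.exp (d * Real.log (2 * n + 1)) = ((Box d n).card : ℝ) := by
    rw [card_Box, Real.exp_nat_mul, Real.exp_log h0]
  unfold EX
  rw [h1, ENNReal.ofReal_natCast]

omit [IsProbabilityMeasure P] in
lemma LL_sup (R : Reg P ω β h φ) {l : ℝ} (h0 : 0 < l) (hl : l ≤ 1 / 4) (a b : ℕ) :
    LL P ω β h l a + LL P ω β h l b ≤ LL P ω β h l (a + b) := by
  rw [← EX_le_iff, EX_add, EX_LL R h0 hl, EX_LL R h0 hl, EX_LL R h0 hl]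
  exact R.sup l h0 hl a b

omit [IsProbabilityMeasure P] in
lemma LL_sub (R : Reg P ω β h φ) {l : ℝ} (h0 : 0 < l) (hl : l ≤ 1 / 4) (a b : ℕ) :
    LL P ω β h l (a + b) ≤ LL P ω β h l a + (d * Real.log (2 * a + 1) + LL P ω β h l b) := by
  rw [← EX_le_iff, EX_add, EX_add, EX_LL R h0 hl, EX_LL R h0 hl, EX_LL R h0 hl, ← card_EX]
  exact R.sub l h0 hl a b

omit [IsProbabilityMeasure P] in
lemma LL_ge (R : Reg P ω β h φ) {l : ℝ} (h0 : 0 < l) (hl : l ≤ 1 / 4) (n : ℕ) :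
    l * free P ω β h n ≤ LL P ω β h l n := by
  rw [← EX_le_iff, EX_LL R h0 hl]
  exact R.ge l n

omit [IsProbabilityMeasure P] in
lemma LL_le (R : Reg P ω β h φ) {l : ℝ} (h0 : 0 < l) (hl : l ≤ 1 / 4) (n : ℕ) :
    LL P ω β h l n ≤ n * (l * φ + 16 * mom P ω β * l ^ 2) := by
  have h1 : LL P ω β h l n ≤ l * free P ω β h n + 16 * mom P ω β * l ^ 2 * n := by
    rw [← EX_le_iff, EX_LL R h0 hl]
    exact R.le l h0 hl n
  have h2 := mul_le_mul_of_nonneg_left (R.free_le n) h0.le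
  linarith

omit [IsProbabilityMeasure P] in
lemma LL_chain (R : Reg P ω β h φ) {l : ℝ} (h0 : 0 < l) (hl : l ≤ 1 / 4) (n k : ℕ) :
    LL P ω β h l (k * n) ≤ k * (LL P ω β h l n + d * Real.log (2 * n + 1)) := by
  induction k with
  | zero =>
    have h1 := LL_sup R h0 hl 0 0
    simp only [Nat.add_zero] at h1
    simp only [Nat.cast_zero, zero_mul]
    linarith
  | succ k ih =>
    have e : (k + 1) * n = n + k * n := by ring
    rw [e]
    have h1 := LL_sub R h0 hl n (k * n)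
    push_cast
    linarith

omit [IsProbabilityMeasure P] in
/-- the growth rate exists, and the moments are exponential up to polynomial factors -/
theorem lam_spec (R : Reg P ω β h φ) {l : ℝ} (h0 : 0 < l) (hl : l ≤ 1 / 4) :
    Tendsto (fun n : ℕ => LL P ω β h l n / n) atTop (𝓝 (lam P ω β h l)) ∧
    (∀ n : ℕ, LL P ω β h l n ≤ n * lam P ω β h l) ∧
    ∀ n : ℕ, n * lam P ω β h l ≤ LL P ω β h l n + d * Real.log (2 * n + 1) := by
  have hs : Subadditive fun n : ℕ => -LL P ω β h l n := by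
    intro a b
    have := LL_sup R h0 hl a b
    show -LL P ω β h l (a + b) ≤ -LL P ω β h l a + -LL P ω β h l b
    linarith
  have hb : BddBelow (Set.range fun n : ℕ => -LL P ω β h l n / n) := by
    refine ⟨-(|l * φ + 16 * mom P ω β * l ^ 2|), ?_⟩
    rintro _ ⟨n, rfl⟩
    rcases Nat.eq_zero_or_pos n with rfl | hn
    · simp
    · have hn0 : (0 : ℝ) < n := by exact_mod_cast hn
      show _ ≤ -LL P ω β h l n / n
      rw [le_div_iff₀ hn0]
      have h1 := LL_le R h0 hl n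
      have h2 := mul_le_mul_of_nonneg_left (le_abs_self (l * φ + 16 * mom P ω β * l ^ 2)) hn0.le
      linarith
  have ht : Tendsto (fun n : ℕ => LL P ω β h l n / n) atTop (𝓝 (-hs.lim)) := by
    have h1 := (hs.tendsto_lim hb).neg
    refine h1.congr fun n => ?_
    simp only [neg_div, neg_neg]
  have hlam : lam P ω β h l = -hs.lim := ht.limUnder_eq
  refine ⟨by rw [hlam]; exact ht, fun n => ?_, fun n => ?_⟩
  · rcases Nat.eq_zero_or_pos n with rfl | hn
    · have h1 := LL_le R h0 hl 0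
      simpa using h1
    · have hn0 : (0 : ℝ) < n := by exact_mod_cast hn
      have h1 := hs.lim_le_div hb hn.ne'
      rw [hlam]
      rw [le_div_iff₀ hn0] at h1
      linarith
  · rcases Nat.eq_zero_or_pos n with rfl | hn
    · have h1 := LL_chain R h0 hl 0 2
      simp at h1 ⊢
      linarith
    · have hn0 : (0 : ℝ) < n := by exact_mod_cast hn
      have h1 : Tendsto (fun k : ℕ => LL P ω β h l (k * n) / ((k * n : ℕ) : ℝ)) atTop
          (𝓝 (-hs.lim)) := ht.comp (tendsto_id.atTop_mul_const' hn)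
      have h2 : -hs.lim ≤ (LL P ω β h l n + d * Real.log (2 * n + 1)) / n := by
        refine le_of_tendsto h1 ?_
        filter_upwards [eventually_gt_atTop 0] with k hk
        have hk0 : (0 : ℝ) < k := by exact_mod_cast hk
        have h3 := LL_chain R h0 hl n k
        push_cast
        rw [div_le_div_iff₀ (by positivity) hn0]
        have h4 := mul_le_mul_of_nonneg_right h3 hn0.le
        linarith
      rw [hlam]
      rw [le_div_iff₀ hn0] at h2
      linarith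

omit [IsProbabilityMeasure P] in
lemma lam_ge (R : Reg P ω β h φ) {l : ℝ} (h0 : 0 < l) (hl : l ≤ 1 / 4) :
    l * φ ≤ lam P ω β h l := by
  refine le_of_tendsto (R.lim.const_mul l) ?_
  filter_upwards [eventually_gt_atTop 0] with n hn
  have hn0 : (0 : ℝ) < n := by exact_mod_cast hn
  rw [← mul_div_assoc, div_le_iff₀ hn0]
  have h1 := (lam_spec R h0 hl).2.1 n
  have h2 := LL_ge R h0 hl n
  linarith

omit [IsProbabilityMeasure P] in
lemma lam_le (R : Reg P ω β h φ) {l : ℝ} (h0 : 0 < l) (hl : l ≤ 1 / 4) :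
    lam P ω β h l ≤ l * φ + 16 * mom P ω β * l ^ 2 := by
  refine le_of_tendsto (lam_spec R h0 hl).1 ?_
  filter_upwards [eventually_gt_atTop 0] with n hn
  have hn0 : (0 : ℝ) < n := by exact_mod_cast hn
  rw [div_le_iff₀ hn0]
  have h1 := LL_le R h0 hl n
  linarith

/-- the moments of the centred free energy -/
lemma mom_eq (R : Reg P ω β h φ) {l : ℝ} (h0 : 0 < l) (hl : l ≤ 1 / 4) (n : ℕ) :
    ∫⁻ x, EX (l * (lw ω β h 0 0 n x - n * φ)) ∂P = EX (LL P ω β h l n - l * (n * φ)) := by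
  have h1 : ∀ x, EX (l * (lw ω β h 0 0 n x - n * φ)) =
      EX (-(l * (n * φ))) * EX (l * lw ω β h 0 0 n x) := by
    intro x
    rw [← EX_add]; congr 1; ring
  have hm : Measurable fun x => EX (l * lw ω β h 0 0 n x) :=
    measurable_EX.comp ((R.meas n).const_mul l)
  simp_rw [h1]
  rw [lintegral_const_mul _ hm]
  show EX (-(l * (n * φ))) * MM P ω β h l n = _
  rw [← EX_LL R h0 hl, ← EX_add]
  congr 1; ring

lemma mom_le (R : Reg P ω β h φ) {l : ℝ} (h0 : 0 < l) (hl : l ≤ 1 / 4) (n : ℕ) :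
    ∫⁻ x, EX (l * (lw ω β h 0 0 n x - n * φ)) ∂P ≤ EX (n * (lam P ω β h l - l * φ)) := by
  rw [mom_eq R h0 hl, EX_le_iff]
  have := (lam_spec R h0 hl).2.1 n
  linarith

lemma mom_ge (R : Reg P ω β h φ) {l : ℝ} (h0 : 0 < l) (hl : l ≤ 1 / 4) (n : ℕ) :
    EX (-(d * Real.log (2 * n + 1))) ≤ ∫⁻ x, EX (l * (lw ω β h 0 0 n x - n * φ)) ∂P := by
  rw [mom_eq R h0 hl, EX_le_iff]
  have h1 := (lam_spec R h0 hl).2.2 n
  have h2 := mul_le_mul_of_nonneg_left (lam_ge R h0 hl) (Nat.cast_nonneg (α := ℝ) n)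
  linarith

/-- the tail -/
lemma tail (R : Reg P ω β h φ) {l : ℝ} (h0 : 0 < l) (hl : l ≤ 1 / 4) (n : ℕ) (y : ℝ) :
    P {x | y ≤ lw ω β h 0 0 n x - n * φ} ≤ EX (-(l * y) + n * (lam P ω β h l - l * φ)) := by
  have hm : Measurable fun x => EX (l * (lw ω β h 0 0 n x - n * φ)) :=
    measurable_EX.comp (((R.meas n).sub_const _).const_mul l)
  have h1 : {x | y ≤ lw ω β h 0 0 n x - n * φ} ⊆
      {x | EX (l * y) ≤ EX (l * (lw ω β h 0 0 n x - n * φ))} := by
    intro x hx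
    exact EX_mono (mul_le_mul_of_nonneg_left hx h0.le)
  refine (measure_mono h1).trans ?_
  refine (meas_ge_le_lintegral_div hm.aemeasurable (EX_pos _).ne' (EX_ne_top _)).trans ?_
  refine ENNReal.div_le_of_le_mul ?_
  refine (mom_le R h0 hl n).trans (le_of_eq ?_)
  rw [← EX_add]
  congr 1; ring

end

end Pool.Agent.Run7.h981.ME
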