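import Pool.Agent.Run7.h981.ME.Cons
import Pool.Agent.Run7.h981.ME.Defs
import Pool.Agent.Run7.h208.WT.Fin

/-!
# Directed polymers: one sided and two sided control
-/

set_option autoImplicit false

open MeasureTheory ProbabilityTheory Filter Topology
open scoped ENNReal

namespace Pool.Agent.Run7.h981.ME

open TH967.DP
open Pool.Agent.N662.SE
open Pool.Agent.Run7.h208.WT

variable {d : ℕ}

section gen
variable {Ω : Type} [mΩ : MeasurableSpace Ω] {P : Measure Ω} [IsProbabilityMeasure P]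
  {ι : Type} {U : Set ι} {X : ι → ℕ → Ω → ℝ}

omit [IsProbabilityMeasure P] in
lemma int_le_of_lint {f : Ω → ℝ} (hf : AEStronglyMeasurable f P) (h0 : ∀ x, 0 ≤ f x) {C : ℝ}
    (hC : 0 ≤ C) (H : ∫⁻ x, ENNReal.ofReal (f x) ∂P ≤ ENNReal.ofReal C) : ∫ x, f x ∂P ≤ C := by
  rw [integral_eq_lintegral_of_nonneg_ae (Eventually.of_forall h0) hf]
  exact ENNReal.toReal_le_of_le_ofReal hC H

lemma pow_le_exp {p : ℝ} (hp : 0 < p) : ∃ K : ℝ, 0 ≤ K ∧ ∀ y : ℝ, 0 ≤ y →
    y ^ p ≤ K * Real.exp y := by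
  refine ⟨p ^ p, by positivity, fun y hy => ?_⟩
  have h1 : y / p ≤ Real.exp (y / p) := by
    have := Real.add_one_le_exp (y / p)
    linarith
  have h2 : y ≤ p * Real.exp (y / p) := by
    rw [div_le_iff₀ hp] at h1
    linarith
  calc y ^ p ≤ (p * Real.exp (y / p)) ^ p := Real.rpow_le_rpow hy h2 hp.le
    _ = p ^ p * Real.exp y := by
        rw [Real.mul_rpow hp.le (Real.exp_pos _).le, ← Real.exp_mul]
        congr 2; field_simp

lemma momBd_of_expBd (hX : ∀ h ∈ U, ∀ n, Measurable (X h n)) {p ζ : ℝ} (hp : 0 < p)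
    (H : ExpBd P U X ζ) : MomBd P U X p ζ := by
  obtain ⟨α, C, hα, H⟩ := H
  obtain ⟨K, K0, hK⟩ := pow_le_exp hp
  refine ⟨α⁻¹ ^ p * K * max C 0, fun h hh n hn => ?_⟩
  have n0 : (0 : ℝ) < n := by exact_mod_cast hn
  have hs : (0 : ℝ) < (n : ℝ) ^ ζ := Real.rpow_pos_of_pos n0 _
  have hm : Measurable fun x => |X h n x| := continuous_abs.measurable.comp (hX h hh n)
  have h1 := mom_of_exp (P := P) hm (fun x => abs_nonneg _) hα hs hp K0 hK (C := max C 0) (by
    refine le_trans (le_of_eq ?_) ((H h hh n hn).trans (ENNReal.ofReal_le_ofReal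
      (le_max_left _ _)))
    refine lintegral_congr fun x => ?_
    unfold EX
    rw [Real.rpow_neg n0.le])
  refine h1.trans (ENNReal.ofReal_le_ofReal (le_of_eq ?_))
  rw [Real.mul_rpow (by positivity) hs.le, ← Real.rpow_mul n0.le, mul_comm ζ p]
  ring

lemma polyUp_of_momBd (hX : ∀ h ∈ U, ∀ n, Measurable (X h n)) {z ζ q₀ : ℝ} (hz : z < ζ)
    (H : ∀ p : ℝ, 0 < p → MomBd P U (fun h n x => max (X h n x) 0) p z) :
    PolyUp P q₀ U X ζ := by
  set p : ℝ := (|q₀| + 1) / (ζ - z) with hp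
  have hz' : 0 < ζ - z := by linarith
  have hp0 : 0 < p := by positivity
  obtain ⟨C, hC⟩ := H p hp0
  refine ⟨|q₀| + 1, C, by linarith [le_abs_self q₀], fun h hh n hn => ?_⟩
  have n0 : (0 : ℝ) < n := by exact_mod_cast hn
  have hs : (0 : ℝ) < (n : ℝ) ^ ζ := Real.rpow_pos_of_pos n0 _
  have h1 := markov_pow (hX h hh n) hs hp0 (C := C * (n : ℝ) ^ (p * z)) (by
    refine le_trans (le_of_eq ?_) (hC h hh n hn)
    refine lintegral_congr fun x => ?_
    rw [abs_of_nonneg (le_max_right _ _)])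
  refine h1.trans (le_of_eq ?_)
  congr 1
  rw [← Real.rpow_mul n0.le, mul_div_assoc, ← Real.rpow_sub n0]
  congr 2
  have : p * (ζ - z) = |q₀| + 1 := by rw [hp]; field_simp
  linarith

omit [IsProbabilityMeasure P] in
/-- the optimal tail implies every power -/
lemma polyUp_of_optUp {z ζ q₀ : ℝ} (hz : 0 < z) (hz1 : z < 1) (hζ : z < ζ)
    (H : OptUp P U X z) : PolyUp P q₀ U X ζ := by
  obtain ⟨A, hA, H⟩ := H
  set q : ℝ := q₀ + 1 with hq
  set c : ℝ := min ζ ((ζ - z) / (1 - z)) with hc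
  have c0 : 0 < c := lt_min (by linarith) (div_pos (by linarith) (by linarith))
  obtain ⟨K, K0, hK⟩ := exp_small (α := 1 / A) (c := c) (q := q) (by positivity) c0
  refine ⟨q, A * K, by linarith, fun h hh n hn =>
    (H h hh n hn _ (Real.rpow_nonneg (Nat.cast_nonneg n) _)).trans
    (ENNReal.ofReal_le_ofReal ?_)⟩
  have n0 : (0 : ℝ) < n := by exact_mod_cast hn
  have n1 : (1 : ℝ) ≤ n := by exact_mod_cast hn
  have e1 : ((n : ℝ) ^ ζ / (n : ℝ) ^ z) ^ (1 / (1 - z)) = (n : ℝ) ^ ((ζ - z) / (1 - z)) := by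
    rw [← Real.rpow_sub n0, ← Real.rpow_mul n0.le]
    congr 1; ring
  rw [e1]
  have h1 : (n : ℝ) ^ c ≤ min ((n : ℝ) ^ ζ) ((n : ℝ) ^ ((ζ - z) / (1 - z))) :=
    le_min (Real.rpow_le_rpow_of_exponent_le n1 (min_le_left _ _))
      (Real.rpow_le_rpow_of_exponent_le n1 (min_le_right _ _))
  have h2 : Real.exp (-(min ((n : ℝ) ^ ζ) ((n : ℝ) ^ ((ζ - z) / (1 - z))) / A)) ≤
      Real.exp (-(1 / A * (n : ℝ) ^ c)) := by
    refine Real.exp_le_exp.2 (neg_le_neg ?_)
    rw [one_div, ← div_eq_inv_mul]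
    gcongr
  calc A * Real.exp (-(min ((n : ℝ) ^ ζ) ((n : ℝ) ^ ((ζ - z) / (1 - z))) / A))
      ≤ A * (K * (n : ℝ) ^ (-q)) := by
        gcongr
        exact h2.trans (hK n hn)
    _ = _ := by ring

omit [IsProbabilityMeasure P] in
lemma momBd_pos_of {p ζ : ℝ} (hp : 0 < p) (H : MomBd P U X p ζ) :
    MomBd P U (fun h n x => max (X h n x) 0) p ζ := by
  obtain ⟨C, hC⟩ := H
  refine ⟨C, fun h hh n hn => le_trans (lintegral_mono fun x => ?_) (hC h hh n hn)⟩
  refine ENNReal.ofReal_le_ofReal (Real.rpow_le_rpow (abs_nonneg _) ?_ hp.le)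
  rw [abs_of_nonneg (le_max_right _ _)]
  exact max_le (le_abs_self _) (abs_nonneg _)

end gen

section
variable {Ω : Type} [mΩ : MeasurableSpace Ω] {P : Measure Ω} [IsProbabilityMeasure P]
  {ω : ℕ → (Fin d → ℤ) → Ω → ℝ} {β : ℝ} {U : Set (Fin d → ℝ)} {φ : (Fin d → ℝ) → ℝ}

lemma flat_of_polyUp (hi' : S_ID) (hd : 1 ≤ d) (he : IsEnv P ω) (R : ∀ h ∈ U, Reg P ω β h (φ h)) {ζ z : ℝ}
    (hζ0 : 0 ≤ ζ) (hζ1 : ζ < 1) (hz : ζ < z)
    (H : PolyUp P d U (fun h n x => lw ω β h 0 0 n x - n * φ h) ζ) : Flat P ω β U φ z := by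
  obtain ⟨q, C, hq, H⟩ := H
  refine flat_of_weak hi' hd he R hζ0 hζ1 hq (C1 := C) (fun h hh m hm => ?_) hz
  refine le_trans (measure_mono ?_) (H h hh m hm)
  intro x hx
  have h1 : (m : ℝ) ^ ζ < lw ω β h 0 0 m x - m * φ h := hx
  exact h1.le

omit [IsProbabilityMeasure P] in
lemma contact_iff {z : ℝ} (hz : 0 < z) :
    Contact U (fun h => lam P ω β h) φ z ↔ Flat P ω β U φ z := by
  rw [flat_iff hz]
  unfold Contact gap
  refine eventually_congr (Eventually.of_forall fun t => ?_)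
  constructor <;> intro h1 h hh <;> linarith [h1 h hh]

lemma expBd_of_flat (R : ∀ h ∈ U, Reg P ω β h (φ h)) {z : ℝ} (hz : 0 < z) (H : Flat P ω β U φ z) :
    ExpBd P U (fun h n x => max (lw ω β h 0 0 n x - n * φ h) 0) z := by
  obtain ⟨C, hC⟩ := expm_of_flat R hz H
  refine ⟨1 / 4, C, by norm_num, fun h hh n hn => le_trans (le_of_eq ?_) (hC h hh n hn)⟩
  refine lintegral_congr fun x => ?_
  unfold EX
  rw [abs_of_nonneg (le_max_right _ _)]

/-- an upper tail around the mean controls the distance of the mean from `n φ` -/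
theorem mean_rate (hi' : S_ID) (hd : 1 ≤ d) (he : IsEnv P ω) (R : ∀ h ∈ U, Reg P ω β h (φ h)) {ζ z : ℝ}
    (hζ0 : 0 ≤ ζ) (hζ1 : ζ < 1) (hz : ζ < z)
    (H : PolyUp P d U (fun h n x => lw ω β h 0 0 n x - free P ω β h n) ζ) :
    ∀ᶠ n : ℕ in atTop, ∀ h ∈ U, n * φ h - free P ω β h n ≤ (n : ℝ) ^ z := by
  obtain ⟨q, C, hq, H⟩ := H
  obtain ⟨z1, hz1, hz1'⟩ := exists_between hz
  obtain ⟨z2, hz2, hz2'⟩ := exists_between hz1'
  obtain ⟨q', hq', hq''⟩ := exists_between hq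
  have z10 : 0 < z1 := hζ0.trans_lt hz1
  have hF : Flat P ω β U φ z1 := by
    refine flat_of_polyUp hi' hd he R hζ0 hζ1 hz1 ⟨q, C, hq, fun h hh n hn => ?_⟩
    refine (measure_mono fun x hx => ?_).trans (H h hh n hn)
    have h1 : (n : ℝ) ^ ζ ≤ lw ω β h 0 0 n x - n * φ h := hx
    have h2 := (R h hh).free_le n
    show (n : ℝ) ^ ζ ≤ lw ω β h 0 0 n x - free P ω β h n
    linarith
  have hL := lower_prob hd R z10 hz2 hq' hF
  have hq1 : ∀ᶠ n : ℕ in atTop, |C| * (n : ℝ) ^ (-(q - q')) ≤ 1 / 2 := by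
    have h1 : Tendsto (fun n : ℕ => |C| * (n : ℝ) ^ (-(q - q'))) atTop (𝓝 (|C| * 0)) :=
      ((tendsto_rpow_neg_atTop (by linarith)).comp tendsto_natCast_atTop_atTop).const_mul _
    rw [mul_zero] at h1
    exact h1.eventually (ge_mem_nhds (by norm_num))
  have hz3 : ∀ᶠ n : ℕ in atTop, (n : ℝ) ^ (-(z - z2)) ≤ 1 / 2 := by
    have h1 : Tendsto (fun n : ℕ => (n : ℝ) ^ (-(z - z2))) atTop (𝓝 0) :=
      (tendsto_rpow_neg_atTop (by linarith)).comp tendsto_natCast_atTop_atTop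
    exact h1.eventually (ge_mem_nhds (by norm_num))
  filter_upwards [hL, hq1, hz3, eventually_ge_atTop 1] with n h1U h2 h3 hn
  intro h hh
  have h1 := h1U h hh
  have H := H h hh
  have n0 : (0 : ℝ) < n := by exact_mod_cast hn
  have n1 : (1 : ℝ) ≤ n := by exact_mod_cast hn
  have h4 : 2 * (n : ℝ) ^ z2 ≤ (n : ℝ) ^ z := by
    have e1 : (n : ℝ) ^ z2 = (n : ℝ) ^ (-(z - z2)) * (n : ℝ) ^ z := by
      rw [← Real.rpow_add n0]; congr 1; ring
    have := mul_le_mul_of_nonneg_right h3 (Real.rpow_nonneg n0.le z)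
    rw [e1]
    linarith
  have h5 : (n : ℝ) ^ ζ ≤ (n : ℝ) ^ z2 := Real.rpow_le_rpow_of_exponent_le n1 (by linarith)
  by_contra hcon
  push Not at hcon
  have h6 : P.real {x | -(n : ℝ) ^ z2 ≤ lw ω β h 0 0 n x - n * φ h} ≤ |C| * (n : ℝ) ^ (-q) := by
    have h7 : P {x | -(n : ℝ) ^ z2 ≤ lw ω β h 0 0 n x - n * φ h} ≤
        ENNReal.ofReal (|C| * (n : ℝ) ^ (-q)) := by
      refine le_trans (measure_mono fun x hx => ?_) ((H n hn).trans (ENNReal.ofReal_le_ofReal
        (mul_le_mul_of_nonneg_right (le_abs_self _) (Real.rpow_nonneg n0.le _))))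
      have h8 : -(n : ℝ) ^ z2 ≤ lw ω β h 0 0 n x - n * φ h := hx
      show (n : ℝ) ^ ζ ≤ lw ω β h 0 0 n x - free P ω β h n
      linarith
    exact ENNReal.toReal_le_of_le_ofReal (by positivity) h7
  have h8 : |C| * (n : ℝ) ^ (-q) ≤ 1 / 2 * (n : ℝ) ^ (-q') := by
    have e1 : |C| * (n : ℝ) ^ (-q) = (|C| * (n : ℝ) ^ (-(q - q'))) * (n : ℝ) ^ (-q') := by
      rw [mul_assoc, ← Real.rpow_add n0]; congr 2; ring
    rw [e1]
    exact mul_le_mul_of_nonneg_right h2 (Real.rpow_nonneg n0.le _)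
  have h9 : 0 < (n : ℝ) ^ (-q') := Real.rpow_pos_of_pos n0 _
  linarith

/-- the mean and the upper tail control the lower tail -/
theorem low_of_mean (R : ∀ h ∈ U, Reg P ω β h (φ h)) {z ζ : ℝ} (hz : 0 < z) (hζ : z < ζ)
    (H : Flat P ω β U φ z)
    (Hm : ∀ᶠ n : ℕ in atTop, ∀ h ∈ U, n * φ h - free P ω β h n ≤ (n : ℝ) ^ z) :
    ∀ ε : ℝ, 0 < ε → ∀ᶠ n : ℕ in atTop, ∀ h ∈ U,
      P.real {x | lw ω β h 0 0 n x - n * φ h ≤ -(n : ℝ) ^ ζ} ≤ ε := by
  have hXm : ∀ h ∈ U, ∀ n : ℕ, Measurable fun x => lw ω β h 0 0 n x - n * φ h := fun h hh n =>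
    ((R h hh).meas n).sub_const _
  obtain ⟨C, hC⟩ := momBd_of_expBd (P := P) (fun h hh n => (hXm h hh n).max measurable_const)
    one_pos (expBd_of_flat R hz H)
  have h1 : Tendsto (fun n : ℕ => (max C 0 + 1) * (n : ℝ) ^ (-(ζ - z))) atTop
      (𝓝 ((max C 0 + 1) * 0)) :=
    ((tendsto_rpow_neg_atTop (by linarith)).comp tendsto_natCast_atTop_atTop).const_mul _
  rw [mul_zero] at h1
  intro ε hε
  filter_upwards [Hm, h1.eventually (ge_mem_nhds hε), eventually_ge_atTop 1] with n h2U h2ε hn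
  intro h hh
  have h2 := h2U h hh
  have hC := hC h hh
  have R := R h hh
  refine le_trans ?_ h2ε
  have n0 : (0 : ℝ) < n := by exact_mod_cast hn
  have hs : (0 : ℝ) < (n : ℝ) ^ ζ := Real.rpow_pos_of_pos n0 _
  have hs' : (0 : ℝ) < (n : ℝ) ^ z := Real.rpow_pos_of_pos n0 _
  set Y : Ω → ℝ := fun x => lw ω β h 0 0 n x - n * φ h with hY
  have hYi : Integrable Y P := (R.int n).sub (integrable_const _)
  have hYp : Integrable (fun x => max (Y x) 0) P := hYi.pos_part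
  have hYn : Integrable (fun x => max (-Y x) 0) P := hYi.neg_part
  have h3 : ∫ x, max (Y x) 0 ∂P ≤ max C 0 * (n : ℝ) ^ z := by
    refine int_le_of_lint hYp.aestronglyMeasurable (fun x => le_max_right _ _) (by positivity) ?_
    refine le_trans (le_of_eq ?_) ((hC n hn).trans (ENNReal.ofReal_le_ofReal ?_))
    · refine lintegral_congr fun x => ?_
      rw [Real.rpow_one, abs_of_nonneg (le_max_right _ _)]
    · rw [one_mul]
      exact mul_le_mul_of_nonneg_right (le_max_left _ _) hs'.le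
  have h4 : ∫ x, Y x ∂P = free P ω β h n - n * φ h := by
    have e1 : ∫ x, Y x ∂P = (∫ x, lw ω β h 0 0 n x ∂P) - ∫ _x, (n * φ h) ∂P :=
      integral_sub (R.int n) (integrable_const _)
    rw [e1]; simp [free]
  have h5 : ∫ x, max (-Y x) 0 ∂P = ∫ x, max (Y x) 0 ∂P - ∫ x, Y x ∂P := by
    rw [← integral_sub hYp hYi]
    refine integral_congr_ae (Eventually.of_forall fun x => ?_)
    show max (-Y x) 0 = max (Y x) 0 - Y x
    rcases le_total (Y x) 0 with h6 | h6
    · rw [max_eq_left (by linarith), max_eq_right h6]; ring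
    · rw [max_eq_right (by linarith), max_eq_left h6]; ring
  have h6 := mul_meas_ge_le_integral_of_nonneg (μ := P)
    (Eventually.of_forall fun x => le_max_right (-Y x) 0) hYn ((n : ℝ) ^ ζ)
  have h7 : P.real {x | Y x ≤ -(n : ℝ) ^ ζ} ≤ P.real {x | (n : ℝ) ^ ζ ≤ max (-Y x) 0} := by
    refine measureReal_mono fun x hx => ?_
    have h9 : Y x ≤ -(n : ℝ) ^ ζ := hx
    show (n : ℝ) ^ ζ ≤ max (-Y x) 0
    exact le_max_of_le_left (by linarith)
  have h8 : (n : ℝ) ^ ζ * P.real {x | Y x ≤ -(n : ℝ) ^ ζ} ≤ (max C 0 + 1) * (n : ℝ) ^ z := by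
    calc (n : ℝ) ^ ζ * P.real {x | Y x ≤ -(n : ℝ) ^ ζ}
        ≤ (n : ℝ) ^ ζ * P.real {x | (n : ℝ) ^ ζ ≤ max (-Y x) 0} := by gcongr
      _ ≤ ∫ x, max (-Y x) 0 ∂P := h6
      _ ≤ _ := by rw [h5, h4]; linarith
  have e1 : (max C 0 + 1) * (n : ℝ) ^ (-(ζ - z)) = (max C 0 + 1) * (n : ℝ) ^ z / (n : ℝ) ^ ζ := by
    rw [mul_div_assoc, ← Real.rpow_sub n0]; congr 2; ring
  rw [e1, le_div_iff₀ hs, mul_comm]
  exact h8

/-- the lower tail in probability and the upper tail control everything -/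
theorem expBd_of_low (mgf : S_MGF) (hd : 1 ≤ d) (he : IsEnv P ω)
    (hexp : ∀ b : ℝ, Integrable (fun x => Real.exp (b * ω 1 0 x)) P)
    (R : ∀ h ∈ U, Reg P ω β h (φ h))
    {z ζ : ℝ} (hz : 0 < z) (hζ : z < ζ) (H : Flat P ω β U φ ζ)
    (Hl : ∀ ε : ℝ, 0 < ε → ∀ᶠ n : ℕ in atTop, ∀ h ∈ U,
      P.real {x | lw ω β h 0 0 n x - n * φ h ≤ -(n : ℝ) ^ z} ≤ ε) :
    ExpBd P U (fun h n x => lw ω β h 0 0 n x - n * φ h) ζ := by
  obtain ⟨φ0, h1, h2, -⟩ := lower P ω mgf hd he hexp β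
  have e0 : ∀ h ∈ U, φ0 h = φ h - Real.log (2 * (d : ℝ)) := by
    intro h hh
    refine tendsto_nhds_unique (h1 h) ?_
    refine ((R h hh).lim.sub_const (Real.log (2 * (d : ℝ)))).congr' ?_
    filter_upwards [eventually_ge_atTop 1] with n hn
    have n0 : (0 : ℝ) < n := by exact_mod_cast hn
    rw [integral_logZ hd ((R h hh).int n), sub_div, mul_comm (n : ℝ), mul_div_assoc,
      div_self n0.ne', mul_one]
  have e1 : ∀ h ∈ U, ∀ (n : ℕ) x, logZ β h (fun i y => ω i y x) n - n * φ0 h =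
      lw ω β h 0 0 n x - n * φ h := by
    intro h hh n x
    rw [logZ_eq hd, e0 h hh]; ring
  obtain ⟨α, C, hα, h3⟩ := h2 U z ζ hz hζ (by
    intro ε hε
    obtain ⟨N, hN⟩ := eventually_atTop.1 (Hl ε hε)
    refine ⟨N, fun n hn h hh => ?_⟩
    refine le_trans (le_of_eq ?_) (hN n hn h hh)
    congr 1
    ext x
    show logZ β h (fun i y => ω i y x) n ≤ n * φ0 h - (n : ℝ) ^ z ↔
      lw ω β h 0 0 n x - n * φ h ≤ -(n : ℝ) ^ z
    rw [← e1 h hh n x]
    constructor <;> intro h4 <;> linarith)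
  obtain ⟨C2, hC2⟩ := expm_of_flat R (hz.trans hζ) H
  refine ⟨min α (1 / 4), max C2 0 + max C 0, lt_min hα (by norm_num), fun h hh n hn => ?_⟩
  have n0 : (0 : ℝ) < n := by exact_mod_cast hn
  have hs : (0 : ℝ) < (n : ℝ) ^ (-ζ) := Real.rpow_pos_of_pos n0 _
  have hXm : Measurable fun x => lw ω β h 0 0 n x - n * φ h := ((R h hh).meas n).sub_const _
  have hm : Measurable fun x => EX (1 / 4 * (n : ℝ) ^ (-ζ) *
      max (lw ω β h 0 0 n x - n * φ h) 0) :=
    measurable_EX.comp ((hXm.max measurable_const).const_mul _)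
  have h4 := (h3 h hh n hn).1
  rw [ENNReal.ofReal_add (le_max_right _ _) (le_max_right _ _)]
  refine le_trans ?_ (add_le_add
    ((hC2 h hh n hn).trans (ENNReal.ofReal_le_ofReal (le_max_left _ _)))
    (h4.trans (ENNReal.ofReal_le_ofReal (le_max_left C 0))))
  rw [← lintegral_add_left hm]
  refine lintegral_mono fun x => ?_
  have e2 : n * φ0 h - logZ β h (fun i y => ω i y x) n = -(lw ω β h 0 0 n x - n * φ h) := by
    rw [← e1 h hh n x]; ring
  rw [e2]
  set Y : ℝ := lw ω β h 0 0 n x - n * φ h with hY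
  rcases le_total Y 0 with h5 | h5
  · refine le_trans ?_ le_add_self
    refine ENNReal.ofReal_le_ofReal (Real.exp_le_exp.2 ?_)
    rw [abs_of_nonpos h5, max_eq_left (by linarith)]
    have h6 : 0 ≤ -Y := by linarith
    gcongr
    exact min_le_left _ _
  · refine le_trans ?_ le_self_add
    unfold EX
    refine ENNReal.ofReal_le_ofReal (Real.exp_le_exp.2 ?_)
    rw [abs_of_nonneg h5, max_eq_left h5]
    gcongr
    exact min_le_right _ _

/-- the first moment controls the distance of the mean from `n φ` -/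
theorem mean_of_mom (R : ∀ h ∈ U, Reg P ω β h (φ h)) {ζ : ℝ}
    (H1 : MomBd P U (fun h n x => lw ω β h 0 0 n x - n * φ h) 1 ζ) :
    ∃ C1 : ℝ, ∀ h ∈ U, ∀ n : ℕ, 1 ≤ n →
      |free P ω β h n - n * φ h| ≤ max C1 0 * (n : ℝ) ^ ζ := by
  obtain ⟨C1, H1⟩ := H1
  refine ⟨C1, fun h hh n hn => ?_⟩
  have R := R h hh
  have H1 := H1 h hh
  have n0 : (0 : ℝ) < n := by exact_mod_cast hn
  have hs : (0 : ℝ) < (n : ℝ) ^ ζ := Real.rpow_pos_of_pos n0 _
  have hYi : Integrable (fun x => lw ω β h 0 0 n x - n * φ h) P :=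
    (R.int n).sub (integrable_const _)
  have h2 : ∫ x, |lw ω β h 0 0 n x - n * φ h| ∂P ≤ max C1 0 * (n : ℝ) ^ ζ := by
    refine int_le_of_lint hYi.abs.aestronglyMeasurable (fun x => abs_nonneg _) (by positivity) ?_
    refine le_trans (le_of_eq ?_) ((H1 n hn).trans (ENNReal.ofReal_le_ofReal ?_))
    · refine lintegral_congr fun x => ?_
      rw [Real.rpow_one]
    · rw [one_mul]
      exact mul_le_mul_of_nonneg_right (le_max_left _ _) hs.le
  have h4 : ∫ x, (lw ω β h 0 0 n x - n * φ h) ∂P = free P ω β h n - n * φ h := by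
    have e1 : ∫ x, (lw ω β h 0 0 n x - n * φ h) ∂P =
        (∫ x, lw ω β h 0 0 n x ∂P) - ∫ _x, (n * φ h) ∂P :=
      integral_sub (R.int n) (integrable_const _)
    rw [e1]; simp [free]
  rw [← h4]
  exact (abs_integral_le_integral_abs).trans h2

/-- exponential moments around `n φ` give exponential moments around the mean -/
theorem central_of_exp (R : ∀ h ∈ U, Reg P ω β h (φ h)) {ζ : ℝ}
    (H1 : MomBd P U (fun h n x => lw ω β h 0 0 n x - n * φ h) 1 ζ)
    (H : ExpBd P U (fun h n x => lw ω β h 0 0 n x - n * φ h) ζ) :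
    ExpBd P U (fun h n x => lw ω β h 0 0 n x - free P ω β h n) ζ := by
  obtain ⟨α, C, hα, H⟩ := H
  obtain ⟨C1, h1U⟩ := mean_of_mom R H1
  refine ⟨α, Real.exp (α * max C1 0) * max C 0, hα, fun h hh n hn => ?_⟩
  have R := R h hh
  have n0 : (0 : ℝ) < n := by exact_mod_cast hn
  have hs : (0 : ℝ) < (n : ℝ) ^ (-ζ) := Real.rpow_pos_of_pos n0 _
  have h5 := h1U h hh n hn
  have hpt : ∀ x, ENNReal.ofReal (Real.exp (α * (n : ℝ) ^ (-ζ) *
      |lw ω β h 0 0 n x - free P ω β h n|)) ≤ ENNReal.ofReal (Real.exp (α * max C1 0)) *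
        ENNReal.ofReal (Real.exp (α * (n : ℝ) ^ (-ζ) * |lw ω β h 0 0 n x - n * φ h|)) := by
    intro x
    rw [← ENNReal.ofReal_mul (Real.exp_pos _).le, ← Real.exp_add]
    refine ENNReal.ofReal_le_ofReal (Real.exp_le_exp.2 ?_)
    have e1 : lw ω β h 0 0 n x - free P ω β h n =
        (lw ω β h 0 0 n x - n * φ h) - (free P ω β h n - n * φ h) := by ring
    have h6 : |lw ω β h 0 0 n x - free P ω β h n| ≤
        |lw ω β h 0 0 n x - n * φ h| + max C1 0 * (n : ℝ) ^ ζ := by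
      rw [e1]
      exact (abs_sub _ _).trans (by linarith)
    have h7 := mul_le_mul_of_nonneg_left h6 (show 0 ≤ α * (n : ℝ) ^ (-ζ) by positivity)
    have e2 : α * (n : ℝ) ^ (-ζ) * (max C1 0 * (n : ℝ) ^ ζ) = α * max C1 0 := by
      have : (n : ℝ) ^ (-ζ) * (n : ℝ) ^ ζ = 1 := by rw [← Real.rpow_add n0]; simp
      calc α * (n : ℝ) ^ (-ζ) * (max C1 0 * (n : ℝ) ^ ζ)
          = α * max C1 0 * ((n : ℝ) ^ (-ζ) * (n : ℝ) ^ ζ) := by ring
        _ = _ := by rw [this, mul_one]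
    linarith
  have hm : Measurable fun x => ENNReal.ofReal (Real.exp (α * (n : ℝ) ^ (-ζ) *
      |lw ω β h 0 0 n x - n * φ h|)) :=
    (Real.measurable_exp.comp
      ((continuous_abs.measurable.comp ((R.meas n).sub_const _)).const_mul _)).ennreal_ofReal
  refine (lintegral_mono hpt).trans ?_
  rw [lintegral_const_mul _ hm, ENNReal.ofReal_mul (Real.exp_pos _).le]
  gcongr
  exact (H h hh n hn).trans (ENNReal.ofReal_le_ofReal (le_max_left _ _))

/-- the optimal upper tail around `n φ` gives the one around the mean -/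
theorem optUp_central (R : ∀ h ∈ U, Reg P ω β h (φ h)) {ζ : ℝ} (hζ0 : 0 < ζ) (hζ1 : ζ < 1)
    (H : OptUp P U (fun h n x => lw ω β h 0 0 n x - n * φ h) ζ)
    (H1 : MomBd P U (fun h n x => lw ω β h 0 0 n x - n * φ h) 1 ζ) :
    OptUp P U (fun h n x => lw ω β h 0 0 n x - free P ω β h n) ζ := by
  obtain ⟨A, hA, H⟩ := H
  obtain ⟨C1, h1U⟩ := mean_of_mom R H1
  set c : ℝ := max C1 0 with hc
  have c0 : 0 ≤ c := le_max_right _ _
  have h1ζ : 0 < 1 - ζ := by linarith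
  set r : ℝ := 1 / (1 - ζ) with hr
  have r1 : 1 ≤ r := by rw [hr, le_div_iff₀ h1ζ]; linarith
  have r0 : 0 < r := by linarith
  have h2r : (2 : ℝ) ≤ 2 ^ r := by
    calc (2 : ℝ) = 2 ^ (1 : ℝ) := (Real.rpow_one _).symm
      _ ≤ 2 ^ r := Real.rpow_le_rpow_of_exponent_le (by norm_num) r1
  have h2r0 : (0 : ℝ) < 2 ^ r := by linarith
  set B : ℝ := max (A * 2 ^ r) (max (Real.exp 1) ((2 * c) ^ r)) with hB
  have B1 : A * 2 ^ r ≤ B := le_max_left _ _
  have B2 : Real.exp 1 ≤ B := (le_max_left _ _).trans (le_max_right _ _)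
  have B3 : (2 * c) ^ r ≤ B := (le_max_right _ _).trans (le_max_right _ _)
  have B0 : 0 < B := (Real.exp_pos 1).trans_le B2
  have BA : A ≤ B := le_trans (le_mul_of_one_le_right hA.le (by linarith)) B1
  refine ⟨B, B0, fun h hh n hn y hy => ?_⟩
  have n0 : (0 : ℝ) < n := by exact_mod_cast hn
  have hs : (0 : ℝ) < (n : ℝ) ^ ζ := Real.rpow_pos_of_pos n0 _
  have hm := h1U h hh n hn
  set M : ℝ := min y ((y / (n : ℝ) ^ ζ) ^ r) with hM
  rcases le_or_gt y (2 * c * (n : ℝ) ^ ζ) with h2 | h2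
  · refine prob_le_one.trans (ENNReal.one_le_ofReal.2 ?_)
    have h3 : M ≤ B := by
      refine (min_le_right _ _).trans (le_trans ?_ B3)
      refine Real.rpow_le_rpow (by positivity) ?_ r0.le
      rwa [div_le_iff₀ hs]
    have h4 : M / B ≤ 1 := (div_le_one B0).2 h3
    calc (1 : ℝ) = Real.exp 1 * Real.exp (-1) := by rw [← Real.exp_add]; simp
      _ ≤ B * Real.exp (-(M / B)) := by
          gcongr
  · have hsub : {x | y ≤ lw ω β h 0 0 n x - free P ω β h n} ⊆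
        {x | y / 2 ≤ lw ω β h 0 0 n x - n * φ h} := by
      intro x hx
      have h3 : y ≤ lw ω β h 0 0 n x - free P ω β h n := hx
      have h4 := (abs_le.1 hm).1
      show y / 2 ≤ lw ω β h 0 0 n x - n * φ h
      linarith
    refine (measure_mono hsub).trans ((H h hh n hn (y / 2) (by linarith)).trans
      (ENNReal.ofReal_le_ofReal ?_))
    have e1 : (y / 2 / (n : ℝ) ^ ζ) ^ r = (y / (n : ℝ) ^ ζ) ^ r / 2 ^ r := by
      rw [← Real.div_rpow (by positivity) (by norm_num)]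
      congr 1; ring
    have h5 : M / 2 ^ r ≤ min (y / 2) ((y / 2 / (n : ℝ) ^ ζ) ^ r) := by
      refine le_min ?_ ?_
      · calc M / 2 ^ r ≤ y / 2 ^ r := by gcongr; exact min_le_left _ _
          _ ≤ y / 2 := by gcongr
      · rw [e1]
        gcongr
        exact min_le_right _ _
    have hM0 : 0 ≤ M := le_min hy (by positivity)
    have h6 : M / B ≤ min (y / 2) ((y / 2 / (n : ℝ) ^ ζ) ^ r) / A := by
      calc M / B ≤ M / (A * 2 ^ r) := by gcongr
        _ = M / 2 ^ r / A := by rw [mul_comm, div_div]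
        _ ≤ _ := by gcongr
    calc A * Real.exp (-(min (y / 2) ((y / 2 / (n : ℝ) ^ ζ) ^ r) / A))
        ≤ B * Real.exp (-(M / B)) := by gcongr
      _ = _ := rfl

/-- moments around `n φ` control the central moments -/
theorem central_of_mom (R : ∀ h ∈ U, Reg P ω β h (φ h)) {ζ p : ℝ} (hp : 0 < p)
    (H1 : MomBd P U (fun h n x => lw ω β h 0 0 n x - n * φ h) 1 ζ)
    (H : MomBd P U (fun h n x => lw ω β h 0 0 n x - n * φ h) p ζ) :
    MomBd P U (fun h n x => lw ω β h 0 0 n x - free P ω β h n) p ζ := by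
  obtain ⟨C, H⟩ := H
  obtain ⟨C1, h1U⟩ := mean_of_mom R H1
  refine ⟨2 ^ p * (max C 0 + (max C1 0) ^ p), fun h hh n hn => ?_⟩
  have R := R h hh
  have H := H h hh
  have n0 : (0 : ℝ) < n := by exact_mod_cast hn
  have hs : (0 : ℝ) < (n : ℝ) ^ ζ := Real.rpow_pos_of_pos n0 _
  have h5 := h1U h hh n hn
  have hpt : ∀ x, ENNReal.ofReal (|lw ω β h 0 0 n x - free P ω β h n| ^ p) ≤
      ENNReal.ofReal (2 ^ p) * ENNReal.ofReal (|lw ω β h 0 0 n x - n * φ h| ^ p) +
        ENNReal.ofReal (2 ^ p * (max C1 0 * (n : ℝ) ^ ζ) ^ p) := by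
    intro x
    rw [← ENNReal.ofReal_mul (by positivity), ← ENNReal.ofReal_add (by positivity) (by positivity)]
    refine ENNReal.ofReal_le_ofReal ?_
    set a : ℝ := |lw ω β h 0 0 n x - n * φ h| with ha
    set b : ℝ := max C1 0 * (n : ℝ) ^ ζ with hb
    have a0 : 0 ≤ a := abs_nonneg _
    have b0 : 0 ≤ b := by positivity
    have h6 : |lw ω β h 0 0 n x - free P ω β h n| ≤ 2 * max a b := by
      have e1 : lw ω β h 0 0 n x - free P ω β h n =
          (lw ω β h 0 0 n x - n * φ h) - (free P ω β h n - n * φ h) := by ring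
      rw [e1]
      refine (abs_sub _ _).trans ?_
      have := le_max_left a b
      have := le_max_right a b
      linarith
    calc |lw ω β h 0 0 n x - free P ω β h n| ^ p ≤ (2 * max a b) ^ p :=
          Real.rpow_le_rpow (abs_nonneg _) h6 hp.le
      _ = 2 ^ p * (max a b) ^ p := Real.mul_rpow (by norm_num) (a0.trans (le_max_left _ _))
      _ ≤ 2 ^ p * (a ^ p + b ^ p) := by
          gcongr
          rcases le_total a b with h7 | h7
          · rw [max_eq_right h7]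
            have := Real.rpow_nonneg a0 p
            linarith
          · rw [max_eq_left h7]
            have := Real.rpow_nonneg b0 p
            linarith
      _ = _ := by ring
  have hm : Measurable fun x => ENNReal.ofReal (|lw ω β h 0 0 n x - n * φ h| ^ p) :=
    ((continuous_abs.measurable.comp ((R.meas n).sub_const _)).pow_const p).ennreal_ofReal
  calc ∫⁻ x, ENNReal.ofReal (|lw ω β h 0 0 n x - free P ω β h n| ^ p) ∂P
      ≤ ∫⁻ x, (ENNReal.ofReal (2 ^ p) * ENNReal.ofReal (|lw ω β h 0 0 n x - n * φ h| ^ p) +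
        ENNReal.ofReal (2 ^ p * (max C1 0 * (n : ℝ) ^ ζ) ^ p)) ∂P := lintegral_mono hpt
    _ = ENNReal.ofReal (2 ^ p) * ∫⁻ x, ENNReal.ofReal (|lw ω β h 0 0 n x - n * φ h| ^ p) ∂P +
        ENNReal.ofReal (2 ^ p * (max C1 0 * (n : ℝ) ^ ζ) ^ p) := by
        rw [lintegral_add_right _ measurable_const, lintegral_const_mul _ hm, lintegral_const,
          measure_univ, mul_one]
    _ ≤ ENNReal.ofReal (2 ^ p) * ENNReal.ofReal (max C 0 * (n : ℝ) ^ (p * ζ)) +
        ENNReal.ofReal (2 ^ p * (max C1 0 * (n : ℝ) ^ ζ) ^ p) := by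
        gcongr
        refine (H n hn).trans (ENNReal.ofReal_le_ofReal ?_)
        exact mul_le_mul_of_nonneg_right (le_max_left _ _) (Real.rpow_nonneg n0.le _)
    _ = _ := by
        rw [← ENNReal.ofReal_mul (by positivity),
          ← ENNReal.ofReal_add (by positivity) (by positivity)]
        congr 1
        rw [Real.mul_rpow (le_max_right _ _) hs.le, ← Real.rpow_mul n0.le, mul_comm ζ p]
        ring

end

end Pool.Agent.Run7.h981.ME
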