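import Pool.Agent.Run7.h981.ME.Lam
import Pool.Agent.Run7.h208.WT.Rec

/-!
# Directed polymers: weak upper tails and the growth rate of the moments
-/

set_option autoImplicit false

open MeasureTheory ProbabilityTheory Filter Topology
open scoped ENNReal

namespace Pool.Agent.Run7.h981.ME

open TH967.DP
open Pool.Agent.N662.SE
open Pool.Agent.Run7.h208.WT

variable {d : ℕ}

lemma rpow_le_one' {X e : ℝ} (hX : 1 ≤ X) (he : e ≤ 0) : X ^ e ≤ 1 :=
  Real.rpow_le_one_of_one_le_of_nonpos hX he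

lemma EX_add_le {a t : ℝ} (ha : 0 ≤ a) {y : ℝ≥0∞} (hy : y ≤ ENNReal.ofReal t) (ht : 0 ≤ t) :
    EX a + y ≤ EX (a + t) := by
  rw [EX_add]
  have h1 : (1 : ℝ≥0∞) ≤ EX a := by
    rw [← EX_zero]; exact EX_mono ha
  have h2 : 1 + ENNReal.ofReal t ≤ EX t := by
    rw [← ENNReal.ofReal_one, ← ENNReal.ofReal_add zero_le_one ht]
    refine ENNReal.ofReal_le_ofReal ?_
    have := Real.add_one_le_exp t
    linarith
  calc EX a + y ≤ EX a * 1 + EX a * ENNReal.ofReal t := by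
        rw [mul_one]
        gcongr
        calc y ≤ ENNReal.ofReal t := hy
          _ = 1 * ENNReal.ofReal t := (one_mul _).symm
          _ ≤ EX a * ENNReal.ofReal t := by gcongr
    _ = EX a * (1 + ENNReal.ofReal t) := by rw [mul_add]
    _ ≤ _ := by gcongr

section
variable {Ω : Type} [mΩ : MeasurableSpace Ω] (P : Measure Ω) [IsProbabilityMeasure P]
  (ω : ℕ → (Fin d → ℤ) → Ω → ℝ)

/-- the difference between the growth rate of the moment of order `l` and the typical growth -/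
noncomputable def gap (β : ℝ) (h : Fin d → ℝ) (φ l : ℝ) : ℝ := lam P ω β h l - l * φ

variable {P ω} {β : ℝ} {h : Fin d → ℝ} {φ : ℝ}

/-- the tail part of the moment for one block -/
lemma tau_bound (R : Reg P ω β h φ) {ζ q q' C1 K p l : ℝ} (hp : 1 ≤ p) (hl : 0 < l)
    (hpl : p * l ≤ 1 / 4) (hK : K = q - q') (hpK : (p - 1) * K = q') {m : ℕ} (hm : 1 ≤ m)
    (hW : P {x | (m : ℝ) ^ ζ < lw ω β h 0 0 m x - m * φ} ≤ ENNReal.ofReal (C1 * (m : ℝ) ^ (-q)))
    (hC1 : 0 ≤ C1) {D : ℝ} (hg : m * gap P ω β h φ (p * l) ≤ D) :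
    tauU P ω β h l (m * φ) ((m : ℝ) ^ ζ) m ≤
      ENNReal.ofReal ((C1 + Real.exp D) * (m : ℝ) ^ (-q')) := by
  have m0 : (0 : ℝ) < m := by exact_mod_cast hm
  have hmeas := (R.meas m).sub_const ((m : ℝ) * φ)
  have hpl0 : 0 < p * l := by positivity
  have h1 := cheb (P := P) hmeas hmeas (fun x => le_rfl) hl.le hp ((m : ℝ) ^ ζ)
    (K * Real.log m / l)
  have e1 : l * (K * Real.log m / l) = K * Real.log m := by field_simp
  rw [e1] at h1
  have e2 : EX (K * Real.log m) = ENNReal.ofReal ((m : ℝ) ^ K) := by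
    unfold EX
    rw [Real.rpow_def_of_pos m0, mul_comm]
  have e3 : EX (-((p - 1) * (K * Real.log m))) = ENNReal.ofReal ((m : ℝ) ^ (-q')) := by
    unfold EX
    rw [Real.rpow_def_of_pos m0, ← hpK]
    congr 2; ring
  have e4 : ∫⁻ x, EX (p * l * (lw ω β h 0 0 m x - m * φ)) ∂P ≤ EX D := by
    refine (mom_le R hpl0 hpl m).trans (EX_mono ?_)
    exact hg
  rw [e2, e3] at h1
  unfold tauU
  refine h1.trans ?_
  calc ENNReal.ofReal ((m : ℝ) ^ K) * P {x | (m : ℝ) ^ ζ < lw ω β h 0 0 m x - m * φ} +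
        ENNReal.ofReal ((m : ℝ) ^ (-q')) * ∫⁻ x, EX (p * l * (lw ω β h 0 0 m x - m * φ)) ∂P
      ≤ ENNReal.ofReal ((m : ℝ) ^ K) * ENNReal.ofReal (C1 * (m : ℝ) ^ (-q)) +
        ENNReal.ofReal ((m : ℝ) ^ (-q')) * EX D := by gcongr
    _ = _ := by
        unfold EX
        rw [← ENNReal.ofReal_mul (by positivity), ← ENNReal.ofReal_mul (by positivity),
          ← ENNReal.ofReal_add (by positivity) (by positivity)]
        congr 1
        have : (m : ℝ) ^ (-q') = (m : ℝ) ^ K * (m : ℝ) ^ (-q) := by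
          rw [← Real.rpow_add m0, hK]; congr 1; ring
        rw [this]; ring

/-- the bound for one scale -/
lemma raw (hi' : S_ID) (hd : 1 ≤ d) (he : IsEnv P ω) {U : Set (Fin d → ℝ)}
    {φ : (Fin d → ℝ) → ℝ} (R : ∀ h ∈ U, Reg P ω β h (φ h))
    {ζ q q' C1 b z0 z1 : ℝ} (hζ0 : 0 ≤ ζ) (hζ1 : ζ ≤ 1) (hC1 : 0 ≤ C1)
    (hW : ∀ h ∈ U, ∀ m : ℕ, 1 ≤ m → P {x | (m : ℝ) ^ ζ < lw ω β h 0 0 m x - m * φ h} ≤
      ENNReal.ofReal (C1 * (m : ℝ) ^ (-q)))
    (hq0 : 0 < q') (hq : q' < q) (hb0 : 0 < b) (hb1 : b < 1) (hA : (1 - b) + d ≤ b * q')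
    (hz0 : 0 < z0) (hz1 : b * z0 ≤ z1) (hz2 : 1 - b * (1 - ζ) ≤ z1)
    (hL : ∀ᶠ x : ℝ in atTop, ∀ h ∈ U, gap P ω β h (φ h) (x ^ (-z0)) ≤ x⁻¹) :
    ∃ C : ℝ, ∀ᶠ X : ℝ in atTop, ∀ h ∈ U,
      gap P ω β h (φ h) (X ^ (-z1)) ≤ (C + d * Real.log (9 * X)) / X := by
  set K : ℝ := q - q' with hK
  have K0 : 0 < K := by rw [hK]; linarith
  set p : ℝ := 1 + q' / K with hp
  have p1 : 1 ≤ p := by rw [hp]; have : 0 < q' / K := by positivity
                        linarith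
  have p0 : 0 < p := by linarith
  have hpK : (p - 1) * K = q' := by rw [hp]; field_simp; ring
  have z1p : 0 < z1 := lt_of_lt_of_le (by positivity) hz1
  set D : ℝ := 2 * p ^ (1 / z0) with hD
  set C5 : ℝ := C1 + Real.exp D with hC5
  have C50 : 0 ≤ C5 := by positivity
  refine ⟨4 + 2 * 9 ^ d * C5, ?_⟩
  have hy : Tendsto (fun X : ℝ => p ^ (-(1 / z0)) * X ^ (z1 / z0)) atTop atTop :=
    (tendsto_rpow_atTop (by positivity)).const_mul_atTop (by positivity)
  have hl4 : ∀ᶠ X : ℝ in atTop, p * X ^ (-z1) ≤ 1 / 4 := by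
    have h1 : Tendsto (fun X : ℝ => p * X ^ (-z1)) atTop (𝓝 (p * 0)) :=
      (tendsto_rpow_neg_atTop z1p).const_mul p
    rw [mul_zero] at h1
    exact h1.eventually (ge_mem_nhds (by norm_num))
  filter_upwards [eventually_ge_atTop (1 : ℝ), hl4, hy.eventually hL] with X hX hpl hgU
  intro h hh
  have R := R h hh
  have hW := hW h hh
  have hg := hgU h hh
  have X0 : (0 : ℝ) < X := lt_of_lt_of_le one_pos hX
  set l : ℝ := X ^ (-z1) with hl
  have l0 : 0 < l := Real.rpow_pos_of_pos X0 _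
  have l4 : l ≤ 1 / 4 := le_trans (le_mul_of_one_le_left l0.le p1) hpl
  -- the gap at `p * l`
  have hg' : gap P ω β h (φ h) (p * l) ≤ p ^ (1 / z0) * X ^ (-(z1 / z0)) := by
    have e1 : (p ^ (-(1 / z0)) * X ^ (z1 / z0)) ^ (-z0) = p * l := by
      rw [Real.mul_rpow (by positivity) (by positivity), ← Real.rpow_mul p0.le,
        ← Real.rpow_mul X0.le]
      have a1 : -(1 / z0) * -z0 = 1 := by field_simp
      have a2 : z1 / z0 * -z0 = -z1 := by field_simp
      rw [a1, a2, Real.rpow_one]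
    rw [e1] at hg
    refine hg.trans (le_of_eq ?_)
    rw [mul_inv, ← Real.rpow_neg p0.le, ← Real.rpow_neg X0.le, neg_neg]
  -- the block length and the number of blocks
  have hXb : 1 ≤ X ^ b := Real.one_le_rpow hX hb0.le
  have hXb' : 1 ≤ X ^ (1 - b) := Real.one_le_rpow hX (by linarith)
  set m : ℕ := ⌈X ^ b⌉₊ with hm
  set N : ℕ := ⌈X ^ (1 - b)⌉₊ with hN
  have m1 : X ^ b ≤ m := Nat.le_ceil _
  have m2 : (m : ℝ) ≤ 2 * X ^ b := by
    have := Nat.ceil_lt_add_one (show 0 ≤ X ^ b by linarith only [hXb])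
    linarith only [this, hXb]
  have N1 : X ^ (1 - b) ≤ N := Nat.le_ceil _
  have N2 : (N : ℝ) ≤ 2 * X ^ (1 - b) := by
    have := Nat.ceil_lt_add_one (show 0 ≤ X ^ (1 - b) by linarith only [hXb'])
    linarith only [this, hXb']
  have hXX : X ^ (1 - b) * X ^ b = X := by
    rw [← Real.rpow_add X0]; simp
  have m0 : (0 : ℝ) < m := by linarith only [m1, hXb]
  have m1' : 1 ≤ m := by
    have : (0 : ℝ) < m := m0
    exact_mod_cast this
  have N0 : (0 : ℝ) < N := by linarith only [N1, hXb']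
  set n : ℕ := N * m with hn
  have nr : (n : ℝ) = N * m := by rw [hn]; push_cast; rfl
  have n1 : X ≤ n := by
    rw [nr, ← hXX]
    gcongr
  have n2 : (n : ℝ) ≤ 4 * X := by
    rw [nr]
    calc (N : ℝ) * m ≤ (2 * X ^ (1 - b)) * (2 * X ^ b) := by gcongr
      _ = 4 * (X ^ (1 - b) * X ^ b) := by ring
      _ = 4 * X := by rw [hXX]
  have n0 : (0 : ℝ) < n := by linarith only [n1, X0]
  -- one block
  have hDm : m * gap P ω β h (φ h) (p * l) ≤ D := by
    calc m * gap P ω β h (φ h) (p * l) ≤ m * (p ^ (1 / z0) * X ^ (-(z1 / z0))) := by gcongr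
      _ ≤ (2 * X ^ b) * (p ^ (1 / z0) * X ^ (-(z1 / z0))) := by gcongr
      _ = D * X ^ (b + -(z1 / z0)) := by rw [Real.rpow_add X0, hD]; ring
      _ ≤ D * 1 := by
          refine mul_le_mul_of_nonneg_left (rpow_le_one' hX ?_) (by positivity)
          have : b ≤ z1 / z0 := by rwa [le_div_iff₀ hz0]
          linarith only [this]
      _ = D := mul_one _
  have htau := tau_bound R p1 l0 hpl hK hpK m1' (hW m m1') hC1 hDm
  -- the chain
  have hch := up_chain hi' hd he β h l0 (fun _ => (m : ℝ) * φ h) (fun _ => (m : ℝ) ^ ζ) n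
    (fun _ => m) N (by simp [tt, hn])
  have htt : tt (fun _ => m) N = n := by simp [tt, hn]
  rw [htt, Finset.prod_const, Finset.card_range] at hch
  set t' : ℝ := (2 * (n : ℝ) + 1) ^ d * (C5 * (m : ℝ) ^ (-q')) with ht'
  have t0 : 0 ≤ t' := by positivity
  have hcb : ((Box d n).card : ℝ≥0∞) * tauU P ω β h l (m * φ h) ((m : ℝ) ^ ζ) m ≤
      ENNReal.ofReal t' := by
    calc ((Box d n).card : ℝ≥0∞) * tauU P ω β h l (m * φ h) ((m : ℝ) ^ ζ) m
        ≤ ENNReal.ofReal ((2 * (n : ℝ) + 1) ^ d) *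
          ENNReal.ofReal (C5 * (m : ℝ) ^ (-q')) := by
          gcongr
          rw [← card_Box, ENNReal.ofReal_natCast]
      _ = _ := by rw [← ENNReal.ofReal_mul (by positivity)]
  have hone : EX (l * (m * φ h)) * (EX (l * (m : ℝ) ^ ζ) +
      (Box d n).card * tauU P ω β h l (m * φ h) ((m : ℝ) ^ ζ) m) ≤
      EX (l * (m * φ h) + (l * (m : ℝ) ^ ζ + t')) := by
    rw [EX_add (l * (m * φ h))]
    gcongr
    exact EX_add_le (by positivity) hcb t0
  have hMM : EX (LL P ω β h l n) ≤ EX (N * (l * (m * φ h) + (l * (m : ℝ) ^ ζ + t'))) := by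
    rw [EX_LL R l0 l4]
    refine hch.trans ?_
    calc _ ≤ (EX (l * (m * φ h) + (l * (m : ℝ) ^ ζ + t'))) ^ N := by gcongr
      _ = _ := by
          unfold EX
          rw [← ENNReal.ofReal_pow (Real.exp_pos _).le, ← Real.exp_nat_mul]
  rw [EX_le_iff] at hMM
  -- the conclusion
  have hup := (lam_spec R l0 l4).2.2 n
  have b1 : (N : ℝ) * (l * (m : ℝ) ^ ζ) ≤ 4 := by
    have c1 : (m : ℝ) ^ ζ ≤ 2 * X ^ (b * ζ) := by
      calc (m : ℝ) ^ ζ ≤ (2 * X ^ b) ^ ζ := Real.rpow_le_rpow m0.le m2 hζ0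
        _ = 2 ^ ζ * X ^ (b * ζ) := by
            rw [Real.mul_rpow (by norm_num) (by positivity), ← Real.rpow_mul X0.le]
        _ ≤ 2 * X ^ (b * ζ) := by
            gcongr
            calc (2 : ℝ) ^ ζ ≤ 2 ^ (1 : ℝ) :=
                  Real.rpow_le_rpow_of_exponent_le (by norm_num) hζ1
              _ = 2 := by simp
    calc (N : ℝ) * (l * (m : ℝ) ^ ζ) ≤ (2 * X ^ (1 - b)) * (X ^ (-z1) * (2 * X ^ (b * ζ))) := by
          gcongr
      _ = 4 * X ^ ((1 - b) + (-z1 + b * ζ)) := by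
          rw [Real.rpow_add X0, Real.rpow_add X0]; ring
      _ ≤ 4 * 1 := by
          refine mul_le_mul_of_nonneg_left (rpow_le_one' hX ?_) (by norm_num)
          linarith only [hz2]
      _ = 4 := mul_one _
  have b2 : (N : ℝ) * t' ≤ 2 * 9 ^ d * C5 := by
    have c1 : (2 * (n : ℝ) + 1) ^ d ≤ (9 * X) ^ d := by
      gcongr
      linarith only [n2, hX]
    have c2 : (m : ℝ) ^ (-q') ≤ X ^ (-(b * q')) := by
      calc (m : ℝ) ^ (-q') ≤ (X ^ b) ^ (-q') :=
            Real.rpow_le_rpow_of_nonpos (by linarith only [hXb]) m1 (by linarith only [hq0])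
        _ = _ := by rw [← Real.rpow_mul X0.le]; congr 1; ring
    calc (N : ℝ) * t' ≤ (2 * X ^ (1 - b)) * ((9 * X) ^ d * (C5 * X ^ (-(b * q')))) := by
          rw [ht']
          gcongr
      _ = 2 * 9 ^ d * C5 * X ^ ((1 - b) + (d + -(b * q'))) := by
          rw [Real.rpow_add X0, Real.rpow_add X0, Real.rpow_natCast, mul_pow]; ring
      _ ≤ 2 * 9 ^ d * C5 * 1 := by
          refine mul_le_mul_of_nonneg_left (rpow_le_one' hX ?_) (by positivity)
          linarith only [hA]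
      _ = _ := mul_one _
  have b3 : (d : ℝ) * Real.log (2 * n + 1) ≤ d * Real.log (9 * X) := by
    gcongr
    linarith only [n2, hX]
  have hfin : n * gap P ω β h (φ h) l ≤ 4 + 2 * 9 ^ d * C5 + d * Real.log (9 * X) := by
    unfold gap
    have e1 : (N : ℝ) * (l * (m * φ h) + (l * (m : ℝ) ^ ζ + t')) =
        l * (n * φ h) + N * (l * (m : ℝ) ^ ζ) + N * t' := by rw [nr]; ring
    rw [e1] at hMM
    have e2 : (n : ℝ) * (lam P ω β h l - l * φ h) = n * lam P ω β h l - l * (n * φ h) := by ring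
    rw [e2]
    linarith only [hMM, hup, b1, b2, b3]
  have hlog : 0 ≤ Real.log (9 * X) := Real.log_nonneg (by linarith only [hX])
  have hB : 0 ≤ 4 + 2 * 9 ^ d * C5 + d * Real.log (9 * X) := by positivity
  calc gap P ω β h (φ h) l ≤ (4 + 2 * 9 ^ d * C5 + d * Real.log (9 * X)) / n := by
        rw [le_div_iff₀ n0, mul_comm]; exact hfin
    _ ≤ _ := by gcongr

end

end Pool.Agent.Run7.h981.ME
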